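import Pool.Agent.MP_f3cd89_nt.Tw.Ver

/-! The transfer congruence for smoothed L-values. -/

set_option autoImplicit false
set_option linter.unusedSectionVars false

open Finset Matrix NumberField IsDedekindDomain

namespace Pool.Agent.MP_f3cd89_nt.Tw

section Grp

variable {G : Type} [Group G] [Fintype G] {U V : Subgroup G} [U.Normal] {p : ℕ}

/-- the transfer congruence -/
def MM (f : (U →* ℂˣ) → ℂ) (g : (V →* ℂˣ) → ℂ) : Prop :=
  g ∈ IntG V ∧ (fun ψ => f ψ - g (ver V ψ)) ∈ TrI U V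

variable {f : (U →* ℂˣ) → ℂ} {g : (V →* ℂˣ) → ℂ}

theorem mm_dt (hp : p.Prime) (h : U ≤ V) (hΓ : Nat.card (Gm U V) = p) (x : G → ℤ) (H : MM f g) :
    MM (fun ψ => dt (Mat ψ) (zc x) * f ψ) (fun χ : V →* ℂˣ => dt (Mat χ) (zc x) * g χ) := by
  refine ⟨(IntG V).mul_mem (dt_intG x) H.1, ?_⟩
  convert add_mem (tr_mul h (dt_intG x) (fun ψ y => by rw [dt_cj]) H.2)
    (tr_mul h (intG_ver H.1) (fun ψ y => by rw [ver_cj]) (det_mw hp h hΓ x)) using 1
  funext ψ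
  simp only [Pi.add_apply, Pi.mul_apply]
  ring

theorem eul_zc (a : G) (n : ℕ) : ∃ x : G → ℤ, eul a n = zc x := by
  classical
  refine ⟨Pi.single 1 1 - Pi.single a n, funext fun b => ?_⟩
  simp only [eul, zc, Pi.sub_apply, Pi.single_apply, Int.cast_sub, Int.cast_ite, Int.cast_one,
    Int.cast_zero, Int.cast_natCast]

theorem mm_del (hp : p.Prime) (h : U ≤ V) (hΓ : Nat.card (Gm U V) = p) {K : Type} [Field K]
    [NumberField K] (φ : Pr K → G) (T : Finset (Pr K)) (H : MM f g) :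
    MM (fun ψ => del φ T (dt (Mat ψ)) * f ψ) (fun χ : V →* ℂˣ => del φ T (dt (Mat χ)) * g χ) := by
  classical
  induction T using Finset.induction_on with
  | empty => simpa [del] using H
  | insert v T hv ih =>
    obtain ⟨x, hx⟩ := eul_zc (φ v)⁻¹ (nrm v)
    simpa only [del, prod_insert hv, hx, mul_assoc] using mm_dt hp h hΓ x ih

theorem mm_cancel (hp : p.Prime) (h : U ≤ V) (hΓ : Nat.card (Gm U V) = p) {s t : ℤ}
    (hst : (p : ℤ) ∣ s - t) (hs : ¬(p : ℤ) ∣ s) (hf : f ∈ IntG U)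
    (hi : ∀ ψ (y : V), f (cj ψ y) = f ψ) (hg : g ∈ IntG V)
    (H : MM (fun ψ => s * f ψ) fun χ => t * g χ) : (fun ψ => f ψ - g (ver V ψ)) ∈ TrI U V := by
  obtain ⟨a, b, hab⟩ := ((Nat.prime_iff_prime_int.1 hp).irreducible.coprime_iff_not_dvd).2 hs
  have h1 := sub_mem H.2 (tr_mul h (intG_ver hg) (fun ψ y => by rw [ver_cj]) (tr_const hΓ hst))
  have h2 := tr_mul h ((IntG U).sub_mem hf (intG_ver hg))
    (fun ψ y => by simp only [Pi.sub_apply, hi, ver_cj]) (tr_const hΓ (dvd_refl (p : ℤ)))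
  convert add_mem (zsmul_mem h2 a) (zsmul_mem h1 b) using 1
  funext ψ
  have h3 := congrArg (Int.cast : ℤ → ℂ) hab
  simp only [Pi.add_apply, Pi.mul_apply, Pi.sub_apply, zsmul_eq_mul,
    Pi.intCast_apply, Int.cast_sub, Int.cast_add, Int.cast_mul, Int.cast_one] at h3 ⊢
  linear_combination (g (ver V ψ) - f ψ) * h3

theorem geom_zc (a : G) (n : ℕ) : ∃ x : G → ℤ, ∀ (W : Subgroup G) (ψ : W →* ℂˣ),
    dt (Mat ψ) (zc x) * dt (Mat ψ) (eul a⁻¹ n) =
      (((1 - (n : ℤ) ^ orderOf a) ^ Fintype.card (G ⧸ W) : ℤ) : ℂ) := by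
  classical
  refine ⟨∑ i ∈ range (orderOf a), Pi.single (a⁻¹ ^ i) ((n : ℤ) ^ i), fun W ψ => ?_⟩
  have h1 : ∑ g, zc (∑ i ∈ range (orderOf a), Pi.single (a⁻¹ ^ i) ((n : ℤ) ^ i)) g • Mat ψ g =
      ∑ i ∈ range (orderOf a), ((n : ℂ) • Mat ψ a⁻¹) ^ i := by
    simp only [zc, Finset.sum_apply, Int.cast_sum, sum_smul]
    rw [sum_comm]
    refine sum_congr rfl fun i _ => ?_
    simp [Pi.single_apply, ite_smul, smul_pow, ← map_pow]
  rw [dt_eul, dt, h1, ← det_mul, geom_sum_mul_neg, smul_pow, ← map_pow, inv_pow,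
    pow_orderOf_eq_one, inv_one, map_one, ← one_smul ℂ (1 : Matrix (G ⧸ W) (G ⧸ W) ℂ), smul_smul,
    ← sub_smul, det_smul]
  simp

theorem cj_congr (ψ : U →* ℂˣ) {a b : G} (h : (a : G ⧸ U) = b) : cj ψ a = cj ψ b := by
  ext u
  rw [← ext0_coe, ← ext0_coe, ext0_cj, ext0_cj,
    ← ext0_conj ψ ⟨_, QuotientGroup.eq.1 h⟩ (a⁻¹ * u * a)]
  congr 1
  simp [mul_assoc]

theorem kap_one {v : V} : kap (U := U) v = 1 ↔ (v : G) ∈ U :=
  Subtype.ext_iff.trans (QuotientGroup.eq_one_iff _)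

theorem prod_gen (hp : p.Prime) (hΓ : Nat.card (Gm U V) = p) {Y : V} (hY : (Y : G) ∉ U) {M : Type}
    [CommMonoid M] (F : (U →* ℂˣ) → M) (ψ : U →* ℂˣ) :
    ∏ t ∈ range p, F (cj ψ ((Y : G) ^ t)⁻¹) = ∏ γ : Gm U V, F (cj ψ (γ : G ⧸ U).out) := by
  have hb := gen_bij hp hΓ (δ := kap Y⁻¹) fun e => hY (by simpa using kap_one.1 e)
  exact prod_nbij _ hb.mapsTo hb.injOn hb.surjOn fun t _ => congrArg F (cj_congr ψ (by simp [kap]))

theorem conj_val (ψ : U →* ℂˣ) (a u : U) (y z : G) (h : (a : G) = u * (y * z * y⁻¹) * (u : G)⁻¹) :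
    (ψ a : ℂ) = ext0 (cj ψ y⁻¹) z := by
  rw [ext0_cj, ← ext0_coe, h, ← ext0_conj ψ u⁻¹ (y⁻¹⁻¹ * z * y⁻¹)]
  simp

theorem card_q (h : U ≤ V) (hΓ : Nat.card (Gm U V) = p) :
    Fintype.card (G ⧸ U) = Fintype.card (G ⧸ V) * p := by
  rw [← Fintype.card_of_bijective (rep_bij h), Fintype.card_prod, ← Nat.card_eq_fintype_card, hΓ,
    mul_comm]

end Grp

section Fld

variable {K E L G : Type} [Field K] [NumberField K] [Field E] [NumberField E] [Field L]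
  [NumberField L] [Algebra K E] [Algebra E L] [Algebra K L] [IsScalarTower K E L] [Group G]
  [Fintype G] [MulSemiringAction G L] [IsGaloisGroup G K L] {U : Subgroup G} [IsGaloisGroup U E L]
  {S : Finset (Pr K)} {φ : Pr K → G} {φE : Pr E → U}

theorem sm_val (hu : Unr L G S) (hφ : IsFrob L S φ) (hE : IsFrob L (above E S) φE) {v₀ : Pr K}
    (hv : v₀ ∉ S) (ψ : U →* ℂˣ) {f : ℂ → ℂ}
    (hf : Sm (above E S) (above E {v₀}) (fun w => (ψ (φE w))⁻¹) f) :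
    f 0 = (-1) ^ #(above E {v₀}) *
      (dt (Mat ψ) (eul (φ v₀)⁻¹ (nrm v₀)) * val S φ (dt (Mat ψ))) := by
  let den : ℂ → ℂ := fun s => ∏ c ∈ above E {v₀},
    ((((ψ (φE c))⁻¹ : ℂˣ) : ℂ) * (nrm c : ℂ) ^ (1 - s) - 1)
  have hd : Differentiable ℂ den := Differentiable.fun_finsetProd fun c _ =>
    ((Differentiable.const_cpow (by fun_prop)
      (Or.inl (Nat.cast_ne_zero.2 (by have := two_le_nrm c; omega)))).const_mul _).sub_const 1
  have h0 : ∀ s : ℂ, s.re ≠ 1 → den s ≠ 0 := fun s hs => prod_ne_zero_iff.2 fun c _ e => by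
    have h1 : ‖(((ψ (φE c))⁻¹ : ℂˣ) : ℂ)‖ = 1 := Complex.norm_eq_one_of_pow_eq_one
      (n := orderOf (φE c)) (by rw [← Units.val_pow_eq_pow_val, inv_pow, ← map_pow,
        pow_orderOf_eq_one, map_one, inv_one, Units.val_one]) (orderOf_pos _).ne'
    have h2 := congrArg norm (sub_eq_zero.1 e)
    rw [norm_mul, h1, one_mul, norm_one] at h2
    exact LevaX.norm_ne (two_le_nrm c) hs h2
  have h00 := h0 0 (by simp)
  have h1 : LV S φ (dt (Mat ψ)) (f 0 / den 0) := by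
    refine ⟨fun s => f s / den s, fun s _ => ?_, ?_, rfl, fun s hs => ?_⟩
    · exact (hf.1.analyticAt s).meromorphicAt.div (hd.analyticAt s).meromorphicAt
    · exact (hf.1.analyticAt 0).div (hd.analyticAt 0) h00
    · obtain ⟨Lv, h1, h2⟩ := hf.2 s hs
      have h3 : f s / den s = Lv := by
        rw [h2]
        exact mul_div_cancel_left₀ _ (h0 s hs.ne')
      simp only [h3]
      convert LevaX.hasProd_under S
        (fun w => (1 - (((ψ (φE w))⁻¹ : ℂˣ) : ℂ) * (nrm w : ℂ) ^ (-s))⁻¹) h1 using 2 with v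
      rw [prod_inv_distrib, loc hu hφ hE v.2]
  have h2 := loc hu hφ hE hv ψ 1
  rw [Complex.cpow_one] at h2
  rw [h1.val_eq, ← h2, ← mul_assoc, ← prod_neg]
  simp only [neg_sub]
  simpa only [den, sub_zero] using (mul_div_cancel₀ (f 0) h00).symm

end Fld

variable {K L G : Type} [Field K] [NumberField K] [Field L] [NumberField L] [Algebra K L]
  [Group G] [Fintype G] [MulSemiringAction G L] [IsGaloisGroup G K L] {U V : Subgroup G} [U.Normal]
  {S : Finset (Pr K)} {φ : Pr K → G} {p : ℕ}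

theorem tra {E₁ E : Type} [Field E₁] [NumberField E₁] [Field E] [NumberField E] [Algebra E₁ E]
    [Algebra E L] [Algebra E₁ L] [IsScalarTower E₁ E L] [IsGaloisGroup V E₁ L]
    [IsGaloisGroup U E L] (hp : p.Prime) (h : U ≤ V) (hΓ : Nat.card (Gm U V) = p) {Y : V}
    (hY : (Y : G) ∉ U) {S₁ : Finset (Pr E₁)} {φ₁ : Pr E₁ → V} {φE : Pr E → U} (hu : Unr L V S₁)
    (h₁ : IsFrob L S₁ φ₁) (hE : IsFrob L (above E S₁) φE) {w : Pr E₁} (hw : w ∉ S₁) :
    (-1 : ZMod p) ^ #(above E {w}) = -1 ∧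
      ∀ ψ : U →* ℂˣ, (ver V ψ (φ₁ w))⁻¹ = ∏ c ∈ above E {w}, (ψ (φE c))⁻¹ := by
  classical
  have := Fact.mk hp
  let κ : V →* Gm U V := (QuotientGroup.mk' U).subgroupMap V
  have hk : κ Y ≠ 1 := fun e => hY (kap_one.1 e)
  have ho : orderOf (κ Y) = p := orderOf_eq_prime (hΓ ▸ pow_card_eq_one') hk
  have free : ∀ e : ℤ, ((Y ^ e : V) : G) ∈ U ↔ (p : ℤ) ∣ e := fun e => by
    rw [← kap_one, ← ho, orderOf_dvd_iff_zpow_eq_one, ← map_zpow]
    rfl
  have gen : ∀ g : V, ∃ (u : U) (e : ℤ), g = Subgroup.inclusion h u * Y ^ e := fun g => by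
    obtain ⟨e, he⟩ := mem_zpowers_of_prime_card hΓ hk (g' := κ g)
    refine ⟨⟨(g * (Y ^ e)⁻¹ : V), kap_one.1 ?_⟩, e, Subtype.ext (by simp)⟩
    change κ _ = 1
    rw [map_mul, map_inv, map_zpow, ← he]
    exact mul_inv_cancel _
  have dic := (dict' E₁ E L V U (Subgroup.inclusion h) S₁ φE (fun _ _ => rfl) hu hE).2 Y p φ₁ hp.pos
    (by rw [Subgroup.inclusion_range]; exact ‹U.Normal›.subgroupOf _) gen
    (fun e => by rw [Subgroup.inclusion_range, Subgroup.mem_subgroupOf, free]) h₁ w hw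
  by_cases hv : (φ₁ w : G) ∈ U
  · obtain ⟨c, c1, c2, c3⟩ := dic ⟨_, hv⟩ 0 (Subtype.ext (by simp))
    simp only [Int.gcd_zero_right, Int.natAbs_natCast, Nat.div_self hp.pos, pow_one] at c1 c2 c3
    refine ⟨by rw [c2, card_image_of_injOn c1, card_range, ZMod.pow_card], fun ψ => ?_⟩
    rw [c2, prod_image c1, prod_inv_distrib]
    congr 1
    ext
    rw [ver_mem ψ _ hv, ← prod_gen hp hΓ hY (fun χ => ext0 χ (φ₁ w)), Units.coe_prod]
    refine prod_congr rfl fun t _ => ?_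
    obtain ⟨-, u, hu'⟩ := c3 t
    exact (conj_val ψ _ u _ _ (congrArg Subtype.val hu')).symm
  · obtain ⟨u, e, he⟩ := gen (φ₁ w)
    obtain ⟨c, c1, c2, c3⟩ := dic u e he
    have h2 : Int.gcd p e = 1 := Int.isCoprime_iff_gcd_eq_one.1
      (((Nat.prime_iff_prime_int.1 hp).irreducible.coprime_iff_not_dvd).2 fun hd => hv (by
        rw [he]
        exact mul_mem u.2 ((free e).2 hd)))
    simp only [h2, range_one, image_singleton, Nat.div_one] at c2 c3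
    refine ⟨by rw [c2, card_singleton, pow_one], fun ψ => ?_⟩
    rw [c2, prod_singleton]
    congr 1
    ext
    obtain ⟨-, u', hu'⟩ := c3 0
    rw [ver_not hp hΓ ψ _ hv, conj_val ψ _ u' _ _ (congrArg Subtype.val hu'), ext0_cj]
    simp

theorem mw_prime (hp : p.Prime) (h : U ≤ V) (hΓ : Nat.card (Gm U V) = p) {j : G} (hj : IsCC L j)
    (hU : j ∈ U) (hu : Unr L G S) (hφ : IsFrob L S φ) {v₀ : Pr K} (hv : v₀ ∉ S)
    (hpv : (p : 𝓞 K) ∉ v₀.asIdeal) : ∃ s t : ℤ, (p : ℤ) ∣ s - t ∧ ¬(p : ℤ) ∣ s ∧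
      MM (fun ψ : U →* ℂˣ => s * (dt (Mat ψ) (eul (φ v₀)⁻¹ (nrm v₀)) * val S φ (dt (Mat ψ))))
        fun χ : V →* ℂˣ => t * (dt (Mat χ) (eul (φ v₀)⁻¹ (nrm v₀)) * val S φ (dt (Mat χ))) := by
  classical
  have := Fact.mk hp
  let E₁ : IntermediateField K L := FixedPoints.intermediateField V
  let E : IntermediateField K L := FixedPoints.intermediateField U
  have hle : E₁ ≤ E := IsGaloisGroup.fixedPoints_le_of_le G K L _ _ h
  let _ : Algebra E₁ E := (IntermediateField.inclusion hle).toAlgebra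
  have t1 : IsScalarTower K E₁ E := IsScalarTower.of_algebraMap_eq' rfl
  have t2 : IsScalarTower E₁ E L := IsScalarTower.of_algebraMap_eq' rfl
  have r1 : IsTotallyReal E₁ := LevbX.real hj fun x => x.2 (⟨j, h hU⟩ : V)
  have r2 : IsTotallyReal E := LevbX.real hj fun x => x.2 (⟨j, hU⟩ : U)
  obtain ⟨δ, hδ⟩ : ∃ δ : Gm U V, δ ≠ 1 := by
    have := Finite.one_lt_card_iff_nontrivial.1 (hΓ ▸ hp.one_lt)
    exact exists_ne 1
  obtain ⟨_, Y', hY', rfl⟩ := δ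
  let Y : V := ⟨Y', hY'⟩
  have hY : (Y : G) ∉ U := fun e => hδ (kap_one.2 e)
  obtain ⟨γ, hγ⟩ := LevbX.exists_res (E := E) (L := L) U ‹_› (Y : G)
  have hu₁ : Unr L V (above E₁ S) :=
    ((tow' K E₁ L G).2.2.1 V V.subtype fun _ _ => rfl).2.2.1 S hu
  have hu₂ : Unr L U (above E S) :=
    ((tow' K E L G).2.2.1 U U.subtype fun _ _ => rfl).2.2.1 S hu
  have inj := (algebraMap E L).injective
  have hrel : Rel E₁ E p (γ ^ p ^ 0) (above E₁ S) := by
    rw [pow_zero, pow_one]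
    have key : ∀ n : ℕ, γ ^ n = 1 ↔ (Y : G) ^ n ∈ U := fun n => by
      rw [← IsGaloisGroup.fixingSubgroup_range_algebraMap' G K L U E, mem_fixingSubgroup_iff]
      constructor
      · rintro h _ ⟨x, rfl⟩
        rw [← hγ, h]
        rfl
      · intro h
        ext x
        exact congrArg Subtype.val (inj ((hγ n x).trans (h _ ⟨x, rfl⟩)))
    have h1 := hγ 1
    rw [pow_one, pow_one] at h1
    refine ⟨hp, orderOf_eq_prime ((key p).2 ?_) fun e => hY ?_, fun x => ⟨fun e => ?_, ?_⟩,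
      fun w hw x => ?_⟩
    · exact (QuotientGroup.eq_one_iff _).1
        (congrArg Subtype.val (hΓ ▸ pow_card_eq_one' (x := kap (U := U) Y)))
    · simpa using (key 1).1 (by rw [e, one_pow])
    · obtain ⟨y, hy⟩ := IsGaloisGroup.isInvariant.isInvariant (G := V) (A := E₁)
        (algebraMap E L x) fun v => by
          obtain ⟨n, -, hn⟩ := (gen_bij hp hΓ hδ).surjOn (mem_coe.2 (mem_univ (kap v)))
          have h2 : ((Y : G) ^ n)⁻¹ * v ∈ U := QuotientGroup.eq.1 (congrArg Subtype.val hn)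
          have h3 : (((Y : G) ^ n)⁻¹ * v) • algebraMap E L x = _ := smul_algebraMap (⟨_, h2⟩ : U) x
          have h4 : (Y : G) ∈ MulAction.stabilizer G (algebraMap E L x) := by
            rw [MulAction.mem_stabilizer_iff, ← h1, e]
          rw [mul_smul, inv_smul_eq_iff] at h3
          exact h3.trans (pow_mem h4 n)
      exact ⟨y, inj (by rw [← hy, ← IsScalarTower.algebraMap_apply])⟩
    · rintro ⟨y, rfl⟩
      apply inj
      rw [h1, ← IsScalarTower.algebraMap_apply]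
      exact smul_algebraMap Y y
    · obtain ⟨W, rfl⟩ := under_surj (E' := L) w
      rw [LevbX.under_under] at hw ⊢
      exact (tow' E₁ E L V).2.1 W (hu₁ W hw) x
  obtain ⟨φE, hE⟩ := (fb E L U).2.2.2.1 (above E S)
  obtain ⟨φ₁, h₁⟩ := (fb E₁ L V).2.2.2.1 (above E₁ S)
  obtain ⟨l, hl, hl', -⟩ := (ntc K).2.2.2.2.2 v₀
  have hlp : l ≠ p := fun e => hpv (e ▸ hl')
  obtain ⟨N, N0, hN⟩ := ar' E L U ⟨j, hU⟩ (above E S) φE hj hu₂ hE
  obtain ⟨N₁, N1, hN₁⟩ := ar' E₁ L V ⟨j, h hU⟩ (above E₁ S) φ₁ hj hu₁ h₁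
  obtain ⟨a1, a2, a3⟩ := LevcX.abv E₁ hv hl'
  obtain ⟨b1, b2, b3⟩ := LevcX.abv E hv hl'
  obtain ⟨_, _, -, hf⟩ := sca' E l _ _ N hl N0 b1 b2 b3
  obtain ⟨k₁, Z₁, -, hf₁⟩ := sca' E₁ l _ _ N₁ hl N1 a1 a2 a3
  have e1 : above E (above E₁ S) = above E S := LevbX.above_above S
  have e2 : above E (above E₁ {v₀}) = above E {v₀} := LevbX.above_above _
  have dic := fun n : ℕ => (dict' K E L G U U.subtype S φE (fun _ _ => rfl) hu hE).1
    ((Y : G) ^ n) (γ ^ n) (hγ n)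
  obtain ⟨k, Z, hZ, hk⟩ := scb' E₁ E p 0 γ (above E₁ S) (above E₁ {v₀}) l N hrel hl hlp N0 a1 a2 a3
    (fun w => by rw [e1, mem_above, mem_above, ← pow_one γ, (dic 1).1])
    (fun w => by rw [e2, mem_above, mem_above, ← pow_one γ, (dic 1).1])
  rw [e1] at hZ
  rw [e1, e2, zero_add, pow_one] at hk
  have tr := fun w hw => tra (w := w) hp h hΓ hY hu₁ h₁ (e1 ▸ hE) hw
  choose g hg using LevcX.exists_g φE
  choose g₁ hg₁ using LevcX.exists_g φ₁
  refine ⟨l ^ k₁ * l ^ k * (-1) ^ #(above E {v₀}), l ^ k₁ * l ^ k * (-1) ^ #(above E₁ {v₀}), ?_, ?_,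
    ?_, ?_⟩
  · rw [← ZMod.intCast_zmod_eq_zero_iff_dvd, ← mul_sub,
      card_eq_sum_card_fiberwise (f := fun c : Pr E => c.under (𝓞 E₁)) (t := above E₁ {v₀})
        fun c hc => mem_coe.2 (mem_above.1 (e2 ▸ mem_coe.1 hc))]
    push_cast
    rw [← prod_pow_eq_pow_sum, prod_congr rfl fun w hw => ?_, prod_const, sub_self, mul_zero]
    refine Eq.trans (congrArg (fun X : Finset (Pr E) => (-1 : ZMod p) ^ #X) (Finset.ext fun c => ?_))
      (tr w (disjoint_right.1 a1 hw)).1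
    rw [mem_filter, mem_above (S := {w}), mem_singleton, ← e2, mem_above]
    exact and_iff_right_of_imp fun e => e ▸ hw
  · intro hd
    have h2 := (Nat.prime_iff_prime_int.1 hp).dvd_of_dvd_pow
      (pow_add (l : ℤ) k₁ k ▸ (isUnit_neg_one.pow _).dvd_mul_right.1 hd)
    exact hlp ((Nat.prime_dvd_prime_iff_eq hp hl).1 (Int.natCast_dvd_natCast.1 h2)).symm
  · convert (IntG V).mul_mem (natCast_mem _ (l ^ k)) ((IntG V).sum_mem
      fun D (_ : D ∈ Z₁.support) => (IntG V).mul_mem (intCast_mem _ (Z₁ D)) (ev_mem (g₁ D))) using 1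
    funext χ
    obtain ⟨f₁, c1, c2⟩ := hf₁ _ (hN₁ χ⁻¹)
    simp only [MonoidHom.inv_apply, hg₁, Finsupp.sum] at c1 c2
    simp only [Pi.mul_apply, Finset.sum_apply, Pi.intCast_apply, Pi.natCast_apply, ← c2,
      sm_val hu hφ h₁ hv χ c1]
    push_cast
    ring
  · refine ⟨_, (IntG U).mul_mem (natCast_mem _ (l ^ k₁)) ((IntG U).sum_mem
      fun D (_ : D ∈ Z.support) => (IntG U).mul_mem (intCast_mem _ (Z D)) (ev_mem (g D))),
      funext fun ψ => ?_⟩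
    obtain ⟨f, c1, -⟩ := hf _ (hN ψ⁻¹)
    obtain ⟨f₁, c2, -⟩ := hf₁ _ (hN₁ (ver V ψ)⁻¹)
    have c3 := hk _ (hN ψ⁻¹) f f₁ c1 (LevcX.sm_congr a1 (fun w hw => (tr w hw).2 ψ) c2)
    rw [sm_val hu hφ hE hv ψ c1, sm_val hu hφ h₁ hv _ c2] at c3
    have c4 : (Z.sum fun D z => (z : ℂ) * ∑ t ∈ range p,
        ((chv (fun w => ψ⁻¹ (φE (act (γ ^ t) w))) D : ℂˣ) : ℂ)) =
        ∑ D ∈ Z.support, (Z D : ℂ) * ∑ δ : Gm U V, (cj ψ (δ : G ⧸ U).out (g D) : ℂ) := by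
      refine sum_congr rfl fun D hD => congrArg _ (Eq.trans (sum_congr rfl fun t _ => ?_)
        (prod_gen hp hΓ hY (M := Multiplicative ℂ) (fun χ => (χ (g D) : ℂ)) ψ))
      refine congrArg _ (Eq.trans (LevcX.chv_congr (hZ D hD) fun w hw => ?_) (hg D _))
      obtain ⟨u, hu'⟩ := (dic t).2 w hw
      rw [MonoidHom.inv_apply]
      congr 1
      ext
      rw [conj_val ψ _ u _ _ hu', ← ext0_coe]
      rfl
    rw [c4] at c3
    change ∑ δ : Gm U V, _ = _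
    simp only [Pi.mul_apply, Finset.sum_apply, Pi.intCast_apply, Pi.natCast_apply, ← mul_sum]
    rw [sum_comm]
    simp only [← mul_sum, ← c3]
    push_cast
    ring

theorem amw (hp : p.Prime) (h : U ≤ V) (hΓ : Nat.card (Gm U V) = p) {j : G} (hj : IsCC L j)
    (hU : j ∈ U) (hu : Unr L G S) (hφ : IsFrob L S φ) {T : Finset (Pr K)} (hT : Disjoint S T)
    (hr : ∀ p : ℕ, p.Prime → (∀ v ∈ T, (p : 𝓞 K) ∈ v.asIdeal) → ∀ x : L, x ^ p = 1 → x = 1) :
    (fun ψ : U →* ℂˣ => sv S φ T (dt (Mat ψ)) - sv S φ T (dt (Mat (ver V ψ)))) ∈ TrI U V := by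
  classical
  have := Fact.mk hp
  suffices H : ∃ s t : ℤ, (p : ℤ) ∣ s - t ∧ ¬(p : ℤ) ∣ s ∧
      MM (fun ψ : U →* ℂˣ => s * sv S φ T (dt (Mat ψ)))
        fun χ : V →* ℂˣ => t * sv S φ T (dt (Mat χ)) by
    obtain ⟨s, t, h1, h2, h3⟩ := H
    exact mm_cancel (g := fun χ : V →* ℂˣ => sv S φ T (dt (Mat χ))) hp h hΓ h1 h2
      ((level hj hU hu hφ).2 T hT hr) (fun ψ y => by rw [dt_cj])
      ((level hj (h hU) hu hφ).2 T hT hr) h3
  by_cases hc : ∀ v ∈ T, (p : 𝓞 K) ∈ v.asIdeal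
  · obtain ⟨W, h1, h2, h3⟩ := prime_ex fb dens' L p (above L S) hp (hr p hp hc)
    rw [mem_above] at h1
    obtain ⟨-, f2, -, -, -, -, -, f8⟩ := fb K L G
    obtain ⟨w', hw, hw'⟩ := hφ _ h1
    obtain ⟨g, hg⟩ := f2 w' W hw
    have h4 := (f8 w' _ (hu w' (hw ▸ h1)) hw').2.2
    rw [hw, ← nrm_gact g w', hg] at h4
    have h5 : (p : 𝓞 K) ∉ (W.under (𝓞 K)).asIdeal := fun hm => h2 (by
      have : algebraMap (𝓞 K) (𝓞 L) p ∈ W.asIdeal := hm
      rwa [map_natCast] at this)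
    generalize W.under (𝓞 K) = v₀ at *
    obtain ⟨s, t, c1, c2, c3⟩ := mw_prime hp h hΓ hj hU hu hφ h1 h5
    obtain ⟨x, hx⟩ := geom_zc (φ v₀) (nrm v₀)
    rw [← Nat.cast_pow, ← h4] at hx
    refine ⟨s * (1 - nrm W) ^ Fintype.card (G ⧸ U), t * (1 - nrm W) ^ Fintype.card (G ⧸ V), ?_,
      fun hd => ?_, ?_⟩
    · rw [← ZMod.intCast_zmod_eq_zero_iff_dvd] at c1 ⊢
      rw [card_q h hΓ, pow_mul]
      push_cast at c1 ⊢
      rw [ZMod.pow_card, ← sub_mul, c1, zero_mul]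
    · have hq := Nat.prime_iff_prime_int.1 hp
      exact h3 (Nat.modEq_iff_dvd.2 (hq.dvd_of_dvd_pow ((hq.dvd_or_dvd hd).resolve_left c2)))
    · convert mm_del hp h hΓ φ T (mm_dt hp h hΓ x c3) using 2 with ψ ψ
      all_goals
        rw [Int.cast_mul, ← hx _ ψ, sv]
        ring
  · push Not at hc
    obtain ⟨v₀, hv, hpv⟩ := hc
    obtain ⟨s, t, c1, c2, c3⟩ := mw_prime hp h hΓ hj hU hu hφ (disjoint_right.1 hT hv) hpv
    refine ⟨s, t, c1, c2, ?_⟩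
    convert mm_del hp h hΓ φ (T.erase v₀) c3 using 2 with ψ ψ
    all_goals
      rw [sv, del, del, ← prod_erase_mul T _ hv]
      ring

end Pool.Agent.MP_f3cd89_nt.Tw
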