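import Mathlib

/-! An idempotent of rank one in all absolutely irreducible representations of a finite ring. -/

set_option autoImplicit false
set_option linter.unusedSectionVars false

open Finset Matrix Polynomial

namespace Pool.Agent.MP_f3cd89_nt.Tw

theorem semi_t (A : Type) [Ring A] [Finite A] [IsSemisimpleRing A] : ∃ t : A, t * t = t ∧
    (∀ a, ∃ z, (∀ b, z * b = b * z) ∧ t * a * t = z * t) ∧
    ∀ (M : Type) [Ring M] (f : A →+* M), f t = 0 → f 1 = 0 := by
  obtain ⟨n, D, d, _, hd, ⟨e⟩⟩ := IsSemisimpleRing.exists_ringEquiv_pi_matrix_divisionRing A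
  have hf : Finite (Π i, Matrix (Fin (d i)) (Fin (d i)) (D i)) := Finite.of_equiv A e.toEquiv
  have hD : ∀ i, Finite (D i) := fun i => Finite.of_surjective
    (fun x : Π i, Matrix (Fin (d i)) (Fin (d i)) (D i) => x i 0 0) fun a =>
      ⟨Pi.single i (of fun _ _ => a), by simp⟩
  have hc : ∀ i (a b : D i), a * b = b * a := fun i a b => (littleWedderburn (D i)).mul_comm a b
  let u : Π i, Matrix (Fin (d i)) (Fin (d i)) (D i) := fun i => single 0 0 1
  refine ⟨e.symm u, ?_, fun a => ⟨e.symm fun i => scalar _ (e a i 0 0), fun b => ?_, ?_⟩,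
    fun M _ f h => ?_⟩
  · rw [← map_mul]
    congr 1
    funext i
    simp [u]
  · apply e.injective
    funext i
    simp only [map_mul, RingEquiv.apply_symm_apply, Pi.mul_apply]
    exact (scalar_commute _ (fun b => hc i _ b) _).eq
  · apply e.injective
    funext i
    simp only [map_mul, RingEquiv.apply_symm_apply, Pi.mul_apply, u]
    ext a b
    simp [single_mul_mul_single, single_apply]
  · have h1 : (1 : Π i, Matrix (Fin (d i)) (Fin (d i)) (D i)) =
        ∑ i, ∑ k : Fin (d i), Pi.single i (single k 0 1) * u * Pi.single i (single 0 k 1) := by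
      funext i
      rw [Finset.sum_apply, sum_eq_single i (fun j _ hj => by simp [Finset.sum_apply, hj.symm])
        fun h => absurd (mem_univ _) h, Finset.sum_apply]
      simp [u, sum_single_one]
    rw [← map_one e.symm, h1]
    simp only [map_sum, map_mul, h, mul_zero, zero_mul, sum_const_zero]

section Rk

variable {k n : Type} [Field k] [Fintype n] [DecidableEq n]

theorem rk_det {E : Matrix n n k} (h1 : E * E = E) (h0 : E ≠ 0)
    (h : ∀ M : Matrix n n k, ∃ c : k, E * M * E = c • E) :
    (1 + (X - 1 : k[X]) • E.map C).det = X := by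
  obtain ⟨i, j, hij⟩ : ∃ i j, E i j ≠ 0 := by
    by_contra! e
    exact h0 (Matrix.ext e)
  obtain ⟨c, hc⟩ := h (single j i 1)
  have h2 : ∀ a b, E a j * E i b = c * E a b := fun a b => by
    have := congrFun (congrFun hc a) b
    simpa [Matrix.mul_apply, single, ite_and] using this
  have h3 : c = E i j := (mul_right_cancel₀ hij (h2 i j)).symm
  subst h3
  have h4 : ∑ a, E i a * E a j = E i j := congrFun (congrFun h1 i) j
  have h5 : (X - 1 : k[X]) • E.map C = replicateCol Unit (fun a => C (E a j)) *
      replicateRow Unit fun b => (X - 1) * C ((E i j)⁻¹ * E i b) := by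
    ext1 a b
    have : E a b = E a j * ((E i j)⁻¹ * E i b) := by
      rw [mul_left_comm, h2, inv_mul_cancel_left₀ hij]
    simp only [Matrix.smul_apply, map_apply, Matrix.mul_apply, univ_unique, sum_singleton,
      replicateCol_apply, replicateRow_apply, smul_eq_mul]
    rw [this, C_mul]
    ring
  rw [h5, det_one_add_replicateCol_mul_replicateRow, dotProduct]
  simp only [mul_assoc, ← C_mul, ← mul_sum, ← map_sum, h4, inv_mul_cancel₀ hij, map_one]
  ring

theorem exists_t {Λ A : Type} [Ring Λ] [Ring A] [Finite A] (π : Λ →+* A)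
    (hπ : Function.Surjective π) : ∃ t : Λ, π (t * t - t) = 0 ∧
      ∀ (k n : Type) [Field k] [Fintype n] [DecidableEq n] [Nonempty n] (F : Λ →+* Matrix n n k),
        (∀ x, π x = 0 → F x = 0) → Submodule.span k (Set.range F) = ⊤ →
        (1 + (X - 1 : k[X]) • (F t).map C).det = X := by
  have : IsArtinianRing A := isArtinian_of_finite
  have : Finite (A ⧸ Ring.jacobson A) := Finite.of_surjective _ Ideal.Quotient.mk_surjective
  obtain ⟨u, u1, u2, u3⟩ := semi_t (A ⧸ Ring.jacobson A)
  have nil : ∀ x ∈ Ring.jacobson A, IsNilpotent x := fun x hx => by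
    obtain ⟨N, hN⟩ := IsSemiprimaryRing.isNilpotent (R := A)
    exact ⟨N, by simpa [hN] using Ideal.pow_mem_pow hx N⟩
  obtain ⟨e, e1, e2⟩ := exists_isIdempotentElem_eq_of_ker_isNilpotent
    (Ideal.Quotient.mk (Ring.jacobson A)) (fun x hx => nil x (Ideal.Quotient.eq_zero_iff_mem.1 hx)) u
    (Ideal.Quotient.mk_surjective u) u1
  obtain ⟨t, rfl⟩ := hπ e
  refine ⟨t, by rw [map_sub, map_mul, e1.eq, sub_self], fun k n _ _ _ _ F hF hs => ?_⟩
  let f : A →+* Matrix n n k := π.liftOfSurjective hπ ⟨F, hF⟩
  have hf : ∀ x, f (π x) = F x := fun x => RingHom.liftOfRightInverse_comp_apply _ _ _ _ x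
  have ind : ∀ {p : Matrix n n k → Prop}, (∀ a, p (f a)) → p 0 → (∀ x y, p x → p y → p (x + y)) →
      (∀ (c : k) x, p x → p (c • x)) → ∀ M, p M := fun {p} h1 h2 h3 h4 M => by
    have hM : M ∈ Submodule.span k (Set.range F) := hs ▸ Submodule.mem_top
    induction hM using Submodule.span_induction with
    | mem _ hx => obtain ⟨x, rfl⟩ := hx; exact hf x ▸ h1 _
    | zero => exact h2
    | add _ _ _ _ h h' => exact h3 _ _ h h'
    | smul c _ _ h => exact h4 c _ h
  have hJ : ∀ x ∈ Ring.jacobson A, f x = 0 := fun x hx => by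
    have h1 : ∀ M, (M * f x).trace = 0 := ind (fun a => by
      rw [← map_mul]
      exact (isNilpotent_trace_of_isNilpotent ((nil _ (Ideal.mul_mem_left _ a hx)).map f)).eq_zero)
      (by simp) (fun x y h h' => by rw [add_mul, trace_add, h, h', add_zero])
      fun c x h => by rw [Matrix.smul_mul, trace_smul, h, smul_zero]
    ext i j
    simpa [trace_single_mul] using h1 (single j i 1)
  let g : A ⧸ Ring.jacobson A →+* Matrix n n k := Ideal.Quotient.lift _ f hJ
  have hg : ∀ a, g (Ideal.Quotient.mk _ a) = f a := fun a => rfl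
  have ht : F t = g u := by rw [← e2, hg, hf]
  refine rk_det (by rw [ht, ← map_mul, u1]) (fun h => one_ne_zero ((map_one g).symm.trans
    (u3 _ g (ht ▸ h)))) (ind (fun a => ?_) ⟨0, by simp⟩ ?_ ?_)
  · obtain ⟨z, z1, z2⟩ := u2 (Ideal.Quotient.mk _ a)
    have h2 : ∀ M, Commute M (g z) := ind (fun b => by
      rw [← hg, Commute, SemiconjBy, ← map_mul, ← map_mul, z1]) (Commute.zero_left _)
      (fun _ _ => Commute.add_left) fun c _ h => h.smul_left c
    obtain ⟨c, hc⟩ := mem_range_scalar_iff_commute_single'.2 fun i j => h2 (single i j 1)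
    exact ⟨c, by rw [ht, ← hg, ← map_mul, ← map_mul, z2, map_mul, ← hc, scalar_apply,
      ← smul_eq_diagonal_mul]⟩
  · rintro x y ⟨c, hc⟩ ⟨d, hd⟩
    exact ⟨c + d, by rw [mul_add, add_mul, hc, hd, add_smul]⟩
  · rintro c x ⟨d, hd⟩
    exact ⟨c * d, by rw [Matrix.mul_smul, Matrix.smul_mul, hd, smul_smul]⟩

end Rk

theorem det_idem {R n : Type} [CommRing R] [Fintype n] [DecidableEq n] {E : Matrix n n R}
    (h1 : E * E = E) (h : ∀ (k : Type) [Field k] (τ : R →+* k),
      (1 + (X - 1 : k[X]) • (E.map τ).map C).det = X) (Y : R) : (1 + (Y - 1) • E).det = Y := by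
  have ev : ∀ {S : Type} [CommRing S] (φ : R[X] →+* S), φ (1 + (X - 1 : R[X]) • E.map C).det =
      (1 + (φ X - 1) • E.map (φ.comp C)).det := fun φ => by
    rw [RingHom.map_det]
    congr 1
    ext a b
    simp [one_apply, apply_ite φ]
  generalize hf : (1 + (X - 1 : R[X]) • E.map C).det = f at ev
  have mul : (f.map C).comp (C X * X) = C f * f.map (C : R →+* R[X]) := by
    have h2 := ev ((compRingHom (C X * X)).comp (mapRingHom (C : R →+* R[X])))
    have h3 := ev (C : R[X] →+* R[X][X])
    have h4 := ev (mapRingHom (C : R →+* R[X]))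
    have e2 : ((compRingHom (C X * X)).comp (mapRingHom (C : R →+* R[X]))).comp C =
        (C : R[X] →+* R[X][X]).comp C := by ext1 a; simp
    have e4 : (mapRingHom (C : R →+* R[X])).comp C = (C : R[X] →+* R[X][X]).comp C := by
      ext1 a; simp
    rw [e2] at h2
    rw [e4] at h4
    have h5 : E.map ((C : R[X] →+* R[X][X]).comp C) * E.map ((C : R[X] →+* R[X][X]).comp C) =
        E.map ((C : R[X] →+* R[X][X]).comp C) := by rw [← Matrix.map_mul, h1]
    simp only [RingHom.comp_apply, coe_mapRingHom, coe_compRingHom_apply, Polynomial.map_X,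
      X_comp] at h2 h4
    rw [h2, h3, h4, ← det_mul]
    congr 1
    simp only [add_mul, mul_add, one_mul, mul_one, Matrix.smul_mul, Matrix.mul_smul, h5, smul_smul,
      add_assoc, ← add_smul]
    congr 2
    ring
  have idem : ∀ i, IsIdempotentElem (f.coeff i) := fun i => by
    have h6 := congrArg (fun q => (q.coeff i).coeff i) mul
    simpa [mul_comm f, IsIdempotentElem] using h6.symm
  have nil : ∀ i, IsNilpotent ((f - X).coeff i) := fun i => by
    refine nilpotent_iff_mem_prime.2 fun q hq => ?_
    have h7 := ev (mapRingHom (algebraMap R q.ResidueField))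
    have e7 : (mapRingHom (algebraMap R q.ResidueField)).comp C =
        C.comp (algebraMap R q.ResidueField) := by ext1 a; simp
    rw [e7, coe_mapRingHom, Polynomial.map_X] at h7
    have h8 := h7.trans (h _ (algebraMap R q.ResidueField))
    rw [← Ideal.algebraMap_residueField_eq_zero, ← coeff_map, Polynomial.map_sub, h8,
      Polynomial.map_X, sub_self, coeff_zero]
  have hX : f = X := by
    ext i
    refine eq_of_isNilpotent_sub_of_isIdempotentElem (idem i) ?_ (by simpa using nil i)
    rw [coeff_X]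
    split_ifs
    · exact IsIdempotentElem.one
    · exact IsIdempotentElem.zero
  have h9 := ev (evalRingHom Y)
  have e9 : (evalRingHom Y).comp C = RingHom.id R := by ext1 a; simp
  rw [e9, hX] at h9
  simpa using h9.symm

end Pool.Agent.MP_f3cd89_nt.Tw
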