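import Pool.Agent.MP_f3cd89_nt.Tw.Main
import Pool.Agent.MP_f3cd89_nt.Tw.Idem

/-! Monomial representations that stay irreducible modulo `p`. -/

set_option autoImplicit false
set_option linter.unusedSectionVars false

open Finset Matrix

namespace Pool.Agent.MP_f3cd89_nt.Tw

theorem sum_quot {H M : Type} [Group H] [Fintype H] [AddCommMonoid M] (Q : Subgroup H) (f : H → M)
    (hf : ∀ h, ∀ π ∈ Q, f (h * π) = f h) : ∑ h, f h = Nat.card Q • ∑ q : H ⧸ Q, f q.out := by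
  classical
  have hb : Function.Bijective fun p : (H ⧸ Q) × Q => p.1.out * (p.2 : H) := by
    refine ⟨fun p q h => ?_, fun x => ⟨⟨x, ⟨(x : H ⧸ Q).out⁻¹ * x, ?_⟩⟩, by simp⟩⟩
    · have h1 : p.1 = q.1 := by
        have := congrArg (fun x : H => (x : H ⧸ Q)) h
        simpa using this
      exact Prod.ext h1 (Subtype.ext (mul_left_cancel (a := q.1.out) (by simpa [h1] using h)))
    · rw [← QuotientGroup.eq, QuotientGroup.out_eq']
  rw [← hb.sum_comp, Fintype.sum_prod_type, smul_sum]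
  refine sum_congr rfl fun a _ => ?_
  rw [sum_congr rfl fun (u : Q) _ => hf a.out u u.2, sum_const, card_univ, Nat.card_eq_fintype_card]

variable {G : Type} [Group G] [Fintype G]

theorem mk_irr {m : Type} [Fintype m] [DecidableEq m] [Nonempty m] (R : G →* Matrix m m ℂ)
    (h : ∀ W : Submodule ℂ (m → ℂ), (∀ g, ∀ v ∈ W, R g *ᵥ v ∈ W) → W = ⊥ ∨ W = ⊤) :
    ∃ r : Irr G, ∀ g, (R g).trace = chr r g := by
  let e := Fintype.equivFin m
  let l := LinearEquiv.funCongrLeft ℂ ℂ e.symm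
  refine ⟨⟨Fintype.card m, (reindexAlgEquiv ℂ ℂ e).toAlgHom.toMonoidHom.comp R, Fintype.card_pos,
    fun W hW => ?_⟩, fun g => ?_⟩
  · have := h (W.comap l.toLinearMap) fun g v hv => by
      have h1 := hW g _ hv
      change l (R g *ᵥ v) ∈ W
      convert h1 using 1
      change _ = (R g).submatrix e.symm e.symm *ᵥ (v ∘ e.symm)
      rw [submatrix_mulVec_equiv]
      ext i
      simp [l, Function.comp_def]
    refine this.imp (fun h => ?_) fun h => ?_
    · rw [← Submodule.map_comap_eq_of_surjective l.surjective W, h, Submodule.map_bot]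
    · rw [← Submodule.map_comap_eq_of_surjective l.surjective W, h, Submodule.map_top,
        LinearEquiv.range]
  · exact (Equiv.sum_comp e.symm fun i => R g i i).symm

theorem exists_e {p : ℕ} (hp : p.Prime) : ∃ b m t : ℕ, Nat.card G = p ^ b * m ∧ ¬p ∣ m ∧
    p ^ b ∣ m * t + 1 := by
  obtain ⟨b, m, hm, hb⟩ := Nat.exists_eq_pow_mul_and_not_dvd (Nat.card_pos (α := G)).ne' p
    hp.ne_one
  have m0 : 0 < m := Nat.pos_of_ne_zero fun e => hm (e ▸ dvd_zero p)
  have h1 : (p ^ b) ^ m.totient ≡ 1 [MOD m] :=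
    Nat.ModEq.pow_totient (Nat.Coprime.pow_left b (hp.coprime_iff_not_dvd.2 hm))
  obtain ⟨t, ht⟩ := (Nat.modEq_iff_dvd' (Nat.one_le_pow _ _ (pow_pos hp.pos b))).1 h1.symm
  refine ⟨b, m, t, hb, hm, ?_⟩
  rw [← ht, Nat.sub_add_cancel (Nat.one_le_pow _ _ (pow_pos hp.pos b))]
  exact dvd_pow_self _ (Nat.totient_pos.2 m0).ne'

theorem pow_em {p b m t : ℕ} (hb : Nat.card G = p ^ b * m) (ht : p ^ b ∣ m * t + 1) (g : G) :
    (g ^ (m * t + 1)) ^ m = 1 := by
  obtain ⟨s, hs⟩ := ht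
  rw [← pow_mul, hs, mul_right_comm, ← hb, pow_mul, pow_card_eq_one', one_pow]

theorem ppart' {p b m t : ℕ} (hp : p.Prime) (hb : Nat.card G = p ^ b * m) (ht : p ^ b ∣ m * t + 1)
    {U : Subgroup G} (ψ : U →* ℂˣ) :
    ∃ ψ' : U →* ℂˣ, (∀ u, (ψ u : ℂ) - ψ' u ∈ Jp p) ∧ ∀ u, ψ' u ^ m = 1 := by
  refine ⟨ψ ^ (m * t + 1), fun u => ?_, fun u => ?_⟩
  · have h7 : ((ψ u : ℂ) ^ (m * t)) ^ p ^ b = 1 := by
      have h8 : u ^ Nat.card G = 1 := Subtype.ext pow_card_eq_one'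
      rw [← pow_mul, show m * t * p ^ b = Nat.card G * t by rw [hb]; ring, pow_mul,
        ← Units.val_pow_eq_pow_val, ← map_pow, h8, map_one, Units.val_one, one_pow]
    convert neg_mem ((idl_Jp p).2 _ (root_mem hp h7) _ (val_int ψ u)) using 1
    rw [MonoidHom.pow_apply, Units.val_pow_eq_pow_val]
    ring
  · rw [MonoidHom.pow_apply, ← map_pow, ← map_pow,
      show (u ^ (m * t + 1)) ^ m = 1 from Subtype.ext (pow_em hb ht (u : G)), map_one]

variable {U : Subgroup G} {ψ : U →* ℂˣ}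

theorem o_mem : ((1 : G) : G ⧸ U).out ∈ U := by
  have := (mem_iff (U := U) (1 : G) ((1 : G) : G ⧸ U) ((1 : G) : G ⧸ U)).2 (one_smul _ _).symm
  simpa using QuotientGroup.eq.1 (QuotientGroup.out_eq' ((1 : G) : G ⧸ U)).symm

theorem mat_oo (g : G) : Mat ψ g ((1 : G) : G ⧸ U) ((1 : G) : G ⧸ U) = ext0 ψ g :=
  ext0_conj ψ ⟨_, o_mem⟩ g

theorem mat_zero {g : G} {a b : G ⧸ U} (h : a ≠ g • b) : Mat ψ g a b = 0 :=
  ext0_not ψ fun e => h ((mem_iff g a b).1 e)

theorem fix_triv {p m : ℕ} (hp : p.Prime) (hm : ¬p ∣ m) (hψ : ∀ u, ψ u ^ m = 1) {P : Subgroup G}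
    [P.Normal] (hP : IsPGroup p P)
    (h : ∀ W : Submodule ℂ (G ⧸ U → ℂ), (∀ g, ∀ v ∈ W, Mat ψ g *ᵥ v ∈ W) → W = ⊥ ∨ W = ⊤) :
    ∀ π ∈ P, Mat ψ π = 1 := by
  classical
  let W : Submodule ℂ (G ⧸ U → ℂ) :=
    { carrier := {v | ∀ π ∈ P, Mat ψ π *ᵥ v = v}
      add_mem' := fun {v w} hv hw π hπ => by rw [mulVec_add, hv π hπ, hw π hπ]
      zero_mem' := fun π _ => mulVec_zero _
      smul_mem' := fun c v hv π hπ => by rw [mulVec_smul, hv π hπ] }
  rcases h W (fun g v hv π hπ => by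
    have h1 := hv (g⁻¹ * π * g) (by simpa using ‹P.Normal›.conj_mem π hπ g⁻¹)
    rw [mulVec_mulVec, ← map_mul, show π * g = g * (g⁻¹ * π * g) by group, map_mul,
      ← mulVec_mulVec, h1]) with h1 | h1
  · exfalso
    have h2 : ∑ π : P, Mat ψ π *ᵥ Pi.single ((1 : G) : G ⧸ U) 1 ∈ W := fun σ hσ => by
      rw [mulVec_sum, ← Equiv.sum_comp (Equiv.mulLeft (⟨σ, hσ⟩ : P))
        (fun π : P => Mat ψ π *ᵥ Pi.single ((1 : G) : G ⧸ U) 1)]
      refine sum_congr rfl fun π _ => ?_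
      rw [mulVec_mulVec, ← map_mul]
      rfl
    rw [h1, Submodule.mem_bot] at h2
    have h3 := congrFun h2 ((1 : G) : G ⧸ U)
    have h4 : ∀ π : P, ext0 ψ π = if (π : G) ∈ U then 1 else 0 := fun π => by
      split_ifs with hπ
      · obtain ⟨k, hk⟩ := hP π
        have h5 : ψ ⟨π, hπ⟩ ^ p ^ k = 1 := by
          rw [← map_pow, show (⟨π, hπ⟩ : U) ^ p ^ k = 1 from Subtype.ext (congrArg P.subtype hk),
            map_one]
        rw [ext0_mem ψ hπ, (pow_eq_one_iff_of_coprime (Nat.Coprime.pow_left k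
          (hp.coprime_iff_not_dvd.2 hm))).1 ⟨h5, hψ _⟩, Units.val_one]
      · exact ext0_not ψ hπ
    simp only [Finset.sum_apply, mulVec_single_one, col_apply, mat_oo, h4, sum_boole,
      Pi.zero_apply, Nat.cast_eq_zero, card_eq_zero] at h3
    exact filter_eq_empty_iff.1 h3 (mem_univ 1) U.one_mem
  · intro π hπ
    refine ext_iff_mulVec.2 fun v => ?_
    rw [one_mulVec]
    exact (h1 ▸ Submodule.mem_top : v ∈ W) π hπ

theorem mackey (r : Irr G) (h : ∀ g, (Mat ψ g).trace = chr r g) {b : G ⧸ U}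
    (hb : b ≠ ((1 : G) : G ⧸ U)) :
    ∃ u ∈ U, b.out⁻¹ * u * b.out ∈ U ∧ ext0 ψ u ≠ ext0 ψ (b.out⁻¹ * u * b.out) := by
  classical
  obtain ⟨A, B, h1, h2, h3⟩ := iso r _ h
  set Y := ∑ g, Mat ψ g * single ((1 : G) : G ⧸ U) b (1 : ℂ) * Mat ψ g⁻¹ with hY
  have h4 : ∀ g, Mat ψ g * Y = Y * Mat ψ g := avg_int _ _ _
  obtain ⟨c, hc⟩ := scalar r (A := A * Y * B) fun g => by
    rw [h3]
    calc A * Mat ψ g * B * (A * Y * B) = A * (Mat ψ g * (B * A) * Y) * B := by
          simp only [Matrix.mul_assoc]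
      _ = A * (Y * (B * A) * Mat ψ g) * B := by rw [h2, Matrix.mul_one, Matrix.mul_one, h4]
      _ = _ := by simp only [Matrix.mul_assoc]
  have h5 : Y = c • 1 := by
    calc Y = (B * A) * Y * (B * A) := by rw [h2, Matrix.one_mul, Matrix.mul_one]
      _ = B * (A * Y * B) * A := by simp only [Matrix.mul_assoc]
      _ = _ := by rw [hc, Matrix.mul_smul, Matrix.smul_mul, Matrix.mul_one, h2]
  have h6 := congrFun (congrFun h5 ((1 : G) : G ⧸ U)) b
  rw [Matrix.smul_apply, one_apply_ne hb.symm, smul_zero, hY, Matrix.sum_apply] at h6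
  by_contra! H
  have h7 : ∀ g, (Mat ψ g * single ((1 : G) : G ⧸ U) b (1 : ℂ) * Mat ψ g⁻¹ : Matrix _ _ ℂ)
      ((1 : G) : G ⧸ U) b = if g ∈ U ∧ b.out⁻¹ * g⁻¹ * b.out ∈ U then 1 else 0 := fun g => by
    have : (Mat ψ g * single ((1 : G) : G ⧸ U) b (1 : ℂ) * Mat ψ g⁻¹ : Matrix _ _ ℂ)
        ((1 : G) : G ⧸ U) b = Mat ψ g ((1 : G) : G ⧸ U) ((1 : G) : G ⧸ U) * Mat ψ g⁻¹ b b := by
      simp [Matrix.mul_apply, single, ite_and]
    rw [this, mat_oo, mat_apply]
    split_ifs with e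
    · rw [← H _ (inv_mem e.1) e.2, ← ext0_mul ψ e.1, mul_inv_cancel, ext0_one]
    · rcases not_and_or.1 e with e | e
      · rw [ext0_not ψ e, zero_mul]
      · rw [ext0_not ψ e, mul_zero]
  simp only [h7, sum_boole, Nat.cast_eq_zero, card_eq_zero] at h6
  exact filter_eq_empty_iff.1 h6 (mem_univ 1) ⟨U.one_mem, by simp⟩

theorem ext0_pow {g : G} (hg : g ∈ U) (k : ℕ) : ext0 ψ (g ^ k) = ext0 ψ g ^ k := by
  induction k with
  | zero => rw [pow_zero, pow_zero, ext0_one]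
  | succ k ih => rw [pow_succ, pow_succ, ext0_mul' ψ _ hg, ih]

theorem proj {p b m t : ℕ} (hp : p.Prime) (hb : Nat.card G = p ^ b * m) (hm : ¬p ∣ m)
    (ht : p ^ b ∣ m * t + 1) (hψ : ∀ u, ψ u ^ m = 1) {P : Subgroup G} [P.Normal]
    (hPG : P ≤ commutator G) (hi : ¬p ∣ P.relIndex (commutator G)) (r : Irr G)
    (h : ∀ g, (Mat ψ g).trace = chr r g) (hP : ∀ π ∈ P, Mat ψ π = 1) :
    ∃ (ι : Type) (_ : Fintype ι) (v : ι → G), ¬p ∣ Fintype.card ι ∧
      ∑ i, ext0 ψ (v i)⁻¹ • Mat ψ (v i) =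
        (Fintype.card ι : ℂ) • single ((1 : G) : G ⧸ U) ((1 : G) : G ⧸ U) 1 := by
  classical
  have := Fact.mk hp
  let N : Subgroup G := ((powMonoidHom m).comp (Abelianization.of (G := G))).ker
  have hN : ∀ g, g ∈ N ↔ g ^ m ∈ commutator G := fun g => by
    rw [← Abelianization.ker_of, MonoidHom.mem_ker, MonoidHom.mem_ker, map_pow]
    rfl
  let V : Subgroup G := U ⊓ N
  have hP1 : ∀ π ∈ P, ext0 ψ π = 1 := fun π hπ => by rw [← mat_oo, hP π hπ, one_apply_eq]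
  have hPU : P ≤ U := fun π hπ => by
    by_contra e
    exact zero_ne_one ((ext0_not ψ e).symm.trans (hP1 π hπ))
  have hPV : P ≤ V := fun π hπ => ⟨hPU hπ, (hN π).2 (pow_mem (hPG hπ) m)⟩
  have h1 : ∑ v : V, ext0 ψ (v : G)⁻¹ • Mat ψ v =
      (Nat.card V : ℂ) • single ((1 : G) : G ⧸ U) ((1 : G) : G ⧸ U) 1 := by
    ext a c
    simp only [Matrix.sum_apply, Matrix.smul_apply, smul_eq_mul]
    by_cases hc : c = ((1 : G) : G ⧸ U)
    · subst hc
      by_cases ha : a = ((1 : G) : G ⧸ U)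
      · subst ha
        have : ∀ v : V, ext0 ψ (v : G)⁻¹ * ext0 ψ v = 1 := fun v => by
          rw [← ext0_mul ψ (inv_mem v.2.1), inv_mul_cancel, ext0_one]
        simp [mat_oo, this]
      · rw [single_apply_of_row_ne (Ne.symm ha), mul_zero]
        refine sum_eq_zero fun v _ => ?_
        rw [mat_zero fun e => ha (e.trans ?_), mul_zero]
        exact QuotientGroup.eq.2 (by simpa using v.2.1)
    · rw [single_apply_of_col_ne _ _ (Ne.symm hc), mul_zero]
      obtain ⟨u, hu, hu', hne⟩ := mackey r h hc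
      have e1 : ∀ g ∈ U, ext0 ψ (g ^ (m * t + 1)) = ext0 ψ g := fun g hg => by
        rw [ext0_pow hg, ext0_mem ψ hg, ← Units.val_pow_eq_pow_val, pow_succ, pow_mul, hψ, one_pow,
          one_mul]
      have e2 : c.out⁻¹ * u ^ (m * t + 1) * c.out = (c.out⁻¹ * u * c.out) ^ (m * t + 1) := by
        simpa using (conj_pow (a := c.out⁻¹) (b := u) (i := m * t + 1)).symm
      let w : V := ⟨u ^ (m * t + 1), pow_mem hu _, (hN _).2 (by
        rw [pow_em hb ht]; exact one_mem _)⟩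
      have h2 := Equiv.sum_comp (Equiv.mulRight w) fun v : V => ext0 ψ (v : G)⁻¹ * Mat ψ v a c
      have h3 : ∀ v : V, ext0 ψ ((v * w : V) : G)⁻¹ * Mat ψ (v * w : V) a c =
          (ext0 ψ (w : G)⁻¹ * ext0 ψ (c.out⁻¹ * u * c.out)) * (ext0 ψ (v : G)⁻¹ * Mat ψ v a c) :=
        fun v => by
          rw [Subgroup.coe_mul, _root_.mul_inv_rev, ext0_mul ψ (inv_mem w.2.1), mat_apply,
            mat_apply, ← e1 _ hu', ← e2, show a.out⁻¹ * (v * w) * c.out =
              a.out⁻¹ * v * c.out * (c.out⁻¹ * u ^ (m * t + 1) * c.out) by simp [w, mul_assoc],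
            ext0_mul' ψ _ (e2 ▸ pow_mem hu' _)]
          ring
      simp only [Equiv.coe_mulRight, h3, ← mul_sum] at h2
      by_contra e
      apply hne
      have h4 := mul_right_cancel₀ e (h2.trans (one_mul _).symm)
      have h5 : ext0 ψ u * ext0 ψ (w : G)⁻¹ = 1 := by
        rw [← e1 u hu, ← ext0_mul ψ w.2.1, mul_inv_cancel, ext0_one]
      linear_combination (-ext0 ψ u) * h4 + ext0 ψ (c.out⁻¹ * u * c.out) * h5
  have : Fintype V := Fintype.ofFinite _
  have h6 := sum_quot (P.subgroupOf V) (fun v : V => ext0 ψ (v : G)⁻¹ • Mat ψ v) fun v π hπ => by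
    have hπ' : (π : G) ∈ P := hπ
    simp only [Subgroup.coe_mul, _root_.mul_inv_rev, map_mul, hP _ hπ', mul_one,
      ext0_mul ψ (inv_mem π.2.1), hP1 _ (inv_mem hπ'), one_mul]
  refine ⟨V ⧸ P.subgroupOf V, inferInstance, fun q => (q.out : V), fun hd => ?_, ?_⟩
  · obtain ⟨x, hx⟩ := exists_prime_orderOf_dvd_card p hd
    obtain ⟨v, rfl⟩ := QuotientGroup.mk_surjective x
    have e1 : (v : V ⧸ P.subgroupOf V) ^ p = 1 := hx ▸ pow_orderOf_eq_one _
    have e2 : (v : V ⧸ P.subgroupOf V) ^ (m * P.relIndex (commutator G)) = 1 := by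
      rw [← QuotientGroup.mk_pow, QuotientGroup.eq_one_iff, pow_mul]
      exact P.pow_relIndex_mem ((hN _).1 v.2.2)
    have e3 := (pow_eq_one_iff_of_coprime (hp.coprime_iff_not_dvd.2
      (hp.prime.not_dvd_mul hm hi))).1 ⟨e1, e2⟩
    rw [e3, orderOf_one] at hx
    exact hp.one_lt.ne hx
  · have h7 : (Nat.card (P.subgroupOf V) : ℂ) ≠ 0 := Nat.cast_ne_zero.2 Nat.card_pos.ne'
    refine smul_right_injective _ h7 ?_
    beta_reduce
    rw [Nat.cast_smul_eq_nsmul, ← h6, smul_smul, ← Nat.card_eq_fintype_card, ← Nat.cast_mul,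
      mul_comm, ← Subgroup.card_eq_card_quotient_mul_card_subgroup, ← h1]
    exact Finset.sum_congr (Finset.ext fun x => by simp only [Finset.mem_univ]) fun _ _ => rfl

theorem span_top {k : Type} [Field k] (s : G →* Matrix (G ⧸ U) (G ⧸ U) k)
    (hs : ∀ g a b, a ≠ g • b → s g a b = 0)
    (h : single ((1 : G) : G ⧸ U) ((1 : G) : G ⧸ U) (1 : k) ∈ Submodule.span k (Set.range s)) :
    Submodule.span k (Set.range s) = ⊤ := by
  have mul : ∀ g g', ∀ M ∈ Submodule.span k (Set.range s),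
      s g * M * s g' ∈ Submodule.span k (Set.range s) := fun g g' M hM => by
    induction hM using Submodule.span_induction with
    | mem _ hx =>
      obtain ⟨x, rfl⟩ := hx
      exact Submodule.subset_span ⟨g * x * g', by simp⟩
    | zero => simp
    | add _ _ _ _ h h' => rw [mul_add, add_mul]; exact add_mem h h'
    | smul c _ _ h => rw [Matrix.mul_smul, Matrix.smul_mul]; exact Submodule.smul_mem _ c h
  have ne : ∀ g b, s g (g • b) b ≠ 0 := fun g b e => by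
    have h1 : (s g⁻¹ * s g) b b = 1 := by rw [← map_mul, inv_mul_cancel, map_one, one_apply_eq]
    rw [Matrix.mul_apply, sum_eq_zero fun i _ => ?_] at h1
    · exact zero_ne_one h1
    · by_cases hi : i = g • b
      · rw [hi, e, mul_zero]
      · rw [hs g i b hi, mul_zero]
  have ho : ∀ a : G ⧸ U, a.out • ((1 : G) : G ⧸ U) = a := fun a => by simp
  refine Submodule.eq_top_iff'.2 fun M => ?_
  rw [matrix_eq_sum_single M]
  refine Submodule.sum_mem _ fun a _ => Submodule.sum_mem _ fun b _ => ?_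
  have h2 : s a.out * single ((1 : G) : G ⧸ U) ((1 : G) : G ⧸ U) (1 : k) * s b.out⁻¹ =
      single a b (s a.out a ((1 : G) : G ⧸ U) * s b.out⁻¹ ((1 : G) : G ⧸ U) b) := by
    ext i j
    have : (s a.out * single ((1 : G) : G ⧸ U) ((1 : G) : G ⧸ U) (1 : k) * s b.out⁻¹ :
        Matrix _ _ k) i j = s a.out i ((1 : G) : G ⧸ U) * s b.out⁻¹ ((1 : G) : G ⧸ U) j := by
      simp [Matrix.mul_apply, single, ite_and]
    rw [this]
    by_cases hi : a = i
    · by_cases hj : b = j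
      · rw [← hi, ← hj, single_apply_same]
      · rw [single_apply_of_col_ne _ _ hj, hs _ _ j fun e => hj (by
          rw [eq_inv_smul_iff, ho] at e; exact e), mul_zero]
    · rw [single_apply_of_row_ne hi, hs _ i _ fun e => hi (by rw [e, ho]), zero_mul]
  have h3 : s a.out a ((1 : G) : G ⧸ U) * s b.out⁻¹ ((1 : G) : G ⧸ U) b ≠ 0 := by
    refine mul_ne_zero (by simpa only [ho] using ne a.out ((1 : G) : G ⧸ U)) ?_
    have := ne b.out⁻¹ b
    rwa [inv_smul_eq_iff.2 (ho b).symm] at this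
  have h4 := Submodule.smul_mem _ (M a b / (s a.out a ((1 : G) : G ⧸ U) *
    s b.out⁻¹ ((1 : G) : G ⧸ U) b)) (mul a.out b.out⁻¹ _ h)
  rwa [h2, smul_single, smul_eq_mul, div_mul_cancel₀ _ h3] at h4

end Pool.Agent.MP_f3cd89_nt.Tw
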