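import Pool.Agent.MP_f3cd89_nt.Tw.Mon

/-! L-values of induced representations and the abelian integrality theorem. -/

set_option autoImplicit false
set_option linter.unusedSectionVars false

open Finset Matrix NumberField IsDedekindDomain Filter Topology

namespace Pool.Agent.MP_f3cd89_nt.Tw

section LV

variable {K G : Type} [Field K] [NumberField K] [Group G] [Fintype G]

/-- `c` is the value at zero of the Euler product attached to the determinant function `D` -/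
def LV (S : Finset (Pr K)) (φ : Pr K → G) (D : (G → ℂ) → ℂ) (c : ℂ) : Prop :=
  ∃ f : ℂ → ℂ, MeromorphicOn f Set.univ ∧ AnalyticAt ℂ f 0 ∧ f 0 = c ∧ ∀ s : ℂ, 1 < s.re →
    HasProd (fun v : {v : Pr K // v ∉ S} => (D (eul (φ v)⁻¹ ((nrm v.1 : ℂ) ^ (-s))))⁻¹) (f s)

variable {S : Finset (Pr K)} {φ : Pr K → G} {D D' : (G → ℂ) → ℂ} {c c' : ℂ}

theorem lv_iff {m : Type} [Fintype m] [DecidableEq m] (R : G →* Matrix m m ℂ) :
    IsLValue S φ R c ↔ LV S φ (dt R) c := by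
  simp only [IsLValue, LV, dt_eul, FinalX.det_tr]

theorem LV.unique (h : LV S φ D c) (h' : LV S φ D c') : c = c' := by
  obtain ⟨f, m, a, rfl, h⟩ := h
  obtain ⟨f', m', a', rfl, h'⟩ := h'
  have h2 : meromorphicOrderAt (f - f') 2 = ⊤ :=
    meromorphicOrderAt_eq_top_iff.2 (eventually_nhdsWithin_of_eventually_nhds
      (mem_of_superset LevaX.half fun s hs => sub_eq_zero.2 ((h s hs).unique (h' s hs))))
  have h0 : meromorphicOrderAt (f - f') 0 = ⊤ := by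
    by_contra e
    exact (m.sub m').meromorphicOrderAt_ne_top_of_isPreconnected isPreconnected_univ
      (Set.mem_univ 0) (Set.mem_univ 2) e h2
  exact tendsto_nhds_unique_of_eventuallyEq (l := 𝓝[≠] (0 : ℂ))
    (a.continuousAt.tendsto.mono_left nhdsWithin_le_nhds)
    (a'.continuousAt.tendsto.mono_left nhdsWithin_le_nhds)
    ((meromorphicOrderAt_eq_top_iff.1 h0).mono fun s hs => sub_eq_zero.1 hs)

theorem LV.mul (h : LV S φ D c) (h' : LV S φ D' c') : LV S φ (D * D') (c * c') := by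
  obtain ⟨f, m, a, rfl, h⟩ := h
  obtain ⟨f', m', a', rfl, h'⟩ := h'
  refine ⟨f * f', m.mul m', a.mul a', rfl, fun s hs => ?_⟩
  simpa only [Pi.mul_apply, mul_inv] using (h s hs).mul (h' s hs)

theorem lv_one : LV S φ 1 1 :=
  ⟨fun _ => 1, MeromorphicOn.const 1, analyticAt_const, rfl, fun s _ => by
    simp⟩

variable (S φ D) in
/-- the value at zero -/
noncomputable def val : ℂ := Classical.epsilon (LV S φ D)

theorem LV.val_eq (h : LV S φ D c) : val S φ D = c :=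
  LV.unique (Classical.epsilon_spec ⟨c, h⟩) h

/-- the smoothing factor -/
noncomputable def del (φ : Pr K → G) (T : Finset (Pr K)) (D : (G → ℂ) → ℂ) : ℂ :=
  ∏ v ∈ T, D (eul (φ v)⁻¹ (nrm v))

end LV

/-- evaluation of linear characters at a group element -/
def evH (U : Type) [Group U] : U →* ((U →* ℂˣ) → ℂ) where
  toFun u ψ := ψ u
  map_one' := funext fun ψ => by simp
  map_mul' u v := funext fun ψ => by simp

/-- functions on linear characters that come from the integral group ring -/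
noncomputable def IntG (U : Type) [Group U] : Subring ((U →* ℂˣ) → ℂ) :=
  (MonoidAlgebra.lift ℤ _ U (evH U)).toRingHom.range

theorem ev_mem {U : Type} [Group U] (u : U) : (fun ψ : U →* ℂˣ => (ψ u : ℂ)) ∈ IntG U :=
  ⟨MonoidAlgebra.of ℤ U u, MonoidAlgebra.lift_of (evH U) u⟩

theorem IntG.ind {U : Type} [Group U] {p : ((U →* ℂˣ) → ℂ) → Prop} (h0 : p 0)
    (h1 : ∀ f g, p f → p g → p (f + g)) (h2 : ∀ (u : U) (z : ℤ), p fun ψ => z * (ψ u : ℂ))
    {f : (U →* ℂˣ) → ℂ} (hf : f ∈ IntG U) : p f := by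
  obtain ⟨z, rfl⟩ := hf
  induction z using MonoidAlgebra.induction_linear with
  | zero => rwa [map_zero]
  | add x y hx hy => rw [map_add]; exact h1 _ _ hx hy
  | single u z =>
    convert h2 u z using 1
    funext ψ
    change MonoidAlgebra.lift ℤ _ U (evH U) _ ψ = _
    rw [MonoidAlgebra.lift_single, Pi.smul_apply, zsmul_eq_mul]
    rfl

section Fld

variable {K E L G : Type} [Field K] [NumberField K] [Field E] [NumberField E] [Field L]
  [NumberField L] [Algebra K E] [Algebra E L] [Algebra K L] [IsScalarTower K E L] [Group G]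
  [Fintype G] [MulSemiringAction G L] [IsGaloisGroup G K L] {U : Subgroup G} [IsGaloisGroup U E L]
  {S : Finset (Pr K)} {φ : Pr K → G} {φE : Pr E → U}

open MulAction Subgroup Function in
theorem loc (hu : Unr L G S) (hφ : IsFrob L S φ) (hE : IsFrob L (above E S) φE) {v : Pr K}
    (hv : v ∉ S) (ψ : U →* ℂˣ) (z : ℂ) :
    ∏ w ∈ above E {v}, (1 - (((ψ (φE w))⁻¹ : ℂˣ) : ℂ) * (nrm w : ℂ) ^ z) =
      dt (Mat ψ) (eul (φ v)⁻¹ ((nrm v : ℂ) ^ z)) := by
  classical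
  obtain ⟨g1, g2, -, -, g5, -, -, g8⟩ := fb K L G
  obtain ⟨u1, u2, -⟩ := fb E L U
  obtain ⟨t1, -, t3, -⟩ := tow' K E L G
  obtain ⟨-, a2, a3, a4⟩ := t3 U U.subtype fun _ _ => rfl
  obtain ⟨P, rfl, hP⟩ := hφ v hv
  generalize φ (P.under (𝓞 K)) = g at hP
  have h8 := (g8 P _ (hu P hv) hP).2.1
  have : Fintype (orbitRel.Quotient (zpowers g) (G ⧸ U)) := Fintype.ofFinite _
  rw [dt_eul, det_eul]
  symm
  refine prod_bij (fun q _ => (gact q.out.out⁻¹ P).under (𝓞 E)) (fun q _ => ?_)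
    (fun q _ q' _ h => ?_) (fun w hw => ?_) fun q _ => ?_
  · rw [mem_above, mem_singleton, t1, g1]
  · obtain ⟨u, hu'⟩ := u2 _ _ h
    obtain ⟨k, hk⟩ := (h8 (q'.out.out * (u * q.out.out⁻¹))).1 (by
      rw [gact_mul, gact_mul, show gact (u : G) _ = _ from a2 u _, hu', ← gact_mul, mul_inv_cancel,
        gact_one])
    rw [← q.out_eq', ← q'.out_eq']
    refine (Quotient.sound' (s₁ := orbitRel (zpowers g) (G ⧸ U))
      (orbitRel_apply.2 ⟨⟨_, k, rfl⟩, ?_⟩)).symm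
    change g ^ k • q.out = q'.out
    rw [← MulAction.Quotient.coe_smul_out, smul_eq_mul, show g ^ k = _ from hk, mul_assoc,
      inv_mul_cancel_right, QuotientGroup.mk_mul_of_mem _ u.2, QuotientGroup.out_eq']
  · obtain ⟨W, rfl⟩ := under_surj (E' := L) w
    rw [mem_above, mem_singleton, t1] at hw
    obtain ⟨y, rfl⟩ := g2 P W hw.symm
    refine ⟨Quotient.mk'' ((y⁻¹ : G) : G ⧸ U), mem_univ _, ?_⟩
    obtain ⟨⟨_, k, rfl⟩, hk⟩ := Quotient.exact' (Quotient.out_eq'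
      (Quotient.mk'' ((y⁻¹ : G) : G ⧸ U) : orbitRel.Quotient (zpowers g) (G ⧸ U)))
    rw [← hk]
    change (gact (g ^ k • ((y⁻¹ : G) : G ⧸ U)).out⁻¹ P).under (𝓞 E) = _
    obtain ⟨u, hu'⟩ := QuotientGroup.mk_out_eq_mul U (g ^ k * y⁻¹)
    rw [MulAction.Quotient.smul_mk, smul_eq_mul, hu', _root_.mul_inv_rev, _root_.mul_inv_rev,
      inv_inv, gact_mul, gact_mul, (h8 _).2 (inv_mem ⟨k, rfl⟩),
      show gact (u : G)⁻¹ _ = _ from a2 u⁻¹ _, u1]
  · have hv' : (gact q.out.out⁻¹ P).under (𝓞 K) ∉ S := by rwa [g1]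
    have h3 : ∀ n : ℕ, (q.out.out⁻¹ * g * q.out.out⁻¹⁻¹) ^ n ∈ U.subtype.range ↔
        minimalPeriod (g • ·) q.out ∣ n := fun n => by
      rw [conj_pow, inv_inv, range_subtype, mem_iff, eq_comm, pow_smul_eq_iff_minimalPeriod_dvd]
    obtain ⟨b1, -, b3⟩ := a4 _ _ _ (hu _ hv') (g5 _ _ q.out.out⁻¹ hP) h3
    obtain ⟨u₁, h₁⟩ := (h3 _).2 dvd_rfl
    obtain ⟨u', hu'⟩ := DictX.uniq fb (a3 S hu) hE (by rwa [mem_above, t1]) (b3 u₁ h₁)
    rw [conj_pow, inv_inv] at h₁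
    have h4 : q.out.out⁻¹ * (g ^ minimalPeriod (g • ·) q.out)⁻¹ * q.out.out = (u₁⁻¹ : U) := by
      rw [Subgroup.coe_inv, show (u₁ : G) = _ from h₁]
      group
    rw [h4, ext0_coe, hu', b1, g1, map_mul, map_mul, map_inv, map_inv, mul_inv_cancel_comm,
      mul_comm, Nat.cast_pow, ← Complex.natCast_cpow_natCast_mul, Complex.cpow_nat_mul]

theorem smooth [IsTotallyReal E] {j : U} (hj : IsCC L j) (hu : Unr L G S) (hφ : IsFrob L S φ)
    (hE : IsFrob L (above E S) φE) {w₀ : Pr E} (hw : w₀ ∉ above E S) :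
    ∃ l k : ℕ, l.Prime ∧ (l : 𝓞 E) ∈ w₀.asIdeal ∧
      (∀ ψ : U →* ℂˣ, ∃ c, LV S φ (dt (Mat ψ)) c) ∧ (fun ψ : U →* ℂˣ => (l : ℂ) ^ k *
        ((1 - ψ (φE w₀)⁻¹ * nrm w₀) * val S φ (dt (Mat ψ)))) ∈ IntG U := by
  have hu' : Unr L U (above E S) :=
    ((tow' K E L G).2.2.1 U U.subtype fun _ _ => rfl).2.2.1 S hu
  obtain ⟨N, N0, hN⟩ := ar' E L U j (above E S) φE hj hu' hE
  obtain ⟨l, hl, hlv, -⟩ := (ntc E).2.2.2.2.2 w₀
  obtain ⟨k, Z, -, hZ⟩ := sca' E l (above E S) {w₀} N hl N0 (disjoint_singleton_right.2 hw)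
    (singleton_nonempty _) fun c hc => mem_singleton.1 hc ▸ hlv
  choose g hg using LevbX.exists_elt φE
  have key : ∀ ψ : U →* ℂˣ, ∃ c, LV S φ (dt (Mat ψ)) c ∧ (l : ℂ) ^ k *
      ((1 - ψ (φE w₀)⁻¹ * nrm w₀) * c) = -Z.sum fun D z => (z : ℂ) * ψ (g D)⁻¹ := fun ψ => by
    obtain ⟨f, hf, hf0⟩ := hZ _ (hN ψ⁻¹)
    let den : ℂ → ℂ := fun s => (ψ⁻¹ (φE w₀) : ℂ) * (nrm w₀ : ℂ) ^ (1 - s) - 1
    have hN := two_le_nrm w₀
    have hd : Differentiable ℂ den :=
      ((Differentiable.const_cpow (by fun_prop)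
        (Or.inl (Nat.cast_ne_zero.2 (by omega)))).const_mul _).sub_const 1
    have h0 : ∀ s : ℂ, s.re ≠ 1 → den s ≠ 0 := fun s hs e => by
      have h1 : ‖(ψ⁻¹ (φE w₀) : ℂ)‖ = 1 := Complex.norm_eq_one_of_pow_eq_one (n := orderOf (φE w₀))
        (by rw [← Units.val_pow_eq_pow_val, ← map_pow, pow_orderOf_eq_one, map_one, Units.val_one])
        (orderOf_pos _).ne'
      have h2 := congrArg norm (sub_eq_zero.1 e)
      rw [norm_mul, h1, one_mul, norm_one] at h2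
      exact LevaX.norm_ne hN hs h2
    have h00 := h0 0 (by simp)
    refine ⟨f 0 / den 0, ⟨fun s => f s / den s, fun s _ => ?_, ?_, rfl, fun s hs => ?_⟩, ?_⟩
    · exact (hf.1.analyticAt s).meromorphicAt.div (hd.analyticAt s).meromorphicAt
    · exact (hf.1.analyticAt 0).div (hd.analyticAt 0) h00
    · obtain ⟨Lv, h1, h2⟩ := hf.2 s hs
      have h3 : f s / den s = Lv := by
        rw [h2, prod_singleton]
        exact mul_div_cancel_left₀ _ (h0 s hs.ne')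
      simp only [h3]
      convert LevaX.hasProd_under S
        (fun w => (1 - (((ψ (φE w))⁻¹ : ℂˣ) : ℂ) * (nrm w : ℂ) ^ (-s))⁻¹) h1 using 2 with v
      rw [prod_inv_distrib, loc hu hφ hE v.2]
    · have h4 : (1 - ψ (φE w₀)⁻¹ * nrm w₀ : ℂ) = -den 0 := by simp [den]
      rw [h4, neg_mul, mul_div_cancel₀ _ h00, mul_neg, hf0]
      congr 1
      refine Finsupp.sum_congr fun D _ => ?_
      rw [hg, MonoidHom.inv_apply, ← map_inv]
  refine ⟨l, k, hl, hlv, fun ψ => (key ψ).imp fun _ h => h.1, ?_⟩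
  have h5 := (IntG U).neg_mem ((IntG U).sum_mem fun D (_ : D ∈ Z.support) =>
    (IntG U).mul_mem (intCast_mem _ (Z D)) (ev_mem (g D)⁻¹))
  convert h5 using 1
  funext ψ
  obtain ⟨c, h1, h2⟩ := key ψ
  rw [h1.val_eq, h2]
  simp [Finsupp.sum]

theorem integral [IsTotallyReal E] {j : U} (hj : IsCC L j) (hu : Unr L G S) (hφ : IsFrob L S φ)
    (hE : IsFrob L (above E S) φE) {T : Finset (Pr K)} (hT : Disjoint S T)
    (hp : ∀ p : ℕ, p.Prime → (∀ v ∈ T, (p : 𝓞 K) ∈ v.asIdeal) → ∀ x : L, x ^ p = 1 → x = 1) :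
    (fun ψ : U →* ℂˣ => del φ T (dt (Mat ψ)) * val S φ (dt (Mat ψ))) ∈ IntG U := by
  classical
  let e : Pr E → (U →* ℂˣ) → ℂ := fun w ψ => 1 - ψ (φE w)⁻¹ * nrm w
  have he : ∀ w, e w ∈ IntG U := fun w =>
    (IntG U).sub_mem (one_mem _) ((IntG U).mul_mem (ev_mem (φE w)⁻¹) (natCast_mem _ (nrm w)))
  have hd : ∀ v ∈ T, ∀ ψ : U →* ℂˣ, dt (Mat ψ) (eul (φ v)⁻¹ (nrm v)) =
      ∏ w ∈ above E {v}, e w ψ := fun v hv ψ => by
    have := loc hu hφ hE (disjoint_right.1 hT hv) ψ 1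
    simp only [Complex.cpow_one] at this
    simp only [← this, e, map_inv]
  have hm : ∀ v : Pr K, ∏ w ∈ above E {v}, e w ∈ IntG U := fun v => (IntG U).prod_mem fun w _ => he w
  have hcop : ∀ {l p : ℕ} (k : ℕ) {w : Pr E}, l.Prime → p.Prime → (l : 𝓞 E) ∈ w.asIdeal →
      (p : 𝓞 E) ∉ w.asIdeal → (l ^ k).Coprime p := fun k _ hl hp h h' =>
    Nat.Coprime.pow_left k ((Nat.coprime_primes hl hp).2 fun e => h' (e ▸ h))
  refine ArithX.loc_glob (IntG U).toAddSubgroup _ fun p hp' => ?_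
  by_cases hc : ∀ v ∈ T, (p : 𝓞 K) ∈ v.asIdeal
  · obtain ⟨W, h1, h2, h3⟩ := prime_ex fb dens' L p (above L S) hp' (hp p hp' hc)
    rw [← LevbX.above_above (E := E), mem_above] at h1
    obtain ⟨l, k, hl, hlw, -, hZ⟩ := smooth hj hu hφ hE h1
    have hu' : Unr L U (above E S) :=
      ((tow' K E L G).2.2.1 U U.subtype fun _ _ => rfl).2.2.1 S hu
    obtain ⟨-, f2, -, -, -, -, -, f8⟩ := fb E L U
    obtain ⟨w', hw, hw'⟩ := hE _ h1
    obtain ⟨g, hg⟩ := f2 w' W hw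
    have h4 := (f8 w' _ (hu' w' (hw ▸ h1)) hw').2.2
    rw [hw, ← nrm_gact g w', hg] at h4
    have h5 : (p : 𝓞 E) ∉ (W.under (𝓞 E)).asIdeal := fun hm => h2 (by
      have : algebraMap (𝓞 E) (𝓞 L) p ∈ W.asIdeal := hm
      rwa [map_natCast] at this)
    generalize W.under (𝓞 E) = w₀ at *
    have h6 : 1 ≤ nrm W := (two_le_nrm W).trans' one_le_two
    refine ⟨l ^ k * (nrm W - 1), Nat.Coprime.mul_left (hcop k hl hp' hlw h5) ?_, ?_⟩
    · exact ((Nat.Prime.coprime_iff_not_dvd hp').2 fun hd =>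
        h3 ((Nat.modEq_iff_dvd' h6).2 hd).symm).symm
    have h7 := (IntG U).neg_mem ((IntG U).mul_mem ((IntG U).mul_mem
      ((IntG U).prod_mem fun v (_ : v ∈ T) => hm v) ((IntG U).sum_mem
        fun i (_ : i ∈ range (orderOf (φE w₀))) => (IntG U).pow_mem ((IntG U).mul_mem
          (ev_mem (φE w₀)⁻¹) (natCast_mem _ (nrm w₀))) i)) hZ)
    change _ ∈ IntG U
    convert h7 using 1
    funext ψ
    have h8 := geom_sum_mul_neg ((ψ (φE w₀)⁻¹ : ℂ) * nrm w₀) (orderOf (φE w₀))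
    rw [mul_pow, ← Units.val_pow_eq_pow_val, ← map_pow, inv_pow, pow_orderOf_eq_one, inv_one,
      map_one, Units.val_one, one_mul, ← Nat.cast_pow, ← h4] at h8
    simp only [Pi.smul_apply, nsmul_eq_mul, Pi.neg_apply, Pi.mul_apply, Finset.prod_apply,
      Finset.sum_apply, Pi.pow_apply, Pi.natCast_apply, Nat.cast_mul, Nat.cast_pow,
      Nat.cast_sub h6, Nat.cast_one]
    rw [del, prod_congr rfl fun v hv => hd v hv ψ]
    linear_combination ((l : ℂ) ^ k * (∏ v ∈ T, ∏ w ∈ above E {v}, e w ψ) *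
      val S φ (dt (Mat ψ))) * h8
  · push Not at hc
    obtain ⟨v₀, hv, hpv⟩ := hc
    obtain ⟨w₀, rfl⟩ := under_surj (E' := E) v₀
    have h1 : w₀ ∉ above E S := fun h => disjoint_right.1 hT hv (mem_above.1 h)
    obtain ⟨l, k, hl, hlw, -, hZ⟩ := smooth hj hu hφ hE h1
    refine ⟨l ^ k, hcop k hl hp' hlw fun hm => hpv ?_, ?_⟩
    · change algebraMap (𝓞 K) (𝓞 E) p ∈ w₀.asIdeal
      rwa [map_natCast]
    have h7 := (IntG U).mul_mem ((IntG U).mul_mem
      ((IntG U).prod_mem fun v (_ : v ∈ T.erase (w₀.under (𝓞 K))) => hm v)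
      ((IntG U).prod_mem fun w (_ : w ∈ (above E {w₀.under (𝓞 K)}).erase w₀) => he w)) hZ
    change _ ∈ IntG U
    convert h7 using 1
    funext ψ
    simp only [Pi.smul_apply, nsmul_eq_mul, Pi.mul_apply, Finset.prod_apply, Nat.cast_pow]
    rw [del, prod_congr rfl fun v hv => hd v hv ψ, ← prod_erase_mul T _ hv,
      ← prod_erase_mul _ _ (mem_above.2 (mem_singleton_self _) : w₀ ∈ above E {w₀.under (𝓞 K)})]
    simp only [e]
    ring

end Fld

theorem level {K L G : Type} [Field K] [NumberField K] [Field L] [NumberField L] [Algebra K L]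
    [Group G] [Fintype G] [MulSemiringAction G L] [IsGaloisGroup G K L] {U : Subgroup G}
    {S : Finset (Pr K)} {φ : Pr K → G} {j : G} (hj : IsCC L j) (hU : j ∈ U) (hu : Unr L G S)
    (hφ : IsFrob L S φ) : (∀ ψ : U →* ℂˣ, ∃ c, LV S φ (dt (Mat ψ)) c) ∧
      ∀ T : Finset (Pr K), Disjoint S T → (∀ p : ℕ, p.Prime → (∀ v ∈ T, (p : 𝓞 K) ∈ v.asIdeal) →
        ∀ x : L, x ^ p = 1 → x = 1) →
      (fun ψ : U →* ℂˣ => del φ T (dt (Mat ψ)) * val S φ (dt (Mat ψ))) ∈ IntG U := by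
  let E : IntermediateField K L := FixedPoints.intermediateField U
  have : IsTotallyReal E := LevbX.real hj fun x => x.2 (⟨j, hU⟩ : U)
  obtain ⟨φE, hE⟩ := (fb E L U).2.2.2.1 (above E S)
  obtain ⟨w₀, hw⟩ := (ntc E).2.2.2.2.1 (above E S)
  obtain ⟨-, -, -, -, h, -⟩ := smooth (j := ⟨j, hU⟩) hj hu hφ hE hw
  exact ⟨h, fun T hT hp => integral (j := ⟨j, hU⟩) hj hu hφ hE hT hp⟩

end Pool.Agent.MP_f3cd89_nt.Tw
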