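import Pool.Agent.MP_f3cd89_nt.Tw.Chr

/-! Twists by linear characters, Galois conjugates, and the assembly of central elements. -/

set_option autoImplicit false
set_option linter.unusedSectionVars false

open Finset Matrix

namespace Pool.Agent.MP_f3cd89_nt.Tw

theorem aut_ext {R : Type} [Field R] [Algebra R ℂ] {ι : Type} {v : ι → ℂ}
    (hv : IsTranscendenceBasis R v) (e : MvPolynomial ι R ≃+* MvPolynomial ι R) :
    ∃ σ : ℂ ≃+* ℂ, ∀ P, σ (MvPolynomial.aeval v P) = MvPolynomial.aeval v (e P) := by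
  let := IsAlgClosed.isAlgClosure_of_transcendence_basis v hv
  let e' : Algebra.adjoin R (Set.range v) ≃+* Algebra.adjoin R (Set.range v) :=
    (hv.1.aevalEquiv.symm.toRingEquiv.trans e).trans hv.1.aevalEquiv.toRingEquiv
  refine ⟨IsAlgClosure.equivOfEquiv ℂ ℂ e', fun P => ?_⟩
  rw [← hv.1.algebraMap_aevalEquiv P, IsAlgClosure.equivOfEquiv_algebraMap,
    ← hv.1.algebraMap_aevalEquiv (e P)]
  congr 1
  simp [e']

theorem rat_of_fixed {x : ℂ} (ha : IsAlgebraic ℚ x) (h : ∀ σ : ℂ ≃+* ℂ, σ x = x) :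
    ∃ q : ℚ, x = q := by
  have hx : x ∈ algebraicClosure ℚ ℂ := mem_algebraicClosure_iff.2 ha
  obtain ⟨t, hv⟩ := exists_isTranscendenceBasis (algebraicClosure ℚ ℂ) ℂ
  have key : (⟨x, hx⟩ : algebraicClosure ℚ ℂ) ∈
      Set.range (algebraMap ℚ (algebraicClosure ℚ ℂ)) := by
    have h1 : IsAlgClosure ℚ (algebraicClosure ℚ ℂ) := algebraicClosure.isAlgClosure ℚ ℂ
    have h2 : IsGalois ℚ (algebraicClosure ℚ ℂ) := IsAlgClosure.isGalois ℚ _
    rw [InfiniteGalois.mem_range_algebraMap_iff_fixed]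
    intro τ
    obtain ⟨σ, hσ⟩ := aut_ext hv (MvPolynomial.mapEquiv t τ.toRingEquiv)
    have h2 := hσ (MvPolynomial.C ⟨x, hx⟩)
    have h3 : σ x = (τ ⟨x, hx⟩ : ℂ) := by simpa using h2
    rw [h σ] at h3
    exact Subtype.ext h3.symm
  obtain ⟨q, hq⟩ := key
  refine ⟨q, ?_⟩
  have := congrArg Subtype.val hq
  simpa using this.symm

theorem int_of_fixed {x : ℂ} (ha : IsIntegral ℤ x) (h : ∀ σ : ℂ ≃+* ℂ, σ x = x) :
    ∃ q : ℤ, x = q := by
  obtain ⟨q, rfl⟩ := rat_of_fixed (ha.tower_top (A := ℚ)).isAlgebraic h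
  have h1 : IsIntegral ℤ q :=
    (isIntegral_algebraMap_iff (A := ℚ) (B := ℂ) (algebraMap ℚ ℂ).injective).1 ha
  obtain ⟨z, hz⟩ := IsIntegrallyClosed.isIntegral_iff.1 h1
  exact ⟨z, by rw [← hz]; simp⟩

section Orbit

variable {Γ α : Type} [Group Γ] [Fintype Γ] [MulAction Γ α] [DecidableEq α]

theorem orbit_sum (a : α) (h : α → ℂ) : ∑ ρ : Γ, h (ρ • a) =
    Nat.card (MulAction.stabilizer Γ a) * ∑ b ∈ univ.image (fun ρ : Γ => ρ • a), h b := by
  classical
  rw [Finset.sum_comp h (fun ρ : Γ => ρ • a), mul_sum]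
  refine sum_congr rfl fun b hb => ?_
  obtain ⟨ρ₀, -, rfl⟩ := mem_image.1 hb
  rw [nsmul_eq_mul]
  congr 2
  rw [← Fintype.card_subtype, ← Nat.card_eq_fintype_card]
  exact Nat.card_congr ((Equiv.mulLeft ρ₀⁻¹).subtypeEquiv fun ρ => by
    simp [mul_smul, inv_smul_eq_iff])

theorem sum_orbits (J : AddSubgroup ℂ) (h : α → ℂ) (Y : Finset α)
    (hY : ∀ a ∈ Y, ∀ ρ : Γ, ρ • a ∈ Y)
    (H : ∀ a ∈ Y, ∑ b ∈ univ.image (fun ρ : Γ => ρ • a), h b ∈ J) : ∑ a ∈ Y, h a ∈ J := by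
  induction Y using Finset.strongInduction with
  | H Y ih =>
    rcases Y.eq_empty_or_nonempty with rfl | ⟨a, ha⟩
    · exact zero_mem _
    have hs : univ.image (fun ρ : Γ => ρ • a) ⊆ Y := fun b hb => by
      obtain ⟨ρ, -, rfl⟩ := mem_image.1 hb
      exact hY a ha ρ
    rw [← sum_sdiff hs]
    refine add_mem (ih _ (sdiff_ssubset hs ⟨a, mem_image.2 ⟨1, mem_univ _, one_smul _ _⟩⟩)
      (fun b hb ρ => ?_) fun b hb => H b (mem_sdiff.1 hb).1) (H a ha)
    obtain ⟨h1, h2⟩ := mem_sdiff.1 hb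
    refine mem_sdiff.2 ⟨hY b h1 ρ, fun h3 => h2 ?_⟩
    obtain ⟨σ, -, hσ⟩ := mem_image.1 h3
    exact mem_image.2 ⟨ρ⁻¹ * σ, mem_univ _, by rw [mul_smul, hσ, inv_smul_smul]⟩

end Orbit

variable {G : Type} [Group G]

/-- the values of a linear character -/
def cv : (G →* ℂˣ) →* (G → ℂ) where
  toFun ρ g := ρ g
  map_one' := rfl
  map_mul' _ _ := rfl

theorem cv_apply (ρ : G →* ℂˣ) (g : G) : cv ρ g = ρ g := rfl

/-- the twist of an irreducible representation -/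
noncomputable def tw (r : Irr G) (ρ : G →* ℂˣ) : Irr G where
  n := r.n
  ρ := { toFun := fun g => (ρ g : ℂ) • r.ρ g
         map_one' := by simp
         map_mul' := fun g h => by simp [smul_smul, mul_comm] }
  pos := r.pos
  irr W hW := r.irr W fun g v hv => by
    have := W.smul_mem (((ρ g)⁻¹ : ℂˣ) : ℂ) (hW g v hv)
    simpa [smul_mulVec, smul_smul] using this

theorem tw_apply (r : Irr G) (ρ : G →* ℂˣ) (g : G) : (tw r ρ).ρ g = (ρ g : ℂ) • r.ρ g := rfl

theorem chr_tw (r : Irr G) (ρ : G →* ℂˣ) : chr (tw r ρ) = cv ρ * chr r :=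
  funext fun g => trace_smul _ (r.ρ g)

/-- the Galois conjugate of an irreducible representation -/
noncomputable def gal (r : Irr G) (σ : ℂ ≃+* ℂ) : Irr G where
  n := r.n
  ρ := (σ.toRingHom.mapMatrix : _ →+* _).toMonoidHom.comp r.ρ
  pos := r.pos
  irr W hW := by
    let W' : Submodule ℂ (Fin r.n → ℂ) :=
      { carrier := {v | (fun i => σ (v i)) ∈ W}
        add_mem' := fun {v w} hv hw => by
          have := W.add_mem hv hw
          simpa [Pi.add_def] using this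
        zero_mem' := by simpa [Pi.zero_def] using W.zero_mem
        smul_mem' := fun c v hv => by
          have := W.smul_mem (σ c) hv
          simpa [Pi.smul_def] using this }
    have hm : ∀ v ∈ W, (fun i => σ.symm (v i)) ∈ W' := fun v hv => by
      change (fun i => σ (σ.symm (v i))) ∈ W
      simpa using hv
    rcases r.irr W' (fun g v hv => by
      have := hW g _ hv
      change (fun i => σ ((r.ρ g *ᵥ v) i)) ∈ W
      convert this using 2 with i
      simp [mulVec, dotProduct]) with h | h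
    · refine Or.inl ((Submodule.eq_bot_iff W).2 fun v hv => funext fun i => ?_)
      have := congrFun ((Submodule.eq_bot_iff W').1 h _ (hm v hv)) i
      simpa using this
    · refine Or.inr (Submodule.eq_top_iff'.2 fun v => ?_)
      have : (fun i => σ.symm (v i)) ∈ W' := h ▸ Submodule.mem_top
      change (fun i => σ (σ.symm (v i))) ∈ W at this
      simpa using this

theorem gal_apply (r : Irr G) (σ : ℂ ≃+* ℂ) (g : G) : (gal r σ).ρ g = (r.ρ g).map σ := rfl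

theorem chr_gal (r : Irr G) (σ : ℂ ≃+* ℂ) (g : G) : chr (gal r σ) g = σ (chr r g) := by
  rw [chr, chr, trace, trace, map_sum]
  rfl

/-- the algebraic integers -/
noncomputable def OO : AddSubgroup ℂ := (integralClosure ℤ ℂ).toSubring.toAddSubgroup

theorem mem_OO {a : ℂ} : a ∈ OO ↔ IsIntegral ℤ a := Iff.rfl

/-- ideals of the ring of algebraic integers -/
def Idl (J : AddSubgroup ℂ) : Prop := J ≤ OO ∧ ∀ a ∈ J, ∀ b, IsIntegral ℤ b → b * a ∈ J

theorem idl_OO : Idl OO := ⟨le_rfl, fun _ ha _ hb => IsIntegral.mul hb ha⟩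

variable (G) in
/-- functions on linear characters that come from the group ring with coefficients in `J` -/
def TwI (J : AddSubgroup ℂ) : AddSubgroup ((G →* ℂˣ) → ℂ) :=
  AddSubgroup.closure {f | ∃ a ∈ J, ∃ g : G, f = fun ρ => a * ρ g}

theorem gen_mem {J : AddSubgroup ℂ} {a : ℂ} (ha : a ∈ J) (g : G) :
    (fun ρ : G →* ℂˣ => a * ρ g) ∈ TwI G J := AddSubgroup.subset_closure ⟨a, ha, g, rfl⟩

theorem twI_mono {J J' : AddSubgroup ℂ} (h : J ≤ J') : TwI G J ≤ TwI G J' :=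
  AddSubgroup.closure_mono fun _ ⟨a, ha, g, e⟩ => ⟨a, h ha, g, e⟩

theorem twI_mul {J : AddSubgroup ℂ} (hJ : Idl J) {f f' : (G →* ℂˣ) → ℂ} (hf : f ∈ TwI G OO)
    (hf' : f' ∈ TwI G J) : f * f' ∈ TwI G J := by
  induction hf using AddSubgroup.closure_induction with
  | mem _ hx =>
    obtain ⟨a, ha, g, rfl⟩ := hx
    induction hf' using AddSubgroup.closure_induction with
    | mem _ hy =>
      obtain ⟨b, hb, h, rfl⟩ := hy
      convert gen_mem (hJ.2 b hb a ha) (g * h) using 1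
      funext ρ
      simp only [Pi.mul_apply, map_mul, Units.val_mul]
      ring
    | zero => rw [mul_zero]; exact zero_mem _
    | add _ _ _ _ h h' => rw [mul_add]; exact add_mem h h'
    | neg _ _ h => rw [mul_neg]; exact neg_mem h
  | zero => rw [zero_mul]; exact zero_mem _
  | add _ _ _ _ h h' => rw [add_mul]; exact add_mem h h'
  | neg _ _ h => rw [neg_mul]; exact neg_mem h

variable (G) in
/-- pairs of integral functions that are congruent modulo `J` -/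
def Cg {J : AddSubgroup ℂ} (hJ : Idl J) : Subring (((G →* ℂˣ) → ℂ) × ((G →* ℂˣ) → ℂ)) where
  carrier := {p | p.1 ∈ TwI G OO ∧ p.2 ∈ TwI G OO ∧ p.1 - p.2 ∈ TwI G J}
  mul_mem' := fun {p q} hp hq => ⟨twI_mul idl_OO hp.1 hq.1, twI_mul idl_OO hp.2.1 hq.2.1, by
    rw [show (p * q).1 - (p * q).2 = p.1 * (q.1 - q.2) + q.2 * (p.1 - p.2) by
      simp only [Prod.fst_mul, Prod.snd_mul]; ring]
    exact add_mem (twI_mul hJ hp.1 hq.2.2) (twI_mul hJ hq.2.1 hp.2.2)⟩
  one_mem' := by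
    have : (1 : (G →* ℂˣ) → ℂ) ∈ TwI G OO := by
      convert gen_mem (J := OO) (a := 1) isIntegral_one (1 : G) using 1
      funext ρ
      simp
    exact ⟨this, this, by simp⟩
  add_mem' := fun {p q} hp hq => ⟨add_mem hp.1 hq.1, add_mem hp.2.1 hq.2.1, by
    rw [show (p + q).1 - (p + q).2 = (p.1 - p.2) + (q.1 - q.2) by
      simp only [Prod.fst_add, Prod.snd_add]; ring]
    exact add_mem hp.2.2 hq.2.2⟩
  zero_mem' := ⟨zero_mem _, zero_mem _, by simp⟩
  neg_mem' := fun {p} hp => ⟨neg_mem hp.1, neg_mem hp.2.1, by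
    rw [show (-p).1 - (-p).2 = -(p.1 - p.2) by simp only [Prod.fst_neg, Prod.snd_neg]; ring]
    exact neg_mem hp.2.2⟩

theorem cg_trans {J : AddSubgroup ℂ} {hJ : Idl J} {a b c : (G →* ℂˣ) → ℂ} (h : (a, b) ∈ Cg G hJ)
    (h' : (b, c) ∈ Cg G hJ) : (a, c) ∈ Cg G hJ :=
  ⟨h.1, h'.2.1, by simpa using add_mem h.2.2 h'.2.2⟩

theorem cg_symm {J : AddSubgroup ℂ} {hJ : Idl J} {a b : (G →* ℂˣ) → ℂ} (h : (a, b) ∈ Cg G hJ) :
    (b, a) ∈ Cg G hJ := ⟨h.2.1, h.1, by simpa using neg_mem h.2.2⟩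

theorem cg_gen {J : AddSubgroup ℂ} (hJ : Idl J) {a b : ℂ} (ha : IsIntegral ℤ a)
    (hb : IsIntegral ℤ b) (h : a - b ∈ J) (g : G) :
    ((fun ρ : G →* ℂˣ => a * ρ g), (fun ρ : G →* ℂˣ => b * ρ g)) ∈ Cg G hJ :=
  ⟨gen_mem ha g, gen_mem hb g, by
    convert gen_mem h g using 1
    funext ρ
    exact (sub_mul _ _ _).symm⟩

variable [Fintype G]

theorem sum_cases {Γ : Type} [Group Γ] [Fintype Γ] (f : Γ →* ℂ) :
    ∑ x, f x = 0 ∨ ∑ x, f x = Fintype.card Γ := by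
  by_cases h : f = 1
  · right
    simp [h]
  · exact Or.inl (sum_hom_units_eq_zero f h)

theorem card_dual : Nat.card (G →* ℂˣ) * Nat.card (commutator G) = Nat.card G := by
  rw [Nat.card_congr (Abelianization.lift (G := G) (A := ℂˣ)),
    CommGroup.card_monoidHom_of_hasEnoughRootsOfUnity]
  exact (Subgroup.card_eq_card_quotient_mul_card_subgroup (commutator G)).symm

theorem lemA (r : Irr G) (St : Subgroup (G →* ℂˣ)) (h : ∀ σ ∈ St, cv σ * chr r = chr r) (g : G) :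
    IsIntegral ℤ (r.n * chr r g / Nat.card St) := by
  classical
  have : Fintype St := Fintype.ofFinite _
  let N : Subgroup G := ⨅ σ : St, (σ : G →* ℂˣ).ker
  have hN : ∀ b, b ∈ N ↔ ∀ σ : St, (σ : G →* ℂˣ) b = 1 := fun b => by
    simp only [N, Subgroup.mem_iInf, MonoidHom.mem_ker]
  have h1 := lemA' r N (fun b hb => by
    rw [hN, not_forall] at hb
    obtain ⟨σ, hσ⟩ := hb
    have h2 : ((σ : G →* ℂˣ) b : ℂ) * chr r b = chr r b := congrFun (h σ σ.2) b
    by_contra e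
    exact hσ (Units.ext (mul_right_cancel₀ e (h2.trans (one_mul _).symm)))) g
  have h2 : ∀ b : G, ∑ σ : St, ((σ : G →* ℂˣ) b : ℂ) =
      if b ∈ N then (Fintype.card St : ℂ) else 0 := fun b => by
    split_ifs with hb
    · simp [(hN b).1 hb]
    · refine sum_hom_units_eq_zero ((Pi.evalMonoidHom _ b).comp (cv.comp St.subtype)) fun e => hb ?_
      exact (hN b).2 fun σ => Units.ext (DFunLike.congr_fun e σ)
  have h3 : ∀ σ : St, ∑ b : G, ((σ : G →* ℂˣ) b : ℂ) =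
      if σ = 1 then (Fintype.card G : ℂ) else 0 := fun σ => by
    split_ifs with hσ
    · simp [hσ]
    · refine sum_hom_units_eq_zero ((Units.coeHom ℂ).comp (σ : G →* ℂˣ)) fun e => hσ ?_
      exact Subtype.ext (MonoidHom.ext fun b => Units.ext (DFunLike.congr_fun e b))
  have h4 : ∑ b : G, ∑ σ : St, ((σ : G →* ℂˣ) b : ℂ) = ∑ σ : St, ∑ b : G, ((σ : G →* ℂˣ) b : ℂ) :=
    sum_comm
  simp only [h2, h3, sum_ite_eq', mem_univ, if_true, ← sum_filter, sum_const, nsmul_eq_mul] at h4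
  rw [← Fintype.card_subtype, ← Nat.card_eq_fintype_card, ← Nat.card_eq_fintype_card (α := St)]
    at h4
  rw [← h4] at h1
  have h5 : (Nat.card N : ℂ) ≠ 0 := Nat.cast_ne_zero.2 Nat.card_pos.ne'
  convert h1 using 1
  rw [mul_comm (Nat.card _ : ℂ) (Nat.card St : ℂ), mul_div_mul_right _ _ h5]

theorem fourier [Fintype (G →* ℂˣ)] {J : AddSubgroup ℂ} (hJ : Idl J) {a : ℂ} (ha : IsIntegral ℤ a)
    (g : G) {f : (G →* ℂˣ) → ℂ} (hf : f ∈ TwI G J) :
    a * (Nat.card (commutator G) / Fintype.card G * ∑ ρ : G →* ℂˣ, ρ g * f ρ) ∈ J := by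
  induction hf using AddSubgroup.closure_induction with
  | mem _ hx =>
    obtain ⟨b, hb, h, rfl⟩ := hx
    have h1 : ∑ ρ : G →* ℂˣ, (ρ g : ℂ) * (b * ρ h) =
        b * ∑ ρ : G →* ℂˣ, ((Pi.evalMonoidHom _ (g * h)).comp cv) ρ := by
      rw [mul_sum]
      refine sum_congr rfl fun ρ _ => ?_
      change _ = b * ((ρ (g * h) : ℂˣ) : ℂ)
      rw [map_mul, Units.val_mul]
      ring
    rw [h1]
    rcases sum_cases ((Pi.evalMonoidHom _ (g * h)).comp (cv (G := G))) with h2 | h2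
    · rw [h2, mul_zero, mul_zero, mul_zero]
      exact zero_mem _
    · have h3 := congrArg (Nat.cast : ℕ → ℂ) (card_dual (G := G))
      rw [Nat.cast_mul, Nat.card_eq_fintype_card, Nat.card_eq_fintype_card (α := G)] at h3
      convert hJ.2 b hb a ha using 2
      rw [h2, div_mul_eq_mul_div, div_eq_iff card_ne, ← h3]
      ring
  | zero => simp
  | add _ _ _ _ h h' => simpa only [Pi.add_apply, mul_add, sum_add_distrib] using add_mem h h'
  | neg _ _ h => simpa only [Pi.neg_apply, mul_neg, sum_neg_distrib] using neg_mem h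

theorem assemble' {J : AddSubgroup ℂ} (hJ : Idl J) (F : Irr G → ℂ)
    (hc : ∀ r r', chr r = chr r' → F r = F r') (hg : ∀ r σ, F (gal r σ) = σ (F r))
    (ht : ∀ r, (fun ρ => F (tw r ρ)) ∈ TwI G J) :
    ∃ c : G → ℤ, (∀ g, (c g : ℂ) ∈ J) ∧ (∀ g h, c (h * g * h⁻¹) = c g) ∧
      (∀ r, ∑ g, (c g : ℂ) * chr r g = r.n * (Nat.card (commutator G) * F r)) ∧
      ∀ g h, (∀ r, F r ≠ 0 → r.ρ h = 1) → c (g * h) = c g := by
  classical
  have : Fintype (G →* ℂˣ) := Fintype.ofFinite _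
  let Φ : (G → ℂ) → ℂ := fun χ => if h : ∃ r, chr r = χ then F h.choose else 0
  have hΦ : ∀ r, Φ (chr r) = F r := fun r => by
    have h : ∃ r', chr r' = chr r := ⟨r, rfl⟩
    exact (dif_pos h).trans (hc _ _ h.choose_spec)
  let X := (finite_chr (G := G)).toFinset
  have hX : ∀ χ, χ ∈ X ↔ ∃ r, chr r = χ := fun χ => Set.Finite.mem_toFinset _
  let k : ℂ := Nat.card (commutator G) / Fintype.card G
  let c : G → ℂ := fun g => ∑ χ ∈ X, k * χ 1 * χ g⁻¹ * Φ χ
  have c1 : ∀ g, c g ∈ J := fun g => by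
    let := MulAction.compHom (G → ℂ) (cv (G := G))
    refine sum_orbits (Γ := G →* ℂˣ) J _ X (fun χ hχ ρ => ?_) fun χ hχ => ?_
    · obtain ⟨r, rfl⟩ := (hX χ).1 hχ
      exact (hX _).2 ⟨tw r ρ, chr_tw r ρ⟩
    obtain ⟨r, rfl⟩ := (hX χ).1 hχ
    have h1 := orbit_sum (Γ := G →* ℂˣ) (chr r) fun χ => k * χ 1 * χ g⁻¹ * Φ χ
    have hs : (Nat.card (MulAction.stabilizer (G →* ℂˣ) (chr r)) : ℂ) ≠ 0 :=
      Nat.cast_ne_zero.2 Nat.card_pos.ne'
    have hA := lemA r (MulAction.stabilizer (G →* ℂˣ) (chr r)) (fun σ hσ => hσ) g⁻¹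
    rw [← (div_eq_iff hs).2 (h1.trans (mul_comm _ _))]
    have h2 : ∀ ρ : G →* ℂˣ, k * (ρ • chr r) 1 * (ρ • chr r) g⁻¹ * Φ (ρ • chr r) =
        k * r.n * chr r g⁻¹ * (ρ g⁻¹ * F (tw r ρ)) := fun ρ => by
      change k * (cv ρ * chr r) 1 * (cv ρ * chr r) g⁻¹ * Φ (cv ρ * chr r) = _
      rw [← hΦ, chr_tw, Pi.mul_apply, Pi.mul_apply, cv_apply, cv_apply, map_one, chr_one]
      simp only [Units.val_one]
      ring
    simp only [h2, ← mul_sum]
    convert fourier hJ hA g⁻¹ (ht r) using 1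
    simp only [k]
    ring
  have c2 : ∀ g h, c (h * g * h⁻¹) = c g := fun g h => sum_congr rfl fun χ hχ => by
    obtain ⟨r, rfl⟩ := (hX χ).1 hχ
    rw [← chr_conj r g⁻¹ h]
    congr 3
    group
  have c3 : ∀ g (σ : ℂ ≃+* ℂ), σ (c g) = c g := fun g σ => by
    have hm : ∀ (σ : ℂ ≃+* ℂ), ∀ χ ∈ X, (fun g => σ (χ g)) ∈ X := fun σ χ hχ => by
      obtain ⟨r, rfl⟩ := (hX χ).1 hχ
      exact (hX _).2 ⟨gal r σ, funext (chr_gal r σ)⟩
    rw [map_sum]
    refine sum_nbij' (fun χ g => σ (χ g)) (fun χ g => σ.symm (χ g)) (hm σ) (hm σ.symm)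
      (fun χ _ => by simp) (fun χ _ => by simp) fun χ hχ => ?_
    obtain ⟨r, rfl⟩ := (hX χ).1 hχ
    rw [← funext (chr_gal r σ), hΦ, hΦ, hg, chr_gal, chr_gal]
    simp [k]
  choose z hz using fun g => int_of_fixed (hJ.1 (c1 g)) (c3 g)
  have c4 : ∀ g h, (∀ r, F r ≠ 0 → r.ρ h = 1) → c (g * h) = c g := fun g h H =>
    sum_congr rfl fun χ hχ => by
      obtain ⟨r, rfl⟩ := (hX χ).1 hχ
      rw [hΦ]
      by_cases e : F r = 0
      · rw [e, mul_zero, mul_zero]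
      · have h1 : r.ρ h⁻¹ = 1 := by rw [← mul_one (r.ρ h⁻¹), ← H r e, ← map_mul, inv_mul_cancel, map_one, H r e]
        rw [_root_.mul_inv_rev, chr, chr, map_mul, h1, one_mul]
        rfl
  refine ⟨z, fun g => hz g ▸ c1 g, fun g h => ?_, fun r => ?_, fun g h H => ?_⟩
  · exact_mod_cast (hz _).symm.trans ((c2 g h).trans (hz g))
  swap
  · exact_mod_cast (hz _).symm.trans ((c4 g h H).trans (hz g))
  simp only [← hz, c, sum_mul]
  have h4 : ∀ χ : G → ℂ, ∑ g, k * χ 1 * χ g⁻¹ * Φ χ * chr r g =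
      k * χ 1 * Φ χ * ∑ g, chr r g * χ g⁻¹ := fun χ => by
    rw [mul_sum]
    exact sum_congr rfl fun g _ => by ring
  rw [sum_comm, sum_eq_single (chr r) (fun χ hχ hne => ?_) fun h => absurd ((hX _).2 ⟨r, rfl⟩) h,
    h4, norm_eq, hΦ, chr_one]
  · have := card_ne (G := G)
    simp only [k]
    field_simp
  · obtain ⟨r', rfl⟩ := (hX χ).1 hχ
    rw [h4, orth r r' hne.symm, mul_zero]

theorem assemble {J : AddSubgroup ℂ} (hJ : Idl J) (F : Irr G → ℂ)
    (hc : ∀ r r', chr r = chr r' → F r = F r') (hg : ∀ r σ, F (gal r σ) = σ (F r))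
    (ht : ∀ r, (fun ρ => F (tw r ρ)) ∈ TwI G J) :
    ∃ c : G → ℤ, (∀ g, (c g : ℂ) ∈ J) ∧ (∀ g h, c (h * g * h⁻¹) = c g) ∧
      ∀ r, ∑ g, (c g : ℂ) * chr r g = r.n * (Nat.card (commutator G) * F r) := by
  obtain ⟨c, h1, h2, h3, -⟩ := assemble' hJ F hc hg ht
  exact ⟨c, h1, h2, h3⟩

end Pool.Agent.MP_f3cd89_nt.Tw
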