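import Pool.Agent.Mg.Ff3cd89.G2d40fe

/-! Characters of irreducible matrix representations. -/

set_option autoImplicit false
set_option linter.unusedSectionVars false

open Finset Matrix

namespace Pool.Agent.MP_f3cd89_nt.Tw

variable {G : Type} [Group G]

open Classical in
/-- The extension by zero to `G` of a linear character of a subgroup `U`. -/
noncomputable def ext0 {U : Subgroup G} (ψ : U →* ℂˣ) (g : G) : ℂ :=
  if h : g ∈ U then ((ψ ⟨g, h⟩ : ℂˣ) : ℂ) else 0

/-- `G` is monomial: the character of every irreducible representation is induced from a linear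
character of a subgroup. -/
def IsMonomial (G : Type) [Group G] : Prop :=
  ∀ r : Irr G, ∃ (U : Subgroup G) (ψ : U →* ℂˣ), ∀ g : G,
    (r.ρ g).trace = (∑ᶠ x : G, ext0 ψ (x⁻¹ * g * x)) / (Nat.card U : ℂ)

/-- the character -/
noncomputable def chr (r : Irr G) (g : G) : ℂ := (r.ρ g).trace

section Schur

variable {m : Type} [Fintype m] [DecidableEq m]

theorem surj (r : Irr G) (R : G →* Matrix m m ℂ) {A : Matrix (Fin r.n) m ℂ}
    (h : ∀ g, r.ρ g * A = A * R g) (h0 : A ≠ 0) : ∃ B : Matrix m (Fin r.n) ℂ, A * B = 1 := by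
  rcases r.irr (LinearMap.range A.mulVecLin) (by
    rintro g _ ⟨v, rfl⟩
    exact ⟨R g *ᵥ v, by simp [mulVec_mulVec, h]⟩) with h1 | h1
  · refine absurd ?_ h0
    rw [LinearMap.range_eq_bot] at h1
    ext i j
    have := congrFun (LinearMap.congr_fun h1 (Pi.single j 1)) i
    simpa using this
  · exact mulVec_surjective_iff_exists_right_inverse.1 (LinearMap.range_eq_top.1 h1)

theorem scalar (r : Irr G) {A : Matrix (Fin r.n) (Fin r.n) ℂ} (h : ∀ g, r.ρ g * A = A * r.ρ g) :
    ∃ c : ℂ, A = c • 1 := by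
  have : Nonempty (Fin r.n) := ⟨⟨0, r.pos⟩⟩
  obtain ⟨c, hc⟩ := spectrum.nonempty_of_isAlgClosed_of_finiteDimensional ℂ A
  refine ⟨c, ?_⟩
  by_contra hne
  obtain ⟨B, hB⟩ := surj r r.ρ (A := c • 1 - A) (fun g => by
    rw [mul_sub, sub_mul, h, Matrix.mul_smul, Matrix.smul_mul, mul_one, one_mul])
    (fun e => hne (sub_eq_zero.1 e).symm)
  rw [spectrum.mem_iff, Algebra.algebraMap_eq_smul_one] at hc
  exact hc (IsUnit.of_mul_eq_one B hB)

theorem chr_one (r : Irr G) : chr r 1 = r.n := by simp [chr]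

theorem n_ne (r : Irr G) : (r.n : ℂ) ≠ 0 := Nat.cast_ne_zero.2 r.pos.ne'

theorem tr_conj (R : G →* Matrix m m ℂ) (g h : G) : (R (h * g * h⁻¹)).trace = (R g).trace := by
  rw [map_mul, trace_mul_comm, ← map_mul, inv_mul_cancel_left]

theorem chr_conj (r : Irr G) (g h : G) : chr r (h * g * h⁻¹) = chr r g := tr_conj r.ρ g h

variable [Fintype G]

theorem avg_int {n : Type} [Fintype n] [DecidableEq n] (r : G →* Matrix n n ℂ)
    (R : G →* Matrix m m ℂ) (X : Matrix n m ℂ) (h : G) :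
    r h * ∑ g, r g * X * R g⁻¹ = (∑ g, r g * X * R g⁻¹) * R h := by
  rw [Matrix.mul_sum, Matrix.sum_mul, ← Equiv.sum_comp (Equiv.mulLeft h)
    (fun g => r g * X * R g⁻¹ * R h)]
  refine sum_congr rfl fun g _ => ?_
  change _ = r (h * g) * X * R (h * g)⁻¹ * R h
  rw [Matrix.mul_assoc (r (h * g) * X), ← map_mul, _root_.mul_inv_rev,
    inv_mul_cancel_right, map_mul]
  simp only [Matrix.mul_assoc]

theorem pair_eq {n : Type} [Fintype n] [DecidableEq n] (r : G →* Matrix n n ℂ)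
    (R : G →* Matrix m m ℂ) : ∑ g, (r g).trace * (R g⁻¹).trace =
      ∑ i : n, ∑ k : m, (∑ g, r g * single i k (1 : ℂ) * R g⁻¹ : Matrix n m ℂ) i k := by
  have : ∀ (g : G) (i : n) (k : m), (r g * single i k (1 : ℂ) * R g⁻¹ : Matrix n m ℂ) i k =
      r g i i * R g⁻¹ k k := fun g i k => by
    simp [Matrix.mul_apply, single, ite_and]
  simp only [Matrix.sum_apply, this, trace, diag_apply, sum_mul_sum]
  rw [sum_comm]
  exact sum_congr rfl fun i _ => sum_comm

theorem card_ne : (Fintype.card G : ℂ) ≠ 0 := Nat.cast_ne_zero.2 Fintype.card_ne_zero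

theorem norm_eq (r : Irr G) : ∑ g, chr r g * chr r g⁻¹ = Fintype.card G := by
  have key : ∀ X : Matrix (Fin r.n) (Fin r.n) ℂ, ∑ g, r.ρ g * X * r.ρ g⁻¹ =
      (Fintype.card G * X.trace / r.n) • 1 := fun X => by
    obtain ⟨c, hc⟩ := scalar r (avg_int r.ρ r.ρ X)
    have h1 := congrArg trace hc
    have h2 : ∀ g, (r.ρ g * X * r.ρ g⁻¹).trace = X.trace := fun g => by
      rw [trace_mul_comm, ← Matrix.mul_assoc, ← map_mul, inv_mul_cancel, map_one, one_mul]
    simp only [trace_sum, h2, sum_const, card_univ, nsmul_eq_mul, trace_smul, trace_one,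
      Fintype.card_fin, smul_eq_mul] at h1
    rw [hc, h1, mul_div_cancel_right₀ _ (n_ne r)]
  unfold chr
  rw [pair_eq]
  have h3 : ∀ i k : Fin r.n, ((Fintype.card G * (single i k (1 : ℂ)).trace / r.n) •
      (1 : Matrix (Fin r.n) (Fin r.n) ℂ)) i k =
      if i = k then (Fintype.card G / r.n : ℂ) else 0 := fun i k => by
    split_ifs with h
    · subst h
      simp
    · simp [one_apply_ne h]
  simp only [key, h3, sum_ite_eq, mem_univ, if_true, sum_const, card_univ, Fintype.card_fin,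
    nsmul_eq_mul]
  exact mul_div_cancel₀ _ (n_ne r)

theorem exists_int (r : Irr G) (R : G →* Matrix m m ℂ)
    (h : ∑ g, chr r g * (R g⁻¹).trace ≠ 0) : ∃ (A : Matrix (Fin r.n) m ℂ)
      (B : Matrix m (Fin r.n) ℂ), (∀ g, r.ρ g * A = A * R g) ∧ A * B = 1 := by
  unfold chr at h
  rw [pair_eq] at h
  obtain ⟨i, -, hi⟩ := exists_ne_zero_of_sum_ne_zero h
  obtain ⟨k, -, hk⟩ := exists_ne_zero_of_sum_ne_zero hi
  obtain ⟨B, hB⟩ := surj r R (avg_int r.ρ R (single i k 1)) fun e => hk (by rw [e]; rfl)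
  exact ⟨_, B, avg_int r.ρ R _, hB⟩

theorem iso_of (r : Irr G) (R : G →* Matrix m m ℂ) (h : ∑ g, chr r g * (R g⁻¹).trace ≠ 0)
    (hc : r.n = Fintype.card m) : ∃ (A : Matrix (Fin r.n) m ℂ) (B : Matrix m (Fin r.n) ℂ),
      A * B = 1 ∧ B * A = 1 ∧ ∀ g, r.ρ g = A * R g * B := by
  obtain ⟨A, B, h1, h2⟩ := exists_int r R h
  refine ⟨A, B, h2, (mul_eq_one_comm_of_equiv (Fintype.equivFinOfCardEq hc.symm).symm).1 h2,
    fun g => ?_⟩
  rw [← h1, Matrix.mul_assoc, h2, Matrix.mul_one]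

theorem iso (r : Irr G) (R : G →* Matrix m m ℂ) (h : ∀ g, (R g).trace = chr r g) :
    ∃ (A : Matrix (Fin r.n) m ℂ) (B : Matrix m (Fin r.n) ℂ),
      A * B = 1 ∧ B * A = 1 ∧ ∀ g, r.ρ g = A * R g * B := by
  refine iso_of r R (by simp only [h, norm_eq]; exact card_ne) ?_
  have := h 1
  rw [chr_one, map_one, trace_one] at this
  exact_mod_cast this.symm

theorem orth (r r' : Irr G) (h : chr r ≠ chr r') : ∑ g, chr r g * chr r' g⁻¹ = 0 := by
  by_contra h0
  have le : ∀ r r' : Irr G, ∑ g, chr r g * chr r' g⁻¹ ≠ 0 → r.n ≤ r'.n := fun r r' h => by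
    obtain ⟨A, B, -, h2⟩ := exists_int r r'.ρ h
    have h3 := (rank_mul_le_left A B).trans (rank_le_card_width A)
    rwa [h2, rank_one, Fintype.card_fin, Fintype.card_fin] at h3
  have h1 : ∑ g, chr r' g * chr r g⁻¹ ≠ 0 := by
    rw [← Equiv.sum_comp (Equiv.inv G)]
    simpa only [Equiv.inv_apply, inv_inv, mul_comm] using h0
  obtain ⟨A, B, -, h3, h4⟩ := iso_of r r'.ρ h0
    (by rw [Fintype.card_fin]; exact le_antisymm (le _ _ h0) (le _ _ h1))
  refine h (funext fun g => ?_)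
  rw [chr, h4, trace_mul_comm, ← Matrix.mul_assoc, h3, Matrix.one_mul, chr]

theorem finite_chr : (Set.range (chr (G := G))).Finite := by
  refine LinearIndependent.setFinite (R := ℂ) (linearIndependent_iff'.2 fun s c h i hi => ?_)
  obtain ⟨r, hr⟩ := i.2
  have h1 : ∑ g, (∑ j ∈ s, c j • (j : G → ℂ)) g * chr r g⁻¹ = 0 := by
    rw [h]
    simp
  simp only [Finset.sum_apply, Pi.smul_apply, smul_eq_mul, sum_mul, mul_assoc] at h1
  rw [sum_comm, sum_eq_single i (fun j _ hj => ?_) fun h => absurd hi h, ← mul_sum, ← hr,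
    norm_eq] at h1
  · exact (mul_eq_zero.1 h1).resolve_right card_ne
  · obtain ⟨r', hr'⟩ := j.2
    rw [← mul_sum, ← hr', orth r' r fun e => hj (Subtype.ext (by rw [← hr', e, hr])), mul_zero]

theorem conv (r : Irr G) (x y : G) :
    ∑ b, chr r (x * b) * chr r (b⁻¹ * y) = Fintype.card G / r.n * chr r (x * y) := by
  obtain ⟨c, hc⟩ := scalar r (A := ∑ b, chr r b⁻¹ • r.ρ b) fun g => by
    rw [Matrix.mul_sum, Matrix.sum_mul, ← Equiv.sum_comp (MulAut.conj g).toEquiv
      (fun b => (chr r b⁻¹ • r.ρ b) * r.ρ g)]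
    refine sum_congr rfl fun b _ => ?_
    change _ = (chr r (g * b * g⁻¹)⁻¹ • r.ρ (g * b * g⁻¹)) * r.ρ g
    rw [Matrix.smul_mul, Matrix.mul_smul, ← map_mul, ← map_mul, inv_mul_cancel_right,
      ← chr_conj r b⁻¹ g]
    congr 2
    group
  have h1 : ∀ z, ∑ b, chr r (z * b) * chr r b⁻¹ = c * chr r z := fun z => by
    have := congrArg (fun X => (r.ρ z * X).trace) hc
    simp only [Matrix.mul_sum, Matrix.mul_smul, trace_sum, trace_smul, ← map_mul, smul_eq_mul,
      mul_one] at this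
    rw [chr, ← this]
    exact sum_congr rfl fun b _ => mul_comm _ _
  have h2 := h1 1
  simp only [one_mul, norm_eq, chr_one] at h2
  rw [h2, mul_div_cancel_right₀ _ (n_ne r), ← h1, ← Equiv.sum_comp (Equiv.mulLeft y)]
  refine sum_congr rfl fun b _ => ?_
  change chr r (x * (y * b)) * chr r ((y * b)⁻¹ * y) = _
  rw [mul_assoc, _root_.mul_inv_rev, inv_mul_cancel_right]

end Schur

theorem tr_int {m : Type} [Fintype m] [DecidableEq m] {A : Matrix m m ℂ} {k : ℕ} (hk : 0 < k)
    (h : A ^ (k + 1) = A) : IsIntegral ℤ A.trace := by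
  rw [trace_eq_sum_roots_charpoly]
  refine IsIntegral.multiset_sum fun μ hμ => ?_
  have h1 : μ ∈ spectrum ℂ A :=
    mem_spectrum_iff_isRoot_charpoly.2 (Polynomial.isRoot_of_mem_roots hμ)
  have h2 := spectrum.subset_polynomial_aeval A (Polynomial.X ^ (k + 1) - Polynomial.X)
    ⟨μ, h1, rfl⟩
  simp only [map_sub, map_pow, Polynomial.aeval_X, h, sub_self, Polynomial.eval_sub,
    Polynomial.eval_pow, Polynomial.eval_X] at h2
  have h3 : μ ^ (k + 1) - μ = 0 := by
    by_contra e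
    rw [spectrum.mem_iff, sub_zero] at h2
    exact h2 ((Ne.isUnit e).map _)
  refine ⟨Polynomial.X ^ (k + 1) - Polynomial.X, ?_, by simpa using h3⟩
  exact Polynomial.monic_X_pow_sub (by
    rw [Polynomial.degree_X]
    exact_mod_cast Nat.succ_lt_succ hk)

theorem lemA' [Fintype G] (r : Irr G) (N : Subgroup G) (hN : ∀ b, b ∉ N → chr r b = 0) (g : G) :
    IsIntegral ℤ (r.n * chr r g * Nat.card N / Fintype.card G) := by
  classical
  by_cases hg : g ∈ N
  swap
  · rw [hN g hg, mul_zero, zero_mul, zero_div]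
    exact isIntegral_zero
  let E : G → Matrix N N ℂ := fun g => of fun a b =>
    r.n / Fintype.card G * chr r ((a : G)⁻¹ * g * b)
  have mul : ∀ g ∈ N, ∀ h, E g * E h = E (g * h) := fun g hg h => by
    ext a d
    have h1 : ∑ b : N, chr r ((a : G)⁻¹ * g * b) * chr r ((b : G)⁻¹ * (h * d)) =
        ∑ b : G, chr r ((a : G)⁻¹ * g * b) * chr r (b⁻¹ * (h * d)) := by
      rw [← sum_subtype (univ.filter (· ∈ N)) (by simp)
        (fun b => chr r ((a : G)⁻¹ * g * b) * chr r (b⁻¹ * (h * d))), sum_filter_of_ne]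
      intro b _ hb
      by_contra e
      exact hb (by
        rw [hN _ fun e' => e ((N.mul_mem_cancel_left (mul_mem (inv_mem a.2) hg)).1 e'), zero_mul])
    rw [conv] at h1
    simp only [E, Matrix.mul_apply, of_apply]
    simp only [mul_mul_mul_comm (r.n / Fintype.card G : ℂ), ← mul_sum]
    simp only [mul_assoc] at h1 ⊢
    rw [h1]
    have := n_ne r
    have := card_ne (G := G)
    field_simp
  have pw : ∀ k : ℕ, E g ^ (k + 1) = E (g ^ (k + 1)) := fun k => by
    induction k with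
    | zero => simp
    | succ k ih => rw [pow_succ', ih, mul g hg, ← pow_succ']
  have h2 := tr_int (A := E g) (orderOf_pos g) (by rw [pw, pow_succ, pow_orderOf_eq_one, one_mul])
  have h3 : ∀ a : N, chr r ((a : G)⁻¹ * g * a) = chr r g := fun a => by
    simpa using chr_conj r g (a : G)⁻¹
  simp only [E, trace, diag_apply, of_apply, h3, sum_const, card_univ, nsmul_eq_mul] at h2
  rw [Nat.card_eq_fintype_card]
  convert h2 using 1
  ring

end Pool.Agent.MP_f3cd89_nt.Tw
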