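import Pool.Agent.MP_f3cd89_nt.Tw.Ver

/-! Clifford theory for groups with abelian commutator subgroup. -/

set_option autoImplicit false
set_option linter.unusedSectionVars false

open Finset Matrix

namespace Pool.Agent.MP_f3cd89_nt.Tw

variable {G : Type} [Group G] [Fintype G]

theorem dt_ind {Q P : ((G → ℂ) → ℂ) → Prop} (hQ : ∀ D D', Q (D * D') → Q D ∧ Q D') (h1 : P 1)
    (hm : ∀ D D', P D → P D' → P (D * D')) (hi : ∀ r : Irr G, Q (dt r.ρ) → P (dt r.ρ)) (n : ℕ) :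
    ∀ (m : Type) [Fintype m] [DecidableEq m] (R : G →* Matrix m m ℂ), Fintype.card m = n →
      Q (dt R) → P (dt R) := by
  induction n using Nat.strong_induction_on with
  | h n ih =>
    intro m _ _ R hn hR
    rcases isEmpty_or_nonempty m with h0 | h0
    · rwa [show dt R = 1 from funext fun c => det_isEmpty]
    by_cases h : ∀ W : Submodule ℂ (m → ℂ), (∀ g, ∀ v ∈ W, R g *ᵥ v ∈ W) → W = ⊥ ∨ W = ⊤
    · obtain ⟨r, hr⟩ := mk_irr R h
      rw [← dt_iso r R hr] at hR ⊢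
      exact hi r hR
    · push Not at h
      obtain ⟨W, h2, h3, h4⟩ := h
      obtain ⟨a, b, R₁, R₂, ha, hb, e⟩ := split R W h2 h3 h4
      rw [e] at hR ⊢
      exact hm _ _ (ih a (hn ▸ ha) _ R₁ (Fintype.card_fin a) (hQ _ _ hR).1)
        (ih b (hn ▸ hb) _ R₂ (Fintype.card_fin b) (hQ _ _ hR).2)

theorem faith {a : G → ℂ} (h : ∀ r : Irr G, ∑ g, a g • r.ρ g = 0) (k : G) : a k = 0 := by
  classical
  have key : ∀ {m : Type} [Fintype m] [DecidableEq m] (R : G →* Matrix m m ℂ) (t : ℂ),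
      dt R (Pi.single 1 1 + t • fun g => a (g * k)) = (1 + t • ∑ g, a (g * k) • R g).det := by
    intro m _ _ R t
    simp [dt, add_smul, sum_add_distrib, Pi.single_apply, ite_smul, smul_sum, smul_smul]
  have h1 := dt_ind (Q := fun _ => True)
    (P := fun D => ∀ t : ℂ, D (Pi.single 1 1 + t • fun g => a (g * k)) = 1) (by simp) (by simp)
    (fun D D' e e' t => by rw [Pi.mul_apply, e, e', one_mul]) (fun r _ t => by
      have h2 : ∑ g, a (g * k) • r.ρ g = (∑ g, a g • r.ρ g) * r.ρ k⁻¹ := by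
        rw [Matrix.sum_mul, ← Equiv.sum_comp (Equiv.mulRight k) fun g => (a g • r.ρ g) * r.ρ k⁻¹]
        simp [← map_mul]
      rw [key, h2, h, Matrix.zero_mul, smul_zero, add_zero, det_one]) _ _
    (Mat (1 : (⊥ : Subgroup G) →* ℂˣ)) rfl trivial
  set M := ∑ g, a (g * k) • Mat (1 : (⊥ : Subgroup G) →* ℂˣ) g with hM
  have h3 : (1 + (Polynomial.X : Polynomial ℂ) • M.map Polynomial.C).det = 1 :=
    Polynomial.funext fun t => by
      have h4 := (Polynomial.evalRingHom t).map_det (1 + (Polynomial.X : Polynomial ℂ) •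
        M.map Polynomial.C)
      rw [Polynomial.eval_one, ← h1 t, key]
      refine h4.trans ?_
      rw [← hM]
      congr 1
      ext i j
      simp only [RingHom.mapMatrix_apply, map_apply, Matrix.add_apply, Matrix.smul_apply, one_apply,
        smul_eq_mul, map_add, Polynomial.eval_mul, Polynomial.coe_evalRingHom, Polynomial.eval_X,
        Polynomial.eval_C, apply_ite (Polynomial.eval t), Polynomial.eval_one, Polynomial.eval_zero]
  have h5 := coeff_det_one_add_X_smul_one M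
  rw [h3, Polynomial.coeff_one, if_neg one_ne_zero, hM, trace_sum, sum_eq_single 1 (fun g _ hg => ?_)
    fun e => absurd (mem_univ _) e, map_one, trace_smul, trace_one, one_mul] at h5
  · exact (mul_eq_zero.1 h5.symm).resolve_right (Nat.cast_ne_zero.2 Fintype.card_ne_zero)
  · rw [trace_smul, trace, sum_eq_zero fun b _ => ?_, smul_zero]
    exact ext0_not _ fun e => hg (by simpa [mul_assoc, inv_mul_eq_one] using e)

theorem ext_lin {U : Subgroup G} (ψ : U →* ℂˣ) (h : ∀ u : U, (u : G) ∈ commutator G → ψ u = 1) :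
    ∃ ρ : G →* ℂˣ, ρ.comp U.subtype = ψ := by
  let f : U →* Abelianization G := Abelianization.of.comp U.subtype
  have hker : f.rangeRestrict.ker ≤ ψ.ker := fun u hu => by
    rw [MonoidHom.ker_rangeRestrict] at hu
    exact h u (Abelianization.ker_of G ▸ hu)
  obtain ⟨ρ, hρ⟩ := MonoidHom.domRestrict_surjective ℂ f.range
    (f.rangeRestrict.liftOfSurjective f.rangeRestrict_surjective ⟨_, hker⟩)
  exact ⟨ρ.comp Abelianization.of, MonoidHom.ext fun u => (DFunLike.congr_fun hρ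
    (f.rangeRestrict u)).trans (MonoidHom.liftOfRightInverse_comp_apply _ _ _ _ u)⟩

theorem lin_comm (ρ : G →* ℂˣ) {c : G} (hc : c ∈ commutator G) : ρ c = 1 :=
  Abelianization.commutator_subset_ker ρ hc

theorem van {K : Type} [Field K] [NumberField K] {S T : Finset (Pr K)} {φ : Pr K → G} {x : G → ℤ}
    (hm : IsMonomial G) (hL : Lev S φ T ⊤) (hx : ∀ ψ : (⊤ : Subgroup G) →* ℂˣ,
      sv S φ T (dt (Mat ψ)) = dt (Mat ψ) (zc x)) {U : Subgroup G} (hU : commutator G ≤ U)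
    (ρ : G →* ℂˣ) : sv S φ T (dt (Mat (ρ.comp U.subtype))) = dt (Mat (ρ.comp U.subtype)) (zc x) := by
  refine (dt_ind (Q := fun D => ∀ c ∈ commutator G, ∀ t, D (eul c t) = 0 → t = 1)
    (P := fun D => (∃ c, LV S φ D c) ∧ sv S φ T D = D (zc x))
    (fun D D' h => ⟨fun c hc t e => h c hc t (by rw [Pi.mul_apply, e, zero_mul]),
      fun c hc t e => h c hc t (by rw [Pi.mul_apply, e, mul_zero])⟩)
    ⟨⟨1, lv_one⟩, by simp [sv, del, lv_one.val_eq]⟩ ?_ (fun r hr => ?_) _ _ _ rfl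
    fun c hc t e => ?_).2
  · rintro D D' ⟨⟨c, hc⟩, e⟩ ⟨⟨c', hc'⟩, e'⟩
    refine ⟨⟨_, hc.mul hc'⟩, ?_⟩
    rw [Pi.mul_apply, ← e, ← e', sv, sv, sv, (hc.mul hc').val_eq, hc.val_eq, hc'.val_eq]
    simp only [del, Pi.mul_apply, prod_mul_distrib]
    ring
  · obtain ⟨W, ψ, -, h⟩ := ind_data hm (j := 1) (by simp) r
    rw [dt_iso r _ h] at hr ⊢
    obtain ⟨σ, rfl⟩ := ext_lin ψ fun u hu => by
      have h1 := hr u hu (ψ u⁻¹ : ℂˣ) (by
        rw [dt_eul]
        refine det_eq_zero_of_column_eq_zero ((1 : G) : G ⧸ W) fun a => ?_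
        by_cases ha : a = ((1 : G) : G ⧸ W)
        · simp [ha, mat_oo, ext0_coe]
        · rw [Matrix.sub_apply, one_apply_ne ha, Matrix.smul_apply, mat_zero fun e => ha
            (e.trans (QuotientGroup.eq.2 (by simp))), smul_zero, sub_zero])
      simpa using h1
    obtain rfl : W = ⊤ := (Subgroup.eq_top_iff' W).2 fun g => by
      by_contra hg
      obtain ⟨u, h1, h2, h3⟩ := mackey r h (b := (g : G ⧸ W)) fun e =>
        hg (by simpa using QuotientGroup.eq.1 e.symm)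
      exact h3 (by rw [ext0_mem _ h1, ext0_mem _ h2]; simp)
    exact ⟨hL.1 _, hx _⟩
  · have h1 : Mat (ρ.comp U.subtype) c = 1 := by
      ext a b
      have h2 : a.out⁻¹ * c * a.out ∈ commutator G := by
        simpa using (inferInstance : (commutator G).Normal).conj_mem c hc a.out⁻¹
      rw [← map_one (Mat (ρ.comp U.subtype)), mat_apply, mat_apply,
        show a.out⁻¹ * c * b.out = (a.out⁻¹ * c * a.out) * (a.out⁻¹ * 1 * b.out) by group,
        ext0_mul _ (hU h2), ext0_mem _ (hU h2), show (ρ.comp U.subtype) ⟨_, hU h2⟩ = 1 from lin_comm ρ h2, Units.val_one,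
        one_mul]
    rw [dt_eul, h1, ← one_smul ℂ (1 : Matrix (G ⧸ U) (G ⧸ U) ℂ), smul_smul, ← sub_smul, det_smul,
      det_one, mul_one, mul_one] at e
    exact (sub_eq_zero.1 (pow_eq_zero_iff Fintype.card_ne_zero |>.1 e)).symm

/-- characters of the commutator subgroup -/
abbrev Ch (G : Type) [Group G] : Type := commutator G →* ℂˣ

noncomputable instance finC : Fintype (Ch G) := Fintype.ofFinite _

/-- the stabiliser of a character -/
def Tst (l : Ch G) : Subgroup G where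
  carrier := {h | cj l h = l}
  one_mem' := by
    change cj l 1 = l
    ext u
    rw [← ext0_coe, ← ext0_coe, ext0_cj]
    simp
  mul_mem' := fun {a b} ha hb => by
    change cj l _ = l at *
    ext u
    rw [← ext0_coe, ← ext0_coe, ext0_cj, _root_.mul_inv_rev, show b⁻¹ * a⁻¹ * u * (a * b) =
      b⁻¹ * (a⁻¹ * u * a) * b by group, ← ext0_cj, hb, ← ext0_cj, ha]
  inv_mem' := fun {a} ha => by
    change cj l _ = l at *
    ext u
    rw [← ext0_coe, ← ext0_coe, ext0_cj]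
    nth_rw 1 [← ha]
    rw [ext0_cj]
    congr 1
    group

theorem tst_ap {l : Ch G} {h : G} (hh : h ∈ Tst l) (g : G) : ext0 l (h⁻¹ * g * h) = ext0 l g := by
  rw [← ext0_cj, show cj l h = l from hh]

theorem cm_mem (a b : G) : a⁻¹ * (b⁻¹ * a * b) ∈ commutator G := by
  have : a⁻¹ * b⁻¹ * a⁻¹⁻¹ * b⁻¹⁻¹ ∈ commutator G := Subgroup.commutator_mem_commutator
    (Subgroup.mem_top a⁻¹) (Subgroup.mem_top b⁻¹)
  simpa [mul_assoc] using this

theorem mem_tst {l : Ch G} {h : G} :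
    h ∈ Tst l ↔ ∀ c ∈ commutator G, ext0 l (c⁻¹ * (h⁻¹ * c * h)) = 1 := by
  refine ⟨fun hh c hc => ?_, fun H => MonoidHom.ext fun u => Units.ext ?_⟩
  · rw [ext0_mul l (inv_mem hc), tst_ap hh, ← ext0_mul l (inv_mem hc), inv_mul_cancel, ext0_one]
  · rw [← ext0_coe, ← ext0_coe, ext0_cj, ← mul_one (ext0 l u), ← H u u.2, ← ext0_mul l u.2,
      mul_inv_cancel_left]

/-- subgroups that contain the commutator subgroup and have all commutators in `X` -/
def Adm (X : Set G) (U : Subgroup G) : Prop :=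
  commutator G ≤ U ∧ ∀ a ∈ U, ∀ b ∈ U, a⁻¹ * (b⁻¹ * a * b) ∈ X

/-- the kernel as a set -/
def kr (l : Ch G) : Set G := {g | ext0 l g = 1}

theorem Adm.le {l : Ch G} {U : Subgroup G} (h : Adm (kr l) U) : U ≤ Tst l :=
  fun b hb => mem_tst.2 fun c hc => h.2 c (h.1 hc) b hb

theorem Adm.normal {X : Set G} {U : Subgroup G} (h : Adm X U) : U.Normal :=
  Subgroup.Normal.of_commutator_le G h.1

theorem adm_ext {l : Ch G} {U : Subgroup G} (h : Maximal (Adm (kr l)) U) {g : G}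
    (hg : ∀ u ∈ U, u⁻¹ * (g⁻¹ * u * g) ∈ kr l) : g ∈ U := by
  let Z : G → Subgroup G := fun a =>
    { carrier := {b | b ∈ Tst l ∧ ext0 l (a⁻¹ * (b⁻¹ * a * b)) = 1}
      one_mem' := ⟨one_mem _, by simp [ext0_one]⟩
      mul_mem' := fun {b c} hb hc => ⟨mul_mem hb.1 hc.1, by
        rw [show a⁻¹ * ((b * c)⁻¹ * a * (b * c)) =
          a⁻¹ * (c⁻¹ * a * c) * (c⁻¹ * (a⁻¹ * (b⁻¹ * a * b)) * c) by group,
          ext0_mul l (cm_mem a c), tst_ap hc.1, hb.2, hc.2, one_mul]⟩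
      inv_mem' := fun {b} hb => ⟨inv_mem hb.1, by
        have h1 := ext0_mul' l (b⁻¹ * (a⁻¹ * (b⁻¹⁻¹ * a * b⁻¹)) * b) (cm_mem a b)
        rw [hb.2, mul_one, tst_ap hb.1] at h1
        rw [← h1, ← ext0_one l]
        congr 1
        group⟩ }
  have sym : ∀ a b, ext0 l (a⁻¹ * (b⁻¹ * a * b)) = 1 → ext0 l (b⁻¹ * (a⁻¹ * b * a)) = 1 :=
    fun a b e => by
      have h1 := ext0_mul' l (b⁻¹ * (a⁻¹ * b * a)) (cm_mem a b)
      rw [e, mul_one] at h1
      rw [← h1, ← ext0_one l]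
      congr 1
      group
  have hT : g ∈ Tst l := mem_tst.2 fun c hc => hg c (h.1.1 hc)
  have h1 : ∀ a, a ∈ U ∨ a = g → U ⊔ Subgroup.zpowers g ≤ Z a := fun a ha =>
    sup_le (fun b hb => ⟨h.1.le hb, ha.elim (fun ha => h.1.2 a ha b hb)
      fun e => e ▸ sym _ _ (hg b hb)⟩) (Subgroup.zpowers_le.2 ⟨hT, ha.elim (hg a)
        fun e => by simp [e, ext0_one]⟩)
  have h2 : Adm (kr l) (U ⊔ Subgroup.zpowers g) := ⟨h.1.1.trans le_sup_left, fun a ha b hb =>
    (sup_le (fun b hb => ⟨h.1.le hb, sym _ _ (h1 b (Or.inl hb) ha).2⟩)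
      (Subgroup.zpowers_le.2 ⟨hT, sym _ _ (h1 g (Or.inr rfl) ha).2⟩) :
        U ⊔ Subgroup.zpowers g ≤ Z a) hb |>.2⟩
  exact h.2 h2 le_sup_left (Subgroup.mem_sup_right (Subgroup.mem_zpowers g))

/-- a maximal admissible subgroup -/
noncomputable def Um (X : Set G) : Subgroup G := Classical.epsilon (Maximal (Adm X))

theorem um_max (hC : ∀ a ∈ commutator G, ∀ b ∈ commutator G, a * b = b * a) (l : Ch G) :
    Maximal (Adm (kr l)) (Um (kr l)) := by
  refine Classical.epsilon_spec (p := Maximal (Adm (kr l))) ?_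
  obtain ⟨U, -, hU⟩ := Finite.exists_le_maximal (p := Adm (kr l)) (a := commutator G)
    ⟨le_rfl, fun a ha b hb => by
      rw [mul_assoc, hC a ha b hb, inv_mul_cancel_left, inv_mul_cancel]
      exact ext0_one l⟩
  exact ⟨U, hU⟩

/-- the projector -/
noncomputable def EE (r : Irr G) (l : Ch G) : Matrix (Fin r.n) (Fin r.n) ℂ :=
  ∑ g, ext0 l g⁻¹ • r.ρ g

theorem cliff {l : Ch G} {U : Subgroup G} (hU : Maximal (Adm (kr l)) U) (r : Irr G)
    (h : EE r l ≠ 0) : ∃ (ψ : U →* ℂˣ) (A : Matrix (Fin r.n) (G ⧸ U) ℂ)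
      (B : Matrix (G ⧸ U) (Fin r.n) ℂ), A * B = 1 ∧ B * A = 1 ∧ ∀ g, r.ρ g = A * Mat ψ g * B := by
  classical
  have := hU.1.normal
  let W : Submodule ℂ (Fin r.n → ℂ) :=
    { carrier := {v | ∀ c ∈ commutator G, r.ρ c *ᵥ v = ext0 l c • v}
      add_mem' := fun {v w} hv hw c hc => by rw [mulVec_add, hv c hc, hw c hc, smul_add]
      zero_mem' := fun c _ => by simp
      smul_mem' := fun a v hv c hc => by rw [mulVec_smul, hv c hc, smul_comm] }
  have hW : ∀ u : U, ∀ v ∈ W, (r.ρ u).mulVecLin v ∈ W := fun u v hv c hc => by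
    have h1 : (u : G)⁻¹ * c * u ∈ commutator G := by
      simpa using (inferInstance : (commutator G).Normal).conj_mem c hc (u : G)⁻¹
    rw [mulVecLin_apply, mulVec_mulVec, ← map_mul, show c * u = u * ((u : G)⁻¹ * c * u) by group,
      map_mul, ← mulVec_mulVec, hv _ h1, tst_ap (hU.1.le u.2), mulVec_smul]
  have h0 : W ≠ ⊥ := fun e => h (ext_iff_mulVec.2 fun v => by
    rw [zero_mulVec, ← Submodule.mem_bot ℂ, ← e]
    intro c hc
    rw [mulVec_mulVec, ← smul_mulVec, EE, Matrix.mul_sum, smul_sum,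
      ← Equiv.sum_comp (Equiv.mulLeft c) fun g => ext0 l c • ext0 l g⁻¹ • r.ρ g]
    congr 1
    refine sum_congr rfl fun g _ => ?_
    rw [Matrix.mul_smul, ← map_mul, smul_smul, Equiv.coe_mulLeft, _root_.mul_inv_rev, mul_comm,
      ← ext0_mul' l _ hc, inv_mul_cancel_right])
  have := Submodule.nontrivial_iff_ne_bot.2 h0
  obtain ⟨v, v0, hv⟩ := CliffX.joint (V := W) (fun u : U => (r.ρ u).mulVecLin.restrict (hW u))
    fun a b v => Subtype.ext (by
      change r.ρ a *ᵥ r.ρ b *ᵥ (v : Fin r.n → ℂ) = r.ρ b *ᵥ r.ρ a *ᵥ (v : Fin r.n → ℂ)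
      rw [mulVec_mulVec, mulVec_mulVec, ← map_mul, ← map_mul, show (a : G) * b =
        b * a * ((a : G)⁻¹ * ((b : G)⁻¹ * a * b)) by group, map_mul _ (_ * _), ← mulVec_mulVec,
        v.2 _ (cm_mem _ _), show ext0 l _ = 1 from hU.1.2 a a.2 b b.2, one_smul])
  choose c hc using hv
  have hc' : ∀ u : U, r.ρ u *ᵥ (v : Fin r.n → ℂ) = c u • (v : Fin r.n → ℂ) :=
    fun u => congrArg Subtype.val (hc u)
  have v1 : (v : Fin r.n → ℂ) ≠ 0 := fun e => v0 (Subtype.ext e)
  let χ : U →* ℂ :=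
    { toFun := c
      map_one' := smul_left_injective ℂ v1 (by
        change c 1 • (v : Fin r.n → ℂ) = (1 : ℂ) • (v : Fin r.n → ℂ)
        rw [← hc']
        simp)
      map_mul' := fun a b => smul_left_injective ℂ v1 (by
        change c (a * b) • (v : Fin r.n → ℂ) = (c a * c b) • (v : Fin r.n → ℂ)
        rw [← hc', Subgroup.coe_mul, map_mul, ← mulVec_mulVec, hc', mulVec_smul, hc', smul_smul,
          mul_comm]) }
  obtain ⟨ψ, hψ⟩ : ∃ ψ : U →* ℂˣ, ∀ g ∈ U,
      r.ρ g *ᵥ (v : Fin r.n → ℂ) = ext0 ψ g • (v : Fin r.n → ℂ) :=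
    ⟨χ.toHomUnits, fun g hg => by
      rw [ext0_mem _ hg]
      exact hc' ⟨g, hg⟩⟩
  have hl : ∀ g ∈ commutator G, ext0 ψ g = ext0 l g := fun g hg =>
    smul_left_injective ℂ v1 ((hψ g (hU.1.1 hg)).symm.trans (v.2 g hg))
  let A : Matrix (Fin r.n) (G ⧸ U) ℂ := of fun i b => (r.ρ b.out *ᵥ (v : Fin r.n → ℂ)) i
  have hA : ∀ g, r.ρ g * A = A * Mat ψ g := fun g => by
    ext i b
    rw [Matrix.mul_apply (M := A), sum_eq_single (g • b) (fun a _ ha => by
      rw [mat_zero ha, mul_zero]) (by simp)]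
    change (r.ρ g *ᵥ r.ρ b.out *ᵥ (v : Fin r.n → ℂ)) i = _
    rw [mulVec_mulVec, ← map_mul, show g * b.out = (g • b).out * ((g • b).out⁻¹ * g * b.out) by
      group, map_mul, ← mulVec_mulVec, hψ _ ((mem_iff g _ b).2 rfl), mulVec_smul, Pi.smul_apply,
      smul_eq_mul, mul_comm]
    rfl
  have col : ∀ b : G ⧸ U, r.ρ b.out *ᵥ (v : Fin r.n → ℂ) ≠ 0 := fun b e => v1 (by
    rw [← one_mulVec (v : Fin r.n → ℂ), ← map_one r.ρ, ← inv_mul_cancel b.out, map_mul,
      ← mulVec_mulVec, e, mulVec_zero])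
  obtain ⟨B, hB⟩ := surj r (Mat ψ) hA fun e => col ((1 : G) : G ⧸ U) (funext fun i =>
    congrFun (congrFun e i) _)
  have inj : ∀ x : G ⧸ U → ℂ, A *ᵥ x = 0 → x = 0 := fun x hx => funext fun a => by
    have h1 : ∑ u : U, ((cj ψ a.out u⁻¹ : ℂˣ) : ℂ) • Mat ψ u =
        (Fintype.card U : ℂ) • single a a 1 := by
      ext b d
      simp only [Matrix.sum_apply, Matrix.smul_apply, smul_eq_mul]
      by_cases hbd : b = d
      swap
      · rw [single_apply_of_ne _ _ _ _ _ fun e => hbd (e.1.symm.trans e.2), mul_zero]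
        refine sum_eq_zero fun u _ => ?_
        rw [mat_zero fun e => hbd ?_, mul_zero]
        rw [e, smul_q, (QuotientGroup.eq_one_iff _).2 u.2, one_mul]
      subst hbd
      simp only [mat_apply, ← ext0_cj, ext0_coe]
      by_cases hab : a = b
      · simp [hab]
      rw [single_apply_of_row_ne hab, mul_zero]
      refine (sum_congr rfl fun u _ => ?_).trans (sum_hom_units_eq_zero
        ((Units.coeHom ℂ).comp ((cj ψ a.out)⁻¹ * cj ψ b.out)) fun e => hab ?_)
      · simp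
      rw [← QuotientGroup.out_eq' a, ← QuotientGroup.out_eq' b, QuotientGroup.eq]
      refine adm_ext hU fun u hu => ?_
      have h2 : a.out * u * a.out⁻¹ ∈ U := ‹U.Normal›.conj_mem u hu _
      have h3 := DFunLike.congr_fun e ⟨_, h2⟩
      rw [MonoidHom.comp_apply, Units.coeHom_apply, MonoidHom.mul_apply, MonoidHom.inv_apply,
        MonoidHom.one_apply, ← map_inv, Units.val_mul, ← ext0_coe, ← ext0_coe, ext0_cj, ext0_cj] at h3
      change ext0 l _ = 1
      rw [← hl _ (cm_mem _ _), ext0_mul ψ (inv_mem hu), ← h3]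
      congr 2 <;> simp [mul_assoc]
    have h2 : A *ᵥ (∑ u : U, ((cj ψ a.out u⁻¹ : ℂˣ) : ℂ) • Mat ψ u) *ᵥ x = 0 := by
      simp only [sum_mulVec, mulVec_sum, smul_mulVec, mulVec_smul]
      refine sum_eq_zero fun u _ => ?_
      rw [mulVec_mulVec, ← hA, ← mulVec_mulVec, hx, mulVec_zero, smul_zero]
    rw [h1, smul_mulVec, mulVec_smul, single_mulVec, smul_eq_zero, one_mul] at h2
    by_contra e
    refine col a (funext fun i => ?_)
    have h3 := congrFun (h2.resolve_left (Nat.cast_ne_zero.2 Fintype.card_ne_zero)) i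
    rw [show Function.update (0 : G ⧸ U → ℂ) a (x a) = Pi.single a (x a) from rfl,
      mulVec_single] at h3
    exact (mul_eq_zero.1 h3).resolve_right e
  refine ⟨ψ, A, B, hB, ext_iff_mulVec.2 fun x => sub_eq_zero.1 (inj _ ?_), fun g => ?_⟩
  · rw [mulVec_sub, mulVec_mulVec, ← Matrix.mul_assoc, hB, Matrix.one_mul, one_mulVec, sub_self]
  · rw [← hA, Matrix.mul_assoc, hB, Matrix.mul_one]

theorem card_ch (hC : ∀ a ∈ commutator G, ∀ b ∈ commutator G, a * b = b * a) :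
    Nat.card (Ch G) = Nat.card (commutator G) ∧ ∀ g : G, g ≠ 1 → ∑ l : Ch G, ext0 l g = 0 := by
  let : CommGroup (commutator G) := { (inferInstance : Group (commutator G)) with
    mul_comm := fun a b => Subtype.ext (hC a a.2 b b.2) }
  refine ⟨CommGroup.card_monoidHom_of_hasEnoughRootsOfUnity _ ℂ, fun g hg => ?_⟩
  by_cases hc : g ∈ commutator G
  · obtain ⟨l, hl⟩ := CommGroup.exists_apply_ne_one_of_hasEnoughRootsOfUnity (commutator G) ℂ
      (a := ⟨g, hc⟩) fun e => hg (congrArg Subtype.val e)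
    simp only [ext0_mem _ hc]
    exact sum_hom_units_eq_zero ((Pi.evalMonoidHom _ (⟨g, hc⟩ : commutator G)).comp cv)
      fun e => hl (Units.ext (DFunLike.congr_fun e l))
  · simp [ext0_not _ hc]

theorem sum_EE (hC : ∀ a ∈ commutator G, ∀ b ∈ commutator G, a * b = b * a) (r : Irr G) :
    ∑ l, EE r l = (Nat.card (commutator G) : ℂ) • 1 := by
  simp only [EE]
  rw [sum_comm, sum_eq_single 1 (fun g _ hg => by
    rw [← sum_smul, (card_ch hC).2 _ (inv_ne_one.2 hg), zero_smul]) (by simp), ← (card_ch hC).1]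
  simp [ext0_one, Nat.cast_smul_eq_nsmul]

theorem mono_of (hC : ∀ a ∈ commutator G, ∀ b ∈ commutator G, a * b = b * a) : IsMonomial G := by
  intro r
  have : Nonempty (Fin r.n) := ⟨⟨0, r.pos⟩⟩
  obtain ⟨l, -, hl⟩ := exists_ne_zero_of_sum_ne_zero (s := univ) (f := EE r) (by
    rw [sum_EE hC]
    exact smul_ne_zero (Nat.cast_ne_zero.2 Nat.card_pos.ne') one_ne_zero)
  obtain ⟨ψ, A, B, -, h2, h3⟩ := cliff (um_max hC l) r hl
  refine ⟨_, ψ, fun g => ?_⟩
  rw [← mat_trace, h3, trace_mul_comm, ← Matrix.mul_assoc, h2, Matrix.one_mul]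

/-- the coefficient attached to a character of the commutator subgroup -/
noncomputable def bet (l : Ch G) (Y : G → ℤ) (g : G) : ℂ := ∑ u, Y u * ext0 l (g⁻¹ * u)

theorem act_bet {l : Ch G} {U : Subgroup G} (hU : Maximal (Adm (kr l)) U)
    (F : ((G → ℂ) → ℂ) → ℂ) {Y : G → ℤ} (h0 : ∀ g, g ∉ U → Y g = 0)
    (hY : ∀ ψ : U →* ℂˣ, F (dt (Mat ψ)) = ∑ g, Y g * ext0 ψ g) (r : Irr G) :
    ∑ g, bet l Y g • r.ρ g = F (dt r.ρ) • EE r l := by
  have := hU.1.normal
  have h1 : ∑ g, bet l Y g • r.ρ g = (∑ u, (Y u : ℂ) • r.ρ u) * EE r l := by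
    simp only [bet, sum_smul, Matrix.sum_mul]
    rw [sum_comm]
    refine sum_congr rfl fun u _ => ?_
    rw [← Equiv.sum_comp (Equiv.mulLeft u), EE, Matrix.mul_sum]
    simp [smul_smul, mul_comm]
  by_cases h : EE r l = 0
  · rw [h1, h, Matrix.mul_zero, smul_zero]
  obtain ⟨ψ, A, B, h2, h3, h4⟩ := cliff hU r h
  have h5 : ∑ u, (Y u : ℂ) • Mat ψ u = F (dt r.ρ) • 1 := by
    ext a b
    rw [dt_conj h2 h3 h4, Matrix.sum_apply, Matrix.smul_apply, one_apply]
    split_ifs with e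
    · rw [← dt_cj ψ a.out, hY, e]
      simp [mat_apply, ext0_cj]
    · rw [smul_zero]
      refine sum_eq_zero fun u _ => ?_
      by_cases hu : u ∈ U
      · rw [Matrix.smul_apply, mat_zero fun e' => e ?_, smul_zero]
        rw [e', smul_q, (QuotientGroup.eq_one_iff _).2 hu, one_mul]
      · simp [h0 u hu]
  have h6 : ∑ u, (Y u : ℂ) • r.ρ u = A * (∑ u, (Y u : ℂ) • Mat ψ u) * B := by
    simp only [h4, Matrix.mul_sum, Matrix.sum_mul, Matrix.mul_smul, Matrix.smul_mul]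
  rw [h1, h6, h5, Matrix.mul_smul, Matrix.smul_mul, Matrix.mul_one, h2, Matrix.smul_mul,
    Matrix.one_mul]

theorem intG_rep {U : Subgroup G} {f : (U →* ℂˣ) → ℂ} (hf : f ∈ IntG U) :
    ∃ Y : G → ℤ, (∀ g, g ∉ U → Y g = 0) ∧ ∀ ψ, f ψ = ∑ g, Y g * ext0 ψ g := by
  classical
  refine IntG.ind (p := fun f => ∃ Y : G → ℤ, (∀ g, g ∉ U → Y g = 0) ∧
    ∀ ψ, f ψ = ∑ g, Y g * ext0 ψ g) ⟨0, by simp⟩ ?_
    (fun u z => ⟨Pi.single u z, fun g hg => ?_, fun ψ => ?_⟩) hf
  · rintro _ _ ⟨x, x0, hx⟩ ⟨y, y0, hy⟩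
    exact ⟨x + y, fun g hg => by simp [x0 g hg, y0 g hg],
      fun ψ => by simp [hx, hy, add_mul, sum_add_distrib]⟩
  · exact Pi.single_eq_of_ne (fun e : g = u => hg (e ▸ u.2)) _
  · simp [Pi.single_apply, ext0_coe]

end Pool.Agent.MP_f3cd89_nt.Tw
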