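import Pool.Agent.MP_f3cd89_nt.Tw.Ari

/-! The congruence modulo the primes above `p` and the final statements. -/

set_option autoImplicit false
set_option linter.unusedSectionVars false

open Finset Matrix NumberField IsDedekindDomain

namespace Pool.Agent.MP_f3cd89_nt.Tw

/-- the radical of `p` in the ring of algebraic integers -/
noncomputable def Jp (p : ℕ) : AddSubgroup ℂ :=
  (Ideal.span {(p : integralClosure ℤ ℂ)}).radical.toAddSubgroup.map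
    (integralClosure ℤ ℂ).val.toRingHom.toAddMonoidHom

theorem idl_Jp (p : ℕ) : Idl (Jp p) := by
  refine ⟨?_, ?_⟩
  · rintro _ ⟨b, -, rfl⟩
    exact b.2
  · rintro _ ⟨a, ha, rfl⟩ b hb
    exact ⟨⟨b, hb⟩ * a, Ideal.mul_mem_left _ _ ha, rfl⟩

theorem root_mem {p : ℕ} (hp : p.Prime) {ζ : ℂ} {k : ℕ} (h : ζ ^ p ^ k = 1) : ζ - 1 ∈ Jp p := by
  have hi : IsIntegral ℤ ζ := IsIntegral.of_pow (pow_pos hp.pos k) (h ▸ isIntegral_one)
  let a : integralClosure ℤ ℂ := ⟨ζ, hi⟩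
  have ha : a ^ p ^ k = 1 := Subtype.ext h
  obtain ⟨r, hr⟩ := exists_add_pow_prime_pow_eq hp (a - 1) 1 k
  rw [sub_add_cancel, ha, one_pow] at hr
  exact ⟨a - 1, ⟨p ^ k, Ideal.mem_span_singleton'.2 ⟨-((a - 1) * r), by linear_combination hr⟩⟩, rfl⟩

theorem int_mem {p : ℕ} (hp : p.Prime) {z : ℤ} (h : (z : ℂ) ∈ Jp p) : (p : ℤ) ∣ z := by
  obtain ⟨a, ⟨n, hn⟩, ha⟩ := h
  obtain ⟨c, hc⟩ := Ideal.mem_span_singleton'.1 hn
  have h1 : (c : ℂ) * p = (z : ℂ) ^ n := by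
    rw [← ha]
    exact congrArg Subtype.val hc
  have h0 : (p : ℂ) ≠ 0 := Nat.cast_ne_zero.2 hp.ne_zero
  obtain ⟨m, hm⟩ := int_of_fixed c.2 fun σ => mul_right_cancel₀ h0 (by
    have := congrArg σ h1
    rwa [map_mul, map_natCast, map_pow, map_intCast, ← h1] at this)
  rw [hm] at h1
  exact (Nat.prime_iff_prime_int.1 hp).dvd_of_dvd_pow (n := n)
    ⟨m, by rw [mul_comm]; exact_mod_cast h1.symm⟩

variable {G : Type} [Group G] [Fintype G]

theorem ppart {p : ℕ} (hp : p.Prime) (hG : IsPGroup p (commutator G)) {U : Subgroup G}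
    (ψ : U →* ℂˣ) : ∃ ρ : G →* ℂˣ, ∀ u : U, (ψ u : ℂ) - ρ.comp U.subtype u ∈ Jp p := by
  have := Fact.mk hp
  obtain ⟨k, hk⟩ := IsPGroup.iff_card.1 hG
  obtain ⟨b, m, hm, hb⟩ := Nat.exists_eq_pow_mul_and_not_dvd (Nat.card_pos (α := G)).ne' p
    hp.ne_one
  have m0 : 0 < m := Nat.pos_of_ne_zero fun e => hm (e ▸ dvd_zero p)
  have h1 : (p ^ k) ^ m.totient ≡ 1 [MOD m] :=
    Nat.ModEq.pow_totient (Nat.Coprime.pow_left k (hp.coprime_iff_not_dvd.2 hm))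
  obtain ⟨t, ht⟩ := (Nat.modEq_iff_dvd' (Nat.one_le_pow _ _ (pow_pos hp.pos k))).1 h1.symm
  have h2 : p ^ k ∣ (p ^ k) ^ m.totient := dvd_pow_self _ (Nat.totient_pos.2 m0).ne'
  have h3 : (p ^ k) ^ m.totient = m * t + 1 := by
    rw [← ht, Nat.sub_add_cancel (Nat.one_le_pow _ _ (pow_pos hp.pos k))]
  rw [h3] at h2
  let f : U →* Abelianization G := Abelianization.of.comp U.subtype
  have hker : f.rangeRestrict.ker ≤ (ψ ^ (m * t + 1)).ker := fun u hu => by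
    rw [MonoidHom.ker_rangeRestrict] at hu
    have h4 : (u : G) ∈ commutator G := Abelianization.ker_of G ▸ hu
    have h5 : u ^ p ^ k = 1 := Subtype.ext (congrArg (commutator G).subtype
      (hk ▸ pow_card_eq_one' (x := (⟨u, h4⟩ : commutator G))))
    obtain ⟨s, hs⟩ := h2
    rw [MonoidHom.mem_ker, MonoidHom.pow_apply, ← map_pow, hs, pow_mul, h5, one_pow, map_one]
  obtain ⟨ρ, hρ⟩ := MonoidHom.domRestrict_surjective ℂ f.range
    (f.rangeRestrict.liftOfSurjective f.rangeRestrict_surjective ⟨_, hker⟩)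
  refine ⟨ρ.comp Abelianization.of, fun u => ?_⟩
  have h6 : ρ (f u) = ψ u ^ (m * t + 1) :=
    (DFunLike.congr_fun hρ (f.rangeRestrict u)).trans
      (MonoidHom.liftOfRightInverse_comp_apply _ _ _ _ u)
  have h7 : ((ψ u : ℂ) ^ (m * t)) ^ p ^ b = 1 := by
    have h8 : u ^ Nat.card G = 1 := Subtype.ext pow_card_eq_one'
    rw [← pow_mul, show m * t * p ^ b = Nat.card G * t by rw [hb]; ring, pow_mul,
      ← Units.val_pow_eq_pow_val, ← map_pow, h8, map_one, Units.val_one, one_pow]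
  convert neg_mem ((idl_Jp p).2 _ (root_mem hp h7) _ (val_int ψ u)) using 1
  change (ψ u : ℂ) - ρ (f u) = _
  rw [h6, Units.val_pow_eq_pow_val]
  ring

theorem ind_data (hm : IsMonomial G) {j : G} (hj : ∀ g, j * g = g * j) (r : Irr G) :
    ∃ (U : Subgroup G) (ψ : U →* ℂˣ), j ∈ U ∧ ∀ g, (Mat ψ g).trace = chr r g := by
  obtain ⟨U, ψ, h⟩ := hm r
  refine ⟨U, ψ, ?_, fun g => (mat_trace ψ g).trans (h g).symm⟩
  by_contra hU
  obtain ⟨c, hc⟩ := scalar r (A := r.ρ j) fun g => by rw [← map_mul, ← map_mul, hj]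
  have h1 := h j
  have h2 : ∀ x : G, ext0 ψ (x⁻¹ * j * x) = 0 := fun x => by
    rw [mul_assoc, hj, inv_mul_cancel_left, ext0_not ψ hU]
  simp only [h2, finsum_zero, zero_div, hc, trace_smul, trace_one, Fintype.card_fin,
    smul_eq_mul] at h1
  have h3 := chr_one r
  rw [chr, ← mul_inv_cancel j, map_mul, hc, (mul_eq_zero.1 h1).resolve_right (n_ne r), zero_smul,
    zero_mul, trace_zero] at h3
  exact n_ne r h3.symm

theorem cg_int {J : AddSubgroup ℂ} (hJ : Idl J) {U : Subgroup G} {ψ ψ' : U →* ℂˣ}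
    (h : ∀ u, (ψ u : ℂ) - ψ' u ∈ J) {f : (U →* ℂˣ) → ℂ} (hf : f ∈ IntG U) :
    ((fun ρ : G →* ℂˣ => f (ψ * ρ.comp U.subtype)),
      (fun ρ : G →* ℂˣ => f (ψ' * ρ.comp U.subtype))) ∈ Cg G hJ := by
  refine IntG.ind (p := fun f => ((fun ρ : G →* ℂˣ => f (ψ * ρ.comp U.subtype)),
      (fun ρ : G →* ℂˣ => f (ψ' * ρ.comp U.subtype))) ∈ Cg G hJ) (zero_mem (Cg G hJ))
    (fun _ _ h h' => add_mem h h') (fun u z => ?_) hf
  have hz : IsIntegral ℤ (z : ℂ) := isIntegral_algebraMap (x := z)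
  convert cg_gen hJ (hz.mul (val_int ψ u)) (hz.mul (val_int ψ' u))
    (by rw [← mul_sub]; exact hJ.2 _ (h u) _ hz) (u : G) using 3 <;> simp [mul_assoc]

theorem intG_gal {U : Subgroup G} (ψ : U →* ℂˣ) (σ : ℂ ≃+* ℂ) {f : (U →* ℂˣ) → ℂ}
    (hf : f ∈ IntG U) : f (galc ψ σ) = σ (f ψ) :=
  IntG.ind (p := fun f => f (galc ψ σ) = σ (f ψ)) (map_zero σ).symm
    (fun _ _ h h' => by rw [Pi.add_apply, Pi.add_apply, map_add, h, h'])
    (fun u z => by rw [map_mul, map_intCast]; rfl) hf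

theorem intG_top {f : ((⊤ : Subgroup G) →* ℂˣ) → ℂ} (hf : f ∈ IntG (⊤ : Subgroup G)) :
    ∃ x : G → ℤ, ∀ ψ, f ψ = dt (Mat ψ) (zc x) := by
  classical
  simp only [dt_top]
  refine IntG.ind (p := fun f => ∃ x : G → ℤ, ∀ ψ, f ψ = ∑ g, zc x g * ext0 ψ g)
    ⟨0, by simp [zc]⟩ ?_ (fun u z => ⟨Pi.single u z, fun ψ => ?_⟩) hf
  · rintro _ _ ⟨x, hx⟩ ⟨y, hy⟩
    exact ⟨x + y, fun ψ => by simp [hx, hy, zc, add_mul, sum_add_distrib]⟩
  · simp [zc, Pi.single_apply, ext0_coe]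

theorem trace_gal {U : Subgroup G} (ψ : U →* ℂˣ) (σ : ℂ ≃+* ℂ) (g : G) :
    (Mat (galc ψ σ) g).trace = σ (Mat ψ g).trace := by
  simp only [trace, diag_apply, mat_apply, ext0_gal, map_sum]

section Good

variable {K : Type} [Field K] [NumberField K] (S : Finset (Pr K)) (φ : Pr K → G)
  (T : Finset (Pr K))

/-- the smoothed value -/
noncomputable def sv (D : (G → ℂ) → ℂ) : ℂ := del φ T D * val S φ D

/-- the abelian integrality theorem at level `U` -/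
def Lev (U : Subgroup G) : Prop := (∀ ψ : U →* ℂˣ, ∃ c, LV S φ (dt (Mat ψ)) c) ∧
  (fun ψ : U →* ℂˣ => sv S φ T (dt (Mat ψ))) ∈ IntG U

/-- the smoothed values of the twists are congruent to the determinants of `x` -/
def Good {J : AddSubgroup ℂ} (hJ : Idl J) (x : G → ℤ) (D : (G → ℂ) → ℂ) : Prop :=
  (∀ ρ : G →* ℂˣ, ∃ c, LV S φ (fun c => D (cv ρ * c)) c) ∧
    ((fun ρ : G →* ℂˣ => sv S φ T fun c => D (cv ρ * c)),
      (fun ρ : G →* ℂˣ => D (cv ρ * zc x))) ∈ Cg G hJ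

variable {S φ T} {J : AddSubgroup ℂ} {hJ : Idl J} {x : G → ℤ}

theorem good_one : Good S φ T hJ x 1 := by
  refine ⟨fun ρ => ⟨1, lv_one⟩, ?_⟩
  have h : sv S φ T (1 : (G → ℂ) → ℂ) = 1 := by simp [sv, del, lv_one.val_eq]
  convert one_mem (Cg G hJ) using 1
  exact Prod.ext (funext fun ρ => h) rfl

theorem good_mul {D D' : (G → ℂ) → ℂ} (h : Good S φ T hJ x D) (h' : Good S φ T hJ x D') :
    Good S φ T hJ x (D * D') := by
  refine ⟨fun ρ => ?_, ?_⟩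
  · obtain ⟨c, hc⟩ := h.1 ρ
    obtain ⟨c', hc'⟩ := h'.1 ρ
    exact ⟨_, hc.mul hc'⟩
  · convert mul_mem h.2 h'.2 using 1
    refine Prod.ext (funext fun ρ => ?_) rfl
    obtain ⟨c, hc⟩ := h.1 ρ
    obtain ⟨c', hc'⟩ := h'.1 ρ
    have h1 : val S φ (fun c => (D * D') (cv ρ * c)) = c * c' := (hc.mul hc').val_eq
    simp only [sv, Prod.fst_mul, Pi.mul_apply, hc.val_eq, hc'.val_eq, del, prod_mul_distrib] at h1 ⊢
    rw [h1]
    ring

theorem good_tr {U : Subgroup G} (hL : Lev S φ T U) {ψ ψ' : U →* ℂˣ}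
    (h : ∀ u, (ψ u : ℂ) - ψ' u ∈ J) (h' : Good S φ T hJ x (dt (Mat ψ'))) :
    Good S φ T hJ x (dt (Mat ψ)) := by
  refine ⟨fun ρ => ?_, cg_trans (cg_trans ?_ h'.2) (cg_symm (cg_mat hJ h x))⟩
  · simp only [← dt_mat_tw]
    exact hL.1 _
  · simp only [← dt_mat_tw]
    exact cg_int hJ h hL.2

theorem good_top (hL : Lev S φ T ⊤) (hx : ∀ ψ : (⊤ : Subgroup G) →* ℂˣ,
    sv S φ T (dt (Mat ψ)) = dt (Mat ψ) (zc x)) (ψ : (⊤ : Subgroup G) →* ℂˣ) :
    Good S φ T hJ x (dt (Mat ψ)) := by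
  refine ⟨fun ρ => ?_, ?_⟩
  · simp only [← dt_mat_tw]
    exact hL.1 _
  · simp only [← dt_mat_tw, ← hx]
    exact cg_int hJ (fun u => by rw [sub_self]; exact zero_mem _) hL.2

theorem good_all {p : ℕ} (hp : p.Prime) (hG : IsPGroup p (commutator G)) (hm : IsMonomial G)
    {j : G} (hj : ∀ g, j * g = g * j) (hL : ∀ U, j ∈ U → Lev S φ T U)
    (hx : ∀ ψ : (⊤ : Subgroup G) →* ℂˣ, sv S φ T (dt (Mat ψ)) = dt (Mat ψ) (zc x)) (n : ℕ)
    (R : G →* Matrix (Fin n) (Fin n) ℂ) : Good S φ T (idl_Jp p) x (dt R) := by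
  induction n using Nat.strong_induction_on with
  | h n ih =>
    rcases Nat.eq_zero_or_pos n with rfl | hn
    · rw [show dt R = 1 from funext fun c => det_isEmpty]
      exact good_one
    by_cases hi : ∀ W : Submodule ℂ (Fin n → ℂ), (∀ g, ∀ v ∈ W, (R g).mulVec v ∈ W) →
      W = ⊥ ∨ W = ⊤
    swap
    · push Not at hi
      obtain ⟨W, h1, h2, h3⟩ := hi
      obtain ⟨a, b, R₁, R₂, ha, hb, e⟩ := split R W h1 h2 h3
      rw [Fintype.card_fin] at ha hb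
      exact e ▸ good_mul (ih a ha R₁) (ih b hb R₂)
    obtain ⟨U, ψ, hU, h⟩ := ind_data hm hj ⟨n, R, hn, hi⟩
    rw [show dt R = _ from dt_iso ⟨n, R, hn, hi⟩ _ h]
    by_cases ht : U = ⊤
    · subst ht
      exact good_top (hL _ hU) hx ψ
    obtain ⟨ρ, hρ⟩ := ppart hp hG ψ
    refine good_tr (hL U hU) hρ ?_
    obtain ⟨W, h1, h2, h3⟩ := mat_red ρ ht
    obtain ⟨a, b, R₁, R₂, ha, hb, e⟩ := split _ W h1 h2 h3
    have h4 := h 1
    rw [chr_one, map_one, trace_one, Nat.cast_inj] at h4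
    rw [h4] at ha hb
    exact e ▸ good_mul (ih a ha R₁) (ih b hb R₂)

theorem sv_gal (hm : IsMonomial G) {j : G} (hj : ∀ g, j * g = g * j)
    (hL : ∀ U, j ∈ U → Lev S φ T U) (r : Irr G) (σ : ℂ ≃+* ℂ) :
    sv S φ T (dt (gal r σ).ρ) = σ (sv S φ T (dt r.ρ)) := by
  obtain ⟨U, ψ, hU, h⟩ := ind_data hm hj r
  rw [dt_iso r _ h, dt_iso (gal r σ) (Mat (galc ψ σ)) fun g => by rw [trace_gal, h, chr_gal]]
  exact intG_gal ψ σ (hL U hU).2

end Good

section Cen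

theorem lin_sum (r : Irr G) (z : MonoidAlgebra ℤ G) : r.lin z = ∑ g, zc z.coeff g • r.ρ g := by
  rw [Irr.lin, MonoidAlgebra.lift_apply, Finsupp.sum_fintype _ _ (by simp)]
  exact sum_congr rfl fun g _ => (Int.cast_smul_eq_zsmul ℂ _ _).symm

theorem cen_mul {z : MonoidAlgebra ℤ G} (hz : z ∈ Subring.center (MonoidAlgebra ℤ G))
    (y : MonoidAlgebra ℤ G) : cen (z * y) = cen z * cen y := by
  funext r
  obtain ⟨c, hc⟩ := scalar r (A := r.lin z) fun g => by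
    have h : r.lin (MonoidAlgebra.of ℤ G g) = r.ρ g := MonoidAlgebra.lift_of _ g
    rw [← h, Irr.lin, Irr.lin, ← map_mul, ← map_mul, Subring.mem_center_iff.1 hz]
  have h1 : r.lin (z * y) = r.lin z * r.lin y := map_mul (MonoidAlgebra.lift ℤ _ G r.ρ) z y
  have := n_ne r
  simp only [Pi.mul_apply, cen, h1, hc, Matrix.smul_mul, one_mul, trace_smul, trace_one,
    Fintype.card_fin, smul_eq_mul]
  field_simp

theorem cen_add (z y : MonoidAlgebra ℤ G) : cen (z + y) = cen z + cen y := by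
  funext r
  simp only [cen, Irr.lin, map_add, trace_add, add_div, Pi.add_apply]

theorem cen_neg (z : MonoidAlgebra ℤ G) : cen (-z) = -cen z := by
  funext r
  simp only [cen, Irr.lin, map_neg, trace_neg, neg_div, Pi.neg_apply]

theorem cen_zero : cen (0 : MonoidAlgebra ℤ G) = 0 := by
  funext r
  simp [cen, Irr.lin]

theorem exists_cen (c : G → ℤ) (h : ∀ g h, c (h * g * h⁻¹) = c g) :
    ∃ z ∈ Subring.center (MonoidAlgebra ℤ G), ∀ r : Irr G,
      cen z r = (∑ g, (c g : ℂ) * chr r g) / r.n := by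
  refine ⟨MonoidAlgebra.ofCoeff (Finsupp.equivFunOnFinite.symm c),
    Subring.mem_center_iff.2 fun y => ?_, fun r => ?_⟩
  · induction y using MonoidAlgebra.induction_linear with
    | zero => rw [zero_mul, mul_zero]
    | add a b ha hb => rw [add_mul, mul_add, ha, hb]
    | single g a =>
      ext k
      rw [MonoidAlgebra.coeff_mul_single_apply, MonoidAlgebra.coeff_single_mul_apply, mul_comm]
      change c (g⁻¹ * k) * a = c (k * g⁻¹) * a
      rw [← h (g⁻¹ * k) g, mul_inv_cancel_left]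
  · rw [cen, lin_sum, trace_sum]
    simp only [trace_smul, smul_eq_mul]
    rfl

theorem nr_dt (z : MonoidAlgebra ℤ G) (r : Irr G) :
    nr (Matrix.of fun _ _ : Fin 1 => z) r = dt r.ρ (zc z.coeff) := by
  rw [FinalX.nr_one, lin_sum, dt]

theorem delta_eq {K : Type} [Field K] [NumberField K] (φ : Pr K → G) (T : Finset (Pr K))
    (r : Irr G) : delta φ T r = del φ T (dt r.ρ) := by
  simp only [delta, del, Finset.prod_apply, FinalX.nr_one, FinalX.lin_sub, dt_eul]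

end Cen

section Final

variable {K L : Type} [Field K] [NumberField K] [Field L] [NumberField L] [Algebra K L]
  [IsGalois K L] [IsTotallyReal K] [IsCMField L] {S : Finset (Pr K)} {φ : Pr K → (L ≃ₐ[K] L)}

theorem setup (hm : IsMonomial (L ≃ₐ[K] L))
    (hS : ∀ w : Pr L, w.under (𝓞 K) ∉ S → Algebra.IsUnramifiedAt (𝓞 K) w.asIdeal)
    (hφ : IsFrob L S φ) : (∀ (r : Irr (L ≃ₐ[K] L)) c, IsLValue S φ r.ρ c ↔ c = val S φ (dt r.ρ)) ∧
      ∃ j : L ≃ₐ[K] L, (∀ g, j * g = g * j) ∧ ∀ T, Hyp L S T → ∀ U, j ∈ U → Lev S φ T U := by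
  obtain ⟨j, hj, hjc⟩ := FinalX.exists_cc K L
  have hu : Unr L (L ≃ₐ[K] L) S := fun w hw => (fb K L _).2.2.2.2.2.2.1 w (hS w hw)
  refine ⟨fun r c => ?_, j, hjc, fun T hT U hU =>
    ⟨(level hj hU hu hφ).1, (level hj hU hu hφ).2 T hT.1 (FinalX.root hT)⟩⟩
  obtain ⟨U, ψ, hU, h⟩ := ind_data hm hjc r
  obtain ⟨c', hc'⟩ := (level hj hU hu hφ).1 ψ
  rw [lv_iff, dt_iso r _ h, hc'.val_eq]
  exact ⟨fun h => h.unique hc', fun h => h ▸ hc'⟩

theorem monomial (hm : IsMonomial (L ≃ₐ[K] L))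
    (hS : ∀ w : Pr L, w.under (𝓞 K) ∉ S → Algebra.IsUnramifiedAt (𝓞 K) w.asIdeal)
    (hφ : IsFrob L S φ) : ∃ θ : Irr (L ≃ₐ[K] L) → ℂ, (∀ r c, IsLValue S φ r.ρ c ↔ c = θ r) ∧
      ∀ x ∈ annA S φ, ∃ z ∈ Subring.center (MonoidAlgebra ℤ (L ≃ₐ[K] L)),
        cen z = Nat.card (commutator (L ≃ₐ[K] L)) • (x * θ) := by
  obtain ⟨h1, j, hj, hL⟩ := setup hm hS hφ
  refine ⟨_, h1, fun x hx => ?_⟩
  induction hx using AddSubgroup.closure_induction with
  | mem x hx =>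
    obtain ⟨z, hz, _, ⟨T, hT, rfl⟩, rfl⟩ := hx
    obtain ⟨c, -, c2, c3⟩ := assemble idl_OO (fun r => sv S φ T (dt r.ρ))
      (fun r r' h => by rw [dt_iso r r'.ρ fun g => (congrFun h g).symm])
      (sv_gal hm hj (hL T hT)) fun r => by
        obtain ⟨U, ψ, hU, h⟩ := ind_data hm hj r
        have h2 : ∀ ρ, dt (tw r ρ).ρ = dt (Mat (ψ * ρ.comp U.subtype)) := fun ρ =>
          funext fun c => by rw [dt_tw, dt_mat_tw, dt_iso r _ h]
        simp only [h2]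
        exact (cg_int idl_OO (ψ' := ψ) (fun u => by rw [sub_self]; exact zero_mem _)
          (hL T hT U hU).2).1
    obtain ⟨y, hy, hy'⟩ := exists_cen c c2
    refine ⟨z * y, mul_mem hz hy, ?_⟩
    rw [cen_mul hz]
    funext r
    simp only [Pi.mul_apply, Pi.smul_apply, hy', c3, mul_div_cancel_left₀ _ (n_ne r), delta_eq, sv,
      nsmul_eq_mul]
    ring
  | zero => exact ⟨0, zero_mem _, by rw [cen_zero, zero_mul, smul_zero]⟩
  | add f g _ _ hf hg =>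
    obtain ⟨a, ha, ha'⟩ := hf
    obtain ⟨b, hb, hb'⟩ := hg
    exact ⟨a + b, add_mem ha hb, by rw [cen_add, ha', hb', add_mul, smul_add]⟩
  | neg f _ hf =>
    obtain ⟨a, ha, ha'⟩ := hf
    exact ⟨-a, neg_mem ha, by rw [cen_neg, ha', neg_mul, smul_neg]⟩

theorem primeComm (hm : IsMonomial (L ≃ₐ[K] L)) {p d : ℕ} (hp : p.Prime)
    (hG : IsPGroup p (commutator (L ≃ₐ[K] L))) (hd : Nat.card (commutator (L ≃ₐ[K] L)) = d * p)
    (hS : ∀ w : Pr L, w.under (𝓞 K) ∉ S → Algebra.IsUnramifiedAt (𝓞 K) w.asIdeal)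
    (hφ : IsFrob L S φ) : ∃ θ : Irr (L ≃ₐ[K] L) → ℂ, (∀ r c, IsLValue S φ r.ρ c ↔ c = θ r) ∧
      ∀ x ∈ annA S φ, d • (x * θ) ∈ intRing (L ≃ₐ[K] L) := by
  obtain ⟨h1, j, hj, hL⟩ := setup hm hS hφ
  refine ⟨_, h1, fun x hx => ?_⟩
  induction hx using AddSubgroup.closure_induction with
  | mem x hx =>
    obtain ⟨z, hz, _, ⟨T, hT, rfl⟩, rfl⟩ := hx
    obtain ⟨x, hx⟩ := intG_top (hL T hT ⊤ (Subgroup.mem_top j)).2
    obtain ⟨c, c1, c2, c3⟩ := assemble (idl_Jp p) (fun r => sv S φ T (dt r.ρ) - dt r.ρ (zc x))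
      (fun r r' h => by rw [dt_iso r r'.ρ fun g => (congrFun h g).symm])
      (fun r σ => by rw [sv_gal hm hj (hL T hT), dt_gal, map_sub]) fun r => by
        have h2 : ∀ ρ, dt (tw r ρ).ρ = fun c => dt r.ρ (cv ρ * c) := fun ρ => funext (dt_tw r ρ)
        simp only [h2]
        exact (good_all hp hG hm hj (hL T hT) hx r.n r.ρ).2.2.2
    choose c' hc' using fun g => int_mem hp (c1 g)
    have p0 : (p : ℂ) ≠ 0 := Nat.cast_ne_zero.2 hp.ne_zero
    obtain ⟨y, hy, hy'⟩ := exists_cen c' fun g h => mul_left_cancel₀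
      (Nat.cast_ne_zero.2 hp.ne_zero : (p : ℤ) ≠ 0) (by rw [← hc', ← hc', c2])
    have m1 : ∀ z ∈ Subring.center (MonoidAlgebra ℤ (L ≃ₐ[K] L)), ∀ a,
        cen z * nr (Matrix.of fun _ _ : Fin 1 => a) ∈ intRing (L ≃ₐ[K] L) := fun z hz a =>
      AddSubgroup.subset_closure ⟨z, hz, _, ⟨1, le_rfl, _, rfl⟩, rfl⟩
    convert add_mem (m1 _ (mul_mem hz hy) 1) (nsmul_mem
      (m1 z hz (MonoidAlgebra.ofCoeff (Finsupp.equivFunOnFinite.symm x))) d) using 1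
    funext r
    have h3 := c3 r
    simp only [hc', Int.cast_mul, Int.cast_natCast, mul_assoc, ← mul_sum, hd, Nat.cast_mul] at h3
    have h4 : cen y r = d * (sv S φ T (dt r.ρ) - dt r.ρ (zc x)) := by
      rw [hy', div_eq_iff (n_ne r)]
      exact mul_left_cancel₀ p0 (h3.trans (by ring))
    have h5 : nr (Matrix.of fun _ _ : Fin 1 => (1 : MonoidAlgebra ℤ (L ≃ₐ[K] L))) r = 1 := by
      rw [FinalX.nr_one, Irr.lin, map_one, det_one]
    have h6 : nr (Matrix.of fun _ _ : Fin 1 =>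
        MonoidAlgebra.ofCoeff (Finsupp.equivFunOnFinite.symm x)) r = dt r.ρ (zc x) := nr_dt _ r
    simp only [Pi.add_apply, Pi.mul_apply, Pi.smul_apply, cen_mul hz, h4, h5, h6, delta_eq, sv,
      nsmul_eq_mul, Pi.natCast_apply]
    ring
  | zero => rw [zero_mul, smul_zero]; exact zero_mem _
  | add f g _ _ hf hg => rw [add_mul, smul_add]; exact add_mem hf hg
  | neg f _ hf => rw [neg_mul, smul_neg]; exact neg_mem hf

end Final

end Pool.Agent.MP_f3cd89_nt.Tw
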