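import Pool.Agent.MP_f3cd89_nt.Tw.Asm

/-! Group determinants and monomial representations. -/

set_option autoImplicit false
set_option linter.unusedSectionVars false

open Finset Matrix

namespace Pool.Agent.MP_f3cd89_nt.Tw

variable {G : Type} [Group G] [Fintype G]

section Dt

variable {m n : Type} [Fintype m] [DecidableEq m] [Fintype n] [DecidableEq n]

/-- the group determinant of a representation -/
noncomputable def dt (R : G →* Matrix m m ℂ) (c : G → ℂ) : ℂ := (∑ g, c g • R g).det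

theorem dt_conj {R : G →* Matrix m m ℂ} {R' : G →* Matrix n n ℂ} {A : Matrix m n ℂ}
    {B : Matrix n m ℂ} (h : A * B = 1) (h' : B * A = 1) (e : ∀ g, R g = A * R' g * B) :
    dt R = dt R' := by
  funext c
  rw [dt, dt, ← det_conj_of_mul_eq_one h h', Matrix.mul_sum, Matrix.sum_mul]
  simp only [e, Matrix.mul_smul, Matrix.smul_mul]

theorem dt_iso (r : Irr G) (R : G →* Matrix m m ℂ) (h : ∀ g, (R g).trace = chr r g) :
    dt r.ρ = dt R := by
  obtain ⟨A, B, h1, h2, h3⟩ := iso r R h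
  exact dt_conj h1 h2 h3

theorem dt_tw (r : Irr G) (ρ : G →* ℂˣ) (c : G → ℂ) : dt (tw r ρ).ρ c = dt r.ρ (cv ρ * c) := by
  unfold dt
  congr 1
  refine sum_congr rfl fun g _ => ?_
  exact (smul_smul (c g) (ρ g : ℂ) (r.ρ g)).trans (by rw [mul_comm]; rfl)

/-- integer coefficients as complex numbers -/
def zc (x : G → ℤ) : G → ℂ := fun g => x g

theorem dt_gal (r : Irr G) (σ : ℂ ≃+* ℂ) (x : G → ℤ) :
    dt (gal r σ).ρ (zc x) = σ (dt r.ρ (zc x)) := by
  refine Eq.trans ?_ (σ.toRingHom.map_det _).symm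
  refine congrArg Matrix.det (?_ : ∑ g, zc x g • (r.ρ g).map σ = _)
  ext i j
  simp [Matrix.sum_apply, zc]

open Classical in
/-- the coefficients of `1 - t g` -/
noncomputable def eul (g : G) (t : ℂ) : G → ℂ := Pi.single 1 1 - Pi.single g t

theorem dt_eul (R : G →* Matrix m m ℂ) (g : G) (t : ℂ) : dt R (eul g t) = (1 - t • R g).det := by
  classical
  unfold dt eul
  congr 1
  simp [sub_smul, Pi.single_apply, ite_smul]

theorem cv_eul (ρ : G →* ℂˣ) (g : G) (t : ℂ) : cv ρ * eul g t = eul g (ρ g * t) := by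
  classical
  funext h
  simp only [eul, Pi.mul_apply, Pi.sub_apply, Pi.single_apply, cv_apply, mul_sub]
  congr 1 <;> split_ifs with e <;> simp [*]

theorem split (R : G →* Matrix m m ℂ) (W : Submodule ℂ (m → ℂ))
    (hW : ∀ g, ∀ v ∈ W, R g *ᵥ v ∈ W) (h0 : W ≠ ⊥) (h1 : W ≠ ⊤) :
    ∃ (a b : ℕ) (R₁ : G →* Matrix (Fin a) (Fin a) ℂ) (R₂ : G →* Matrix (Fin b) (Fin b) ℂ),
      a < Fintype.card m ∧ b < Fintype.card m ∧ dt R = dt R₁ * dt R₂ := by
  let ρ : Representation ℂ G (m → ℂ) :=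
    (Matrix.toLinAlgEquiv' : Matrix m m ℂ ≃ₐ[ℂ] _).toAlgHom.toMonoidHom.comp R
  have hρ : ∀ g, W ≤ W.comap (ρ g) := fun g v hv => hW g v hv
  refine ⟨_, _, (LinearMap.toMatrixAlgEquiv (Module.finBasis ℂ W)).toAlgHom.toMonoidHom.comp
    (ρ.subrepresentation W hρ), (LinearMap.toMatrixAlgEquiv
      (Module.finBasis ℂ ((m → ℂ) ⧸ W))).toAlgHom.toMonoidHom.comp (ρ.quotient W hρ), ?_, ?_, ?_⟩
  · simpa using Submodule.finrank_lt h1
  · have h2 := W.finrank_quotient_add_finrank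
    have h3 : Module.finrank ℂ W ≠ 0 := fun e => h0 (Submodule.finrank_eq_zero.1 e)
    rw [Module.finrank_fintype_fun_eq_card] at h2
    omega
  funext c
  have he : W ≤ W.comap (∑ g, c g • ρ g) := fun v hv => by
    rw [Submodule.mem_comap, LinearMap.sum_apply]
    exact W.sum_mem fun g _ => W.smul_mem _ (hρ g hv)
  have h4 := LinearMap.det_eq_det_mul_det W _ he
  have h5 : (∑ g, c g • ρ g) = Matrix.toLin' (∑ g, c g • R g) := by
    rw [map_sum]
    exact sum_congr rfl fun g _ => by rw [map_smul]; rfl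
  have key : ∀ {V : Type} [AddCommGroup V] [Module ℂ V] [Module.Finite ℂ V]
      (τ : Representation ℂ G V), dt ((LinearMap.toMatrixAlgEquiv
        (Module.finBasis ℂ V)).toAlgHom.toMonoidHom.comp τ) c = LinearMap.det (∑ g, c g • τ g) := by
    intro V _ _ _ τ
    rw [← LinearMap.det_toMatrix (Module.finBasis ℂ V), map_sum, dt]
    congr 1
    exact sum_congr rfl fun g _ => by rw [map_smul]; rfl
  rw [Pi.mul_apply, key, key, dt, ← LinearMap.det_toLin', ← h5, h4]
  congr 2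
  · ext v
    simp [Representation.subrepresentation, LinearMap.sum_apply]
  · refine Submodule.linearMap_qext _ (LinearMap.ext fun v => ?_)
    simp only [Representation.quotient, LinearMap.sum_apply, LinearMap.comp_apply,
      LinearMap.smul_apply, MonoidHom.coe_mk, OneHom.coe_mk, Submodule.mkQ_apply,
      Submodule.mapQ_apply]
    simp only [← Submodule.mkQ_apply, map_sum, map_smul]

theorem cg_det {J : AddSubgroup ℂ} (hJ : Idl J) {A A' : (G →* ℂˣ) → Matrix m m ℂ}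
    (h : ∀ i j, ((fun ρ => A ρ i j), (fun ρ => A' ρ i j)) ∈ Cg G hJ) :
    ((fun ρ => (A ρ).det), (fun ρ => (A' ρ).det)) ∈ Cg G hJ := by
  have := (Cg G hJ).sum_mem fun (σ : Equiv.Perm m) (_ : σ ∈ univ) => (Cg G hJ).mul_mem
    (intCast_mem _ (Equiv.Perm.sign σ : ℤ)) ((Cg G hJ).prod_mem fun i (_ : i ∈ univ) => h (σ i) i)
  convert this using 1
  ext ρ <;> simp [det_apply', Prod.fst_sum, Prod.snd_sum, Prod.fst_prod, Prod.snd_prod]

theorem det_sigma {ι : Type} [Fintype ι] [DecidableEq ι] {β : ι → Type} [∀ q, Fintype (β q)]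
    [∀ q, DecidableEq (β q)] (A : Matrix (Σ q, β q) (Σ q, β q) ℂ)
    (h : ∀ x y, x.1 ≠ y.1 → A x y = 0) :
    A.det = ∏ q, (of fun i j : β q => A ⟨q, i⟩ ⟨q, j⟩).det := by
  let := LinearOrder.lift' (Fintype.equivFin ι) (Fintype.equivFin ι).injective
  have hA : A.BlockTriangular Sigma.fst := fun x y hxy => h x y hxy.ne'
  rw [hA.det_fintype]
  refine prod_congr rfl fun q _ => ?_
  rw [← det_submatrix_equiv_self (Equiv.sigmaSubtype q).symm]
  rfl

end Dt

section Ext

variable {U : Subgroup G} (ψ : U →* ℂˣ)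

theorem ext0_mem {g : G} (h : g ∈ U) : ext0 ψ g = ψ ⟨g, h⟩ := dif_pos h

theorem ext0_not {g : G} (h : g ∉ U) : ext0 ψ g = 0 := dif_neg h

theorem ext0_coe (u : U) : ext0 ψ u = ψ u := ext0_mem ψ u.2

theorem ext0_one : ext0 ψ 1 = 1 := by
  rw [ext0_mem ψ U.one_mem]
  exact congrArg _ (map_one ψ)

theorem ext0_mul {g : G} (hg : g ∈ U) (h : G) : ext0 ψ (g * h) = ext0 ψ g * ext0 ψ h := by
  by_cases hh : h ∈ U
  · rw [ext0_mem ψ hg, ext0_mem ψ hh, ext0_mem ψ (mul_mem hg hh), ← Units.val_mul, ← map_mul]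
    rfl
  · rw [ext0_not ψ hh, ext0_not ψ fun e => hh ((U.mul_mem_cancel_left hg).1 e), mul_zero]

theorem ext0_mul' (g : G) {h : G} (hh : h ∈ U) : ext0 ψ (g * h) = ext0 ψ g * ext0 ψ h := by
  by_cases hg : g ∈ U
  · exact ext0_mul ψ hg h
  · rw [ext0_not ψ hg, ext0_not ψ fun e => hg ((U.mul_mem_cancel_right hh).1 e), zero_mul]

theorem ext0_conj (u : U) (g : G) : ext0 ψ ((u : G)⁻¹ * g * u) = ext0 ψ g := by
  rw [ext0_mul' ψ _ u.2, ext0_mul ψ (inv_mem u.2), mul_right_comm, ← ext0_mul ψ (inv_mem u.2),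
    inv_mul_cancel, ext0_one, one_mul]

theorem ext0_tw (ρ : G →* ℂˣ) (g : G) : ext0 (ψ * ρ.comp U.subtype) g = ext0 ψ g * ρ g := by
  by_cases hg : g ∈ U
  · rw [ext0_mem _ hg, ext0_mem _ hg]
    rfl
  · rw [ext0_not _ hg, ext0_not _ hg, zero_mul]

/-- the Galois conjugate of a linear character -/
def galc (σ : ℂ ≃+* ℂ) : U →* ℂˣ := (Units.map (σ : ℂ →* ℂ)).comp ψ

theorem ext0_gal (σ : ℂ ≃+* ℂ) (g : G) : ext0 (galc ψ σ) g = σ (ext0 ψ g) := by
  by_cases hg : g ∈ U
  · rw [ext0_mem _ hg, ext0_mem _ hg]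
    rfl
  · rw [ext0_not _ hg, ext0_not _ hg, map_zero]

theorem val_int {H : Type} [Group H] [Finite H] (χ : H →* ℂˣ) (u : H) :
    IsIntegral ℤ (χ u : ℂ) :=
  IsIntegral.of_pow (orderOf_pos u) (by
    rw [← Units.val_pow_eq_pow_val, ← map_pow, pow_orderOf_eq_one, map_one]
    exact isIntegral_one)

theorem ext0_int (g : G) : IsIntegral ℤ (ext0 ψ g) := by
  by_cases hg : g ∈ U
  · rw [ext0_mem _ hg]
    exact val_int ψ _
  · rw [ext0_not _ hg]
    exact isIntegral_zero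

theorem mem_iff (g : G) (a b : G ⧸ U) : a.out⁻¹ * g * b.out ∈ U ↔ a = g • b := by
  rw [mul_assoc, ← QuotientGroup.eq, QuotientGroup.out_eq', ← smul_eq_mul,
    MulAction.Quotient.coe_smul_out]

noncomputable instance finQ : Fintype (G ⧸ U) := Fintype.ofFinite _

noncomputable instance decQ : DecidableEq (G ⧸ U) := Classical.decEq _

/-- the induced representation -/
noncomputable def Mat : G →* Matrix (G ⧸ U) (G ⧸ U) ℂ where
  toFun g := of fun a b => ext0 ψ (a.out⁻¹ * g * b.out)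
  map_one' := by
    ext a b
    rw [of_apply, one_apply]
    split_ifs with h
    · rw [h, mul_one, inv_mul_cancel, ext0_one]
    · exact ext0_not ψ fun e => h (by simpa using (mem_iff 1 a b).1 e)
  map_mul' g h := by
    ext a c
    rw [Matrix.mul_apply, sum_eq_single (g⁻¹ • a) (fun b _ hb => ?_) fun h => absurd (mem_univ _) h]
    · rw [of_apply, of_apply, of_apply, ← ext0_mul ψ ((mem_iff g a _).2 (smul_inv_smul g a).symm)]
      congr 1
      group
    · rw [of_apply, ext0_not ψ fun e => hb (by rw [(mem_iff g a b).1 e, inv_smul_smul]), zero_mul]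

theorem mat_apply (g : G) (a b : G ⧸ U) : Mat ψ g a b = ext0 ψ (a.out⁻¹ * g * b.out) := rfl

theorem mat_trace (g : G) :
    (Mat ψ g).trace = (∑ᶠ x : G, ext0 ψ (x⁻¹ * g * x)) / (Nat.card U : ℂ) := by
  classical
  have hb : Function.Bijective fun p : (G ⧸ U) × U => p.1.out * (p.2 : G) := by
    refine ⟨fun p q h => ?_, fun x => ⟨⟨x, ⟨(x : G ⧸ U).out⁻¹ * x, ?_⟩⟩, by simp⟩⟩
    · have h1 : p.1 = q.1 := by
        have := congrArg (fun x : G => (x : G ⧸ U)) h
        simpa using this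
      exact Prod.ext h1 (Subtype.ext (mul_left_cancel (a := q.1.out) (by simpa [h1] using h)))
    · rw [← QuotientGroup.eq, QuotientGroup.out_eq']
  rw [finsum_eq_sum_of_fintype, ← hb.sum_comp, Fintype.sum_prod_type,
    eq_div_iff (Nat.cast_ne_zero.2 Nat.card_pos.ne'), trace, sum_mul]
  refine sum_congr rfl fun a _ => ?_
  have : ∀ u : U, ext0 ψ ((a.out * u)⁻¹ * g * (a.out * u)) = Mat ψ g a a := fun u => by
    rw [mat_apply, ← ext0_conj ψ u (a.out⁻¹ * g * a.out)]
    congr 1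
    group
  simp only [this]
  simp [mul_comm]

theorem dt_mat_tw (ρ : G →* ℂˣ) (c : G → ℂ) :
    dt (Mat (ψ * ρ.comp U.subtype)) c = dt (Mat ψ) (cv ρ * c) := by
  have h : (diagonal fun a : G ⧸ U => ((ρ a.out⁻¹ : ℂˣ) : ℂ)) *
      (diagonal fun a : G ⧸ U => ((ρ a.out : ℂˣ) : ℂ)) = 1 := by
    simp [diagonal_mul_diagonal]
  refine Eq.trans ?_ (det_conj_of_mul_eq_one h (mul_eq_one_comm.1 h))
  rw [dt]
  congr 1
  ext a b
  rw [mul_diagonal, diagonal_mul, Matrix.sum_apply, Matrix.sum_apply, mul_sum, sum_mul]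
  refine sum_congr rfl fun g _ => ?_
  simp only [Matrix.smul_apply, mat_apply, ext0_tw, map_mul, Units.val_mul, smul_eq_mul,
    Pi.mul_apply, cv_apply]
  ring

theorem mat_red (ρ : G →* ℂˣ) (hU : U ≠ ⊤) : ∃ W : Submodule ℂ (G ⧸ U → ℂ),
    (∀ g, ∀ v ∈ W, Mat (ρ.comp U.subtype) g *ᵥ v ∈ W) ∧ W ≠ ⊥ ∧ W ≠ ⊤ := by
  let W : Submodule ℂ (G ⧸ U → ℂ) :=
    { carrier := {w | ∀ a b : G ⧸ U, (ρ a.out : ℂ) * w a = ρ b.out * w b}
      add_mem' := fun {v w} hv hw a b => by simp only [Pi.add_apply, mul_add, hv a b, hw a b]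
      zero_mem' := fun a b => by simp
      smul_mem' := fun c v hv a b => by
        simp only [Pi.smul_apply, smul_eq_mul, mul_left_comm _ c, hv a b] }
  refine ⟨W, fun g v hv => ?_, fun h => ?_, fun h => ?_⟩
  · have key : ∀ a : G ⧸ U, (ρ a.out : ℂ) * (Mat (ρ.comp U.subtype) g *ᵥ v) a =
        ρ g * (ρ (g⁻¹ • a).out * v (g⁻¹ • a)) := fun a => by
      rw [mulVec, dotProduct, sum_eq_single (g⁻¹ • a) (fun b _ hb => ?_)
        fun h => absurd (mem_univ _) h]
      · rw [mat_apply, ext0_mem _ ((mem_iff g a _).2 (smul_inv_smul g a).symm)]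
        simp [mul_assoc]
      · rw [mat_apply, ext0_not _ fun e => hb (by rw [(mem_iff g a b).1 e, inv_smul_smul]),
          zero_mul]
    intro a b
    rw [key, key, hv _ (g⁻¹ • b)]
  · have h1 : (fun a : G ⧸ U => ((ρ a.out⁻¹ : ℂˣ) : ℂ)) ∈ W := fun a b => by simp
    rw [h, Submodule.mem_bot] at h1
    exact Units.ne_zero _ (congrFun h1 ((1 : G) : G ⧸ U))
  · obtain ⟨x, hx⟩ : ∃ x, x ∉ U := by
      by_contra! e
      exact hU ((Subgroup.eq_top_iff' U).2 e)
    have h1 : (Pi.single ((1 : G) : G ⧸ U) 1 : G ⧸ U → ℂ) ∈ W := h ▸ Submodule.mem_top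
    have h2 := h1 ((1 : G) : G ⧸ U) (x : G ⧸ U)
    have h3 : (x : G ⧸ U) ≠ ((1 : G) : G ⧸ U) := fun e => hx (by
      simpa using QuotientGroup.eq.1 e.symm)
    simp [h3] at h2

theorem dt_top (ψ : (⊤ : Subgroup G) →* ℂˣ) (c : G → ℂ) :
    dt (Mat ψ) c = ∑ g, c g * ext0 ψ g := by
  have : Unique (G ⧸ (⊤ : Subgroup G)) := @uniqueOfSubsingleton _
    QuotientGroup.subsingleton_quotient_top ((1 : G) : G ⧸ (⊤ : Subgroup G))
  rw [dt, det_unique, Matrix.sum_apply]
  refine sum_congr rfl fun g _ => ?_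
  rw [Matrix.smul_apply, mat_apply, smul_eq_mul]
  exact congrArg _ (ext0_conj ψ ⟨_, Subgroup.mem_top _⟩ g)

theorem cg_mat {J : AddSubgroup ℂ} (hJ : Idl J) {ψ ψ' : U →* ℂˣ}
    (h : ∀ u, (ψ u : ℂ) - ψ' u ∈ J) (x : G → ℤ) :
    ((fun ρ => dt (Mat ψ) (cv ρ * zc x)), (fun ρ => dt (Mat ψ') (cv ρ * zc x))) ∈ Cg G hJ := by
  refine cg_det hJ fun a b => ?_
  have h1 : ∀ g, ext0 ψ g - ext0 ψ' g ∈ J := fun g => by
    by_cases hg : g ∈ U
    · rw [ext0_mem _ hg, ext0_mem _ hg]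
      exact h _
    · rw [ext0_not _ hg, ext0_not _ hg, sub_self]
      exact zero_mem _
  have hx : ∀ g, IsIntegral ℤ (x g : ℂ) := fun g => isIntegral_algebraMap (x := x g)
  have := (Cg G hJ).sum_mem fun g (_ : g ∈ univ) => cg_gen hJ
    ((hx g).mul (ext0_int ψ (a.out⁻¹ * g * b.out))) ((hx g).mul (ext0_int ψ' (a.out⁻¹ * g * b.out)))
    (by rw [← mul_sub]; exact hJ.2 _ (h1 _) _ (hx g)) g
  convert this using 1
  ext ρ <;> simp only [Prod.fst_sum, Prod.snd_sum, Matrix.sum_apply, Finset.sum_apply,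
    Matrix.smul_apply, mat_apply, Pi.mul_apply, cv_apply, smul_eq_mul, zc] <;>
    exact sum_congr rfl fun g _ => by ring

open MulAction Subgroup Function in
theorem det_eul (g : G) (t : ℂ) [Fintype (orbitRel.Quotient (zpowers g) (G ⧸ U))] :
    (1 - t • Mat ψ g⁻¹).det = ∏ q : orbitRel.Quotient (zpowers g) (G ⧸ U),
      (1 - t ^ minimalPeriod (g • ·) q.out *
        ext0 ψ (q.out.out⁻¹ * (g ^ minimalPeriod (g • ·) q.out)⁻¹ * q.out.out)) := by
  classical
  rw [← det_submatrix_equiv_self (quotientEquivSigmaZMod U g).symm, det_sigma]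
  · refine prod_congr rfl fun q _ => ?_
    have hP : ∀ i : ZMod (minimalPeriod (g • ·) q.out),
        (quotientEquivSigmaZMod U g).symm ⟨q, i⟩ = g ^ i.val • q.out := fun i => by
      rw [quotientEquivSigmaZMod_symm_apply, ZMod.cast_eq_val, zpow_natCast]
    have hE : ∀ (k : ℕ) (j : ZMod (minimalPeriod (g • ·) q.out)),
        g ^ k • q.out = g ^ j.val • q.out ↔ j = k := fun k j => by
      rw [← hP, Equiv.eq_symm_apply, ← zpow_natCast, quotientEquivSigmaZMod_apply, Int.cast_natCast,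
        Sigma.mk.inj_iff, heq_iff_eq, eq_comm (a := j)]
      exact and_iff_right rfl
    have tel : ∀ k : ℕ, ∏ i ∈ range k, Mat ψ g⁻¹ (g ^ i • q.out) (g ^ (i + 1) • q.out) =
        Mat ψ (g ^ k)⁻¹ q.out (g ^ k • q.out) := fun k => by
      induction k with
      | zero => simp
      | succ k ih =>
        rw [prod_range_succ, ih, mat_apply, mat_apply, mat_apply, ← ext0_mul' ψ _
          ((mem_iff _ _ _).2 (by rw [pow_succ', mul_smul, inv_smul_smul]))]
        congr 1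
        rw [pow_succ' g k]
        group
    have h1 := DetX.det_one (k := ℂ) (minimalPeriod (g • ·) q.out)
      (fun i => t * Mat ψ g⁻¹ (g ^ i.val • q.out) (g ^ (i.val + 1) • q.out)) 1
    rw [DetX.prod_val _ fun i => t * Mat ψ g⁻¹ (g ^ i • q.out) (g ^ (i + 1) • q.out),
      prod_mul_distrib, tel, prod_const, card_range, one_pow,
      pow_smul_eq_iff_minimalPeriod_dvd.2 dvd_rfl, mat_apply] at h1
    rw [← h1]
    congr 1
    ext i j
    simp only [of_apply, submatrix_apply, Matrix.sub_apply, Matrix.smul_apply, one_smul, hP,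
      smul_eq_mul]
    congr 1
    · simp only [one_apply, hE, ZMod.natCast_zmod_val, eq_comm (a := i)]
    · split_ifs with h
      · rw [(hE (i.val + 1) j).2 (by simpa using h)]
      · rw [mat_apply, ext0_not, mul_zero]
        rw [mem_iff, eq_inv_smul_iff, ← mul_smul, ← pow_succ', hE]
        simpa using h
  · intro x y hxy
    rw [submatrix_apply, Matrix.sub_apply, one_apply_ne fun e => hxy (congrArg Sigma.fst
      ((quotientEquivSigmaZMod U g).symm.injective e)), Matrix.smul_apply, mat_apply, ext0_not,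
      smul_zero, sub_zero]
    rw [mem_iff, eq_inv_smul_iff]
    intro e
    apply hxy
    obtain ⟨q, i⟩ := x
    rw [quotientEquivSigmaZMod_symm_apply, ← mul_smul, ← _root_.zpow_one_add, Equiv.eq_symm_apply,
      quotientEquivSigmaZMod_apply] at e
    rw [← e]

end Ext

end Pool.Agent.MP_f3cd89_nt.Tw
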