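import Pool.Agent.MP_f3cd89_nt.Tw.Abs

/-! The gain of one factor `p` when the commutator subgroup has a normal Sylow `p`-subgroup. -/

set_option autoImplicit false
set_option linter.unusedSectionVars false

open Finset Matrix NumberField IsDedekindDomain Polynomial

namespace Pool.Agent.MP_f3cd89_nt.Tw

variable {G : Type} [Group G] [Fintype G]

variable (G) in
/-- the ring of integral functions on linear characters -/
noncomputable def BB : Subring ((G →* ℂˣ) → ℂ) where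
  carrier := TwI G OO
  mul_mem' := twI_mul idl_OO
  one_mem' := (one_mem (Cg G idl_OO)).1
  add_mem' := add_mem
  zero_mem' := zero_mem _
  neg_mem' := neg_mem

variable (G) in
/-- the ideal of functions with coefficients in `J` -/
noncomputable def II {J : AddSubgroup ℂ} (hJ : Idl J) : Ideal (BB G) where
  carrier := {f | f.1 ∈ TwI G J}
  add_mem' := fun h h' => (TwI G J).add_mem h h'
  zero_mem' := zero_mem (TwI G J)
  smul_mem' := fun c _ hf => twI_mul hJ c.2 hf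

/-- evaluation at a linear character -/
noncomputable def evB (ρ : G →* ℂˣ) : BB G →+* ℂ := (Pi.evalRingHom _ ρ).comp (BB G).subtype

theorem evB_ext {m : Type} {M M' : Matrix m m (BB G)} (h : ∀ ρ, M.map (evB ρ) = M'.map (evB ρ)) :
    M = M' := by
  ext a b ρ
  exact congrFun (congrFun (h ρ) a) b

theorem p_mem {p : ℕ} : (p : BB G) ∈ II G (idl_Jp p) := by
  have h : (p : ℂ) ∈ Jp p := ⟨p, Ideal.le_radical (Ideal.mem_span_singleton_self _), by simp⟩
  change ((p : BB G) : (G →* ℂˣ) → ℂ) ∈ TwI G (Jp p)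
  convert gen_mem h (1 : G) using 1
  funext ρ
  simp

variable {U : Subgroup G}

/-- the universal twist of an induced representation -/
noncomputable def uni (ψ : U →* ℂˣ) : G →* Matrix (G ⧸ U) (G ⧸ U) (BB G) where
  toFun g := of fun a b => ⟨fun ρ => Mat ψ g a b * ρ g, gen_mem (ext0_int ψ _) g⟩
  map_one' := evB_ext fun ρ => by
    rw [Matrix.map_one _ (map_zero _) (map_one _), ← map_one (Mat ψ)]
    ext a b
    change Mat ψ 1 a b * ρ 1 = _
    simp
  map_mul' g h := evB_ext fun ρ => by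
    rw [Matrix.map_mul]
    ext a b
    change Mat ψ (g * h) a b * ρ (g * h) = ∑ c, Mat ψ g a c * ρ g * (Mat ψ h c b * ρ h)
    rw [map_mul, Matrix.mul_apply, sum_mul, map_mul, Units.val_mul]
    exact sum_congr rfl fun c _ => by ring

theorem uni_ev (ψ : U →* ℂˣ) (g : G) (ρ : G →* ℂˣ) :
    (uni ψ g).map (evB ρ) = (ρ g : ℂ) • Mat ψ g := by
  ext a b
  exact mul_comm _ _

/-- the universal twist on the integral group ring -/
noncomputable def Lam (ψ : U →* ℂˣ) : MonoidAlgebra ℤ G →+* Matrix (G ⧸ U) (G ⧸ U) (BB G) :=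
  (MonoidAlgebra.lift ℤ _ G (uni ψ)).toRingHom

theorem lam_of (ψ : U →* ℂˣ) (g : G) : Lam ψ (MonoidAlgebra.of ℤ G g) = uni ψ g :=
  MonoidAlgebra.lift_of _ g

theorem lam_ev (ψ : U →* ℂˣ) (x : MonoidAlgebra ℤ G) (ρ : G →* ℂˣ) :
    (Lam ψ x).map (evB ρ) = ∑ g, (cv ρ * zc x.coeff) g • Mat ψ g := by
  have h : Lam ψ x = ∑ g, x.coeff g • uni ψ g :=
    (MonoidAlgebra.lift_apply _ _).trans (Finsupp.sum_fintype _ _ (by simp))
  rw [h, ← RingHom.mapMatrix_apply, map_sum]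
  refine sum_congr rfl fun g _ => ?_
  rw [map_zsmul, RingHom.mapMatrix_apply, uni_ev, ← Int.cast_smul_eq_zsmul ℂ, smul_smul, mul_comm]
  rfl

theorem exists_tp {p : ℕ} (hp : p.Prime) : ∃ t w : MonoidAlgebra ℤ G, t * t - t = p * w ∧
    ∀ (k n : Type) [Field k] [Fintype n] [DecidableEq n] [Nonempty n]
      (F : MonoidAlgebra ℤ G →+* Matrix n n k), (p : k) = 0 →
      Submodule.span k (Set.range F) = ⊤ → (1 + (X - 1 : k[X]) • (F t).map C).det = X := by
  have := Fact.mk hp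
  have : Finite (MonoidAlgebra (ZMod p) G) :=
    Finite.of_injective (fun x => (x.coeff : G → ZMod p)) fun x y h =>
      MonoidAlgebra.ext (DFunLike.coe_injective h)
  let π := MonoidAlgebra.mapRingHom G (Int.castRingHom (ZMod p))
  have hπ : Function.Surjective π := fun y =>
    ⟨.ofCoeff (Finsupp.equivFunOnFinite.symm fun g => (y.coeff g).cast), by
      ext g
      rw [MonoidAlgebra.coeff_mapRingHom]
      exact ZMod.intCast_zmod_cast _⟩
  have ker : ∀ x, π x = 0 → ∃ w, x = p * w := fun x hx => by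
    have h1 : ∀ g, (p : ℤ) ∣ x.coeff g := fun g => by
      have := congrArg (fun z => z.coeff g) hx
      simp only [π, MonoidAlgebra.coeff_mapRingHom] at this
      exact (ZMod.intCast_zmod_eq_zero_iff_dvd _ p).1 this
    choose c hc using h1
    refine ⟨.ofCoeff (Finsupp.equivFunOnFinite.symm c), ?_⟩
    ext g
    rw [← nsmul_eq_mul, hc, MonoidAlgebra.coeff_smul, Finsupp.smul_apply, nsmul_eq_mul]
    rfl
  obtain ⟨t, h1, h2⟩ := exists_t π hπ
  obtain ⟨w, hw⟩ := ker _ h1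
  refine ⟨t, w, hw, fun k n _ _ _ _ F hk hs => h2 k n F (fun x hx => ?_) hs⟩
  obtain ⟨y, rfl⟩ := ker x hx
  rw [map_mul, map_natCast, ← nsmul_eq_mul, ← Nat.cast_smul_eq_nsmul k, hk, zero_smul]

section Good

variable {K : Type} [Field K] [NumberField K] {S : Finset (Pr K)} {φ : Pr K → G}
  {T : Finset (Pr K)}

theorem good_base {p b m t₀ : ℕ} (hp : p.Prime) (hb : Nat.card G = p ^ b * m) (hm : ¬p ∣ m)
    (ht₀ : p ^ b ∣ m * t₀ + 1) {P : Subgroup G} [P.Normal] (hPG : P ≤ commutator G)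
    (hi : ¬p ∣ P.relIndex (commutator G)) {t w y : MonoidAlgebra ℤ G} (hw : t * t - t = p * w)
    (ht : ∀ (k n : Type) [Field k] [Fintype n] [DecidableEq n] [Nonempty n]
      (F : MonoidAlgebra ℤ G →+* Matrix n n k), (p : k) = 0 →
      Submodule.span k (Set.range F) = ⊤ → (1 + (X - 1 : k[X]) • (F t).map C).det = X)
    {u : ℤ} (hu : (p : ℤ) ∣ u - 1) (hy : ∀ r : Irr G, (∀ π ∈ P, r.ρ π = 1) →
      ∑ g, zc y.coeff g • r.ρ g = (u * sv S φ T (dt r.ρ)) • (1 : Matrix (Fin r.n) (Fin r.n) ℂ))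
    (hL : Lev S φ T U) {ψ : U →* ℂˣ} (hψ : ∀ u, ψ u ^ m = 1) (r : Irr G)
    (h : ∀ g, (Mat ψ g).trace = chr r g) (hP : ∀ π ∈ P, Mat ψ π = 1) :
    Good S φ T (idl_Jp p) (1 + (y - 1) * t).coeff (dt (Mat ψ)) := by
  refine ⟨fun ρ => by simp only [← dt_mat_tw]; exact hL.1 _, ?_⟩
  have hs : (fun ρ : G →* ℂˣ => sv S φ T fun c => dt (Mat ψ) (cv ρ * c)) ∈ BB G := by
    simp only [← dt_mat_tw]
    exact (cg_int idl_OO (ψ' := ψ) (fun u => by rw [sub_self]; exact zero_mem _) hL.2).1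
  obtain ⟨A, B, h1, h2, h3⟩ := iso r _ h
  have h4 : Lam ψ y = ((u : BB G) * ⟨_, hs⟩) • (1 : Matrix (G ⧸ U) (G ⧸ U) (BB G)) :=
    evB_ext fun ρ => by
      have h5 := hy (tw r ρ) fun π hπ => by
        have e : ρ π = 1 := Abelianization.commutator_subset_ker ρ (hPG hπ)
        rw [tw_apply, e, h3, hP π hπ, Matrix.mul_one, h1]
        exact one_smul _ _
      have h6 : dt (tw r ρ).ρ = fun c => dt (Mat ψ) (cv ρ * c) :=
        funext fun c => by rw [dt_tw, dt_conj h1 h2 h3]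
      rw [h6] at h5
      have h7 : ∑ g, zc y.coeff g • (ρ g : ℂ) • r.ρ g = (u * sv S φ T fun c => dt (Mat ψ)
        (cv ρ * c)) • (1 : Matrix (Fin r.n) (Fin r.n) ℂ) := h5
      have h8 := congrArg (fun M => B * M * A) h7
      have h9 : ∀ g, B * r.ρ g * A = Mat ψ g := fun g => by
        calc B * r.ρ g * A = (B * A) * Mat ψ g * (B * A) := by
              rw [h3]; simp only [Matrix.mul_assoc]
          _ = _ := by rw [h2, Matrix.one_mul, Matrix.mul_one]
      simp only [Matrix.mul_sum, Matrix.sum_mul, Matrix.mul_smul, Matrix.smul_mul, h9,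
        Matrix.mul_one, h2, smul_smul] at h8
      rw [lam_ev, Matrix.map_smul' _ _ _ (map_mul _), Matrix.map_one _ (map_zero _) (map_one _),
        map_mul, map_intCast]
      refine Eq.trans (sum_congr rfl fun g _ => ?_) h8
      rw [mul_comm]
      rfl
  let mk := Ideal.Quotient.mk (II G (idl_Jp p))
  have p0 : mk p = 0 := Ideal.Quotient.eq_zero_iff_mem.2 p_mem
  have hE : (Lam ψ t).map mk * (Lam ψ t).map mk = (Lam ψ t).map mk := by
    have h5 := congrArg (fun x => mk.mapMatrix (Lam ψ x)) hw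
    simp only [map_sub, map_mul, map_natCast] at h5
    rw [← nsmul_eq_mul, ← Nat.cast_smul_eq_nsmul (BB G ⧸ II G (idl_Jp p)), ← map_natCast mk, p0,
      zero_smul, sub_eq_zero] at h5
    exact h5
  obtain ⟨ι, _, v, hι, hv⟩ := proj hp hb hm ht₀ hψ hPG hi r h hP
  have hv' : ∑ i, (⟨fun ρ => ext0 ψ (v i)⁻¹ * ρ (v i)⁻¹, gen_mem (ext0_int ψ _) _⟩ : BB G) •
      uni ψ (v i) = (Fintype.card ι : BB G) • single ((1 : G) : G ⧸ U) ((1 : G) : G ⧸ U) 1 :=
    evB_ext fun ρ => by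
      rw [Matrix.map_smul' _ _ _ (map_mul _), map_natCast, map_single _ _ _ (evB ρ), map_one, ← hv,
        ← RingHom.mapMatrix_apply, map_sum]
      refine sum_congr rfl fun i _ => ?_
      rw [RingHom.mapMatrix_apply, Matrix.map_smul' _ _ _ (map_mul _), uni_ev, smul_smul]
      congr 1
      change ext0 ψ (v i)⁻¹ * ρ (v i)⁻¹ * ρ (v i) = _
      simp
  have key := det_idem hE (fun k _ τ => by
    have hk : (p : k) = 0 := by rw [← map_natCast (τ.comp mk), RingHom.comp_apply, p0, map_zero]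
    let F : MonoidAlgebra ℤ G →+* Matrix (G ⧸ U) (G ⧸ U) k := (τ.comp mk).mapMatrix.comp (Lam ψ)
    let s : G →* Matrix (G ⧸ U) (G ⧸ U) k := (τ.comp mk).mapMatrix.toMonoidHom.comp (uni ψ)
    have h5 : Submodule.span k (Set.range s) = ⊤ := span_top s (fun g a b hab => by
      have : uni ψ g a b = 0 := Subtype.ext (funext fun ρ => by
        change Mat ψ g a b * ρ g = 0
        rw [mat_zero hab, zero_mul])
      change (τ.comp mk) (uni ψ g a b) = 0
      rw [this, map_zero]) (by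
      have h6 := congrArg (τ.comp mk).mapMatrix hv'
      rw [map_sum, RingHom.mapMatrix_apply, Matrix.map_smul' _ _ _ (map_mul _), map_natCast,
        map_single _ _ _ (τ.comp mk), map_one] at h6
      have h7 : (Fintype.card ι : k) ≠ 0 := fun e => hι (by
        have := ringChar.of_eq (R := k) (CharP.ringChar_of_prime_eq_zero hp hk)
        exact (CharP.cast_eq_zero_iff k p _).1 e)
      rw [← Submodule.smul_mem_iff _ h7, ← h6]
      refine Submodule.sum_mem _ fun i _ => ?_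
      rw [RingHom.mapMatrix_apply, Matrix.map_smul' _ _ _ (map_mul _)]
      exact Submodule.smul_mem _ _ (Submodule.subset_span ⟨v i, rfl⟩))
    refine ht k _ F hk (top_le_iff.1 (h5.ge.trans (Submodule.span_mono ?_)))
    rintro _ ⟨g, rfl⟩
    exact ⟨MonoidAlgebra.of ℤ G g, congrArg (τ.comp mk).mapMatrix (lam_of ψ g)⟩)
    (mk ((u : BB G) * ⟨_, hs⟩))
  have h10 : mk (Lam ψ (1 + (y - 1) * t)).det = mk ⟨_, hs⟩ := by
    obtain ⟨c, hc⟩ := hu
    have e : mk (u : BB G) = 1 := by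
      rw [show u = p * c + 1 by linear_combination hc]
      simp only [Int.cast_add, Int.cast_mul, Int.cast_natCast, Int.cast_one, map_add, map_mul, p0,
        zero_mul, zero_add, map_one]
    rw [map_mul, e, one_mul] at key
    rw [← key, RingHom.map_det, map_add, map_mul, map_sub, h4, map_one, map_add, map_one]
    congr 2
    rw [sub_mul, Matrix.smul_mul, one_mul, map_sub, sub_smul, one_smul, RingHom.mapMatrix_apply,
      Matrix.map_smul' _ _ _ (map_mul _), map_mul, e, one_mul]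
    rfl
  have h11 : ((Lam ψ (1 + (y - 1) * t)).det : BB G).1 =
      fun ρ => dt (Mat ψ) (cv ρ * zc (1 + (y - 1) * t).coeff) := funext fun ρ => by
    rw [dt, ← lam_ev]
    exact (evB ρ).map_det _
  rw [← h11]
  exact ⟨hs, (Lam ψ (1 + (y - 1) * t)).det.2, Ideal.Quotient.eq.1 h10.symm⟩

theorem good_all' {J : AddSubgroup ℂ} {hJ : Idl J} {x : G → ℤ} (hm : IsMonomial G) {j : G}
    (hj : ∀ g, j * g = g * j) (hL : ∀ U, j ∈ U → Lev S φ T U)
    (H : ∀ (U : Subgroup G) (ψ : U →* ℂˣ), j ∈ U → ∃ ψ' : U →* ℂˣ, (∀ u, (ψ u : ℂ) - ψ' u ∈ J) ∧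
      ((∀ W : Submodule ℂ (G ⧸ U → ℂ), (∀ g, ∀ v ∈ W, Mat ψ' g *ᵥ v ∈ W) → W = ⊥ ∨ W = ⊤) →
        Good S φ T hJ x (dt (Mat ψ')))) (n : ℕ)
    (R : G →* Matrix (Fin n) (Fin n) ℂ) : Good S φ T hJ x (dt R) := by
  induction n using Nat.strong_induction_on with
  | h n ih =>
    rcases Nat.eq_zero_or_pos n with rfl | hn
    · rw [show dt R = 1 from funext fun c => det_isEmpty]
      exact good_one
    by_cases hi : ∀ W : Submodule ℂ (Fin n → ℂ), (∀ g, ∀ v ∈ W, (R g).mulVec v ∈ W) →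
      W = ⊥ ∨ W = ⊤
    swap
    · push Not at hi
      obtain ⟨W, h1, h2, h3⟩ := hi
      obtain ⟨a, b, R₁, R₂, ha, hb, e⟩ := split R W h1 h2 h3
      rw [Fintype.card_fin] at ha hb
      exact e ▸ good_mul (ih a ha R₁) (ih b hb R₂)
    obtain ⟨U, ψ, hU, h⟩ := ind_data hm hj ⟨n, R, hn, hi⟩
    rw [show dt R = _ from dt_iso ⟨n, R, hn, hi⟩ _ h]
    obtain ⟨ψ', hψ, H'⟩ := H U ψ hU
    refine good_tr (hL U hU) hψ ?_
    by_contra hne
    have hr := mt H' hne
    push Not at hr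
    obtain ⟨W, h1, h2, h3⟩ := hr
    obtain ⟨a, b, R₁, R₂, ha, hb, e⟩ := split _ W h1 h2 h3
    have h4 := h 1
    rw [chr_one, map_one, trace_one, Nat.cast_inj] at h4
    rw [h4] at ha hb
    exact hne (e ▸ good_mul (ih a ha R₁) (ih b hb R₂))

theorem sv_tw (hm : IsMonomial G) {j : G} (hj : ∀ g, j * g = g * j)
    (hL : ∀ U, j ∈ U → Lev S φ T U) (r : Irr G) :
    (fun ρ => sv S φ T (dt (tw r ρ).ρ)) ∈ TwI G OO := by
  obtain ⟨U, ψ, hU, h⟩ := ind_data hm hj r
  have h2 : ∀ ρ, dt (tw r ρ).ρ = dt (Mat (ψ * ρ.comp U.subtype)) := fun ρ =>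
    funext fun c => by rw [dt_tw, dt_mat_tw, dt_iso r _ h]
  simp only [h2]
  exact (cg_int idl_OO (ψ' := ψ) (fun u => by rw [sub_self]; exact zero_mem _) (hL U hU).2).1

theorem exists_y (hm : IsMonomial G) {j : G} (hj : ∀ g, j * g = g * j)
    (hL : ∀ U, j ∈ U → Lev S φ T U) {P : Subgroup G} (hPG : P ≤ commutator G) (a : ℤ) :
    ∃ y : MonoidAlgebra ℤ G, ∀ r : Irr G, (∀ π ∈ P, r.ρ π = 1) → ∑ g, zc y.coeff g • r.ρ g =
      ((a * P.relIndex (commutator G) : ℤ) * sv S φ T (dt r.ρ)) •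
        (1 : Matrix (Fin r.n) (Fin r.n) ℂ) := by
  classical
  have tr : ∀ r r' : Irr G, chr r = chr r' → (∀ π ∈ P, r'.ρ π = 1) → ∀ π ∈ P, r.ρ π = 1 :=
    fun r r' h H π hπ => by
      obtain ⟨A, B, h1, -, h3⟩ := iso r r'.ρ fun g => (congrFun h g).symm
      rw [h3, H π hπ, Matrix.mul_one, h1]
  obtain ⟨c, -, c2, c3, c4⟩ := assemble' idl_OO
    (fun r => if ∀ π ∈ P, r.ρ π = 1 then sv S φ T (dt r.ρ) else 0)
    (fun r r' h => by
      rw [dt_iso r r'.ρ fun g => (congrFun h g).symm]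
      exact if_congr ⟨tr r' r h.symm, tr r r' h⟩ rfl rfl)
    (fun r σ => by
      have e : (∀ π ∈ P, (gal r σ).ρ π = 1) ↔ ∀ π ∈ P, r.ρ π = 1 :=
        forall₂_congr fun π _ => (σ.mapMatrix (m := Fin r.n)).map_eq_one_iff
      rw [if_congr e rfl rfl, sv_gal hm hj hL]
      split_ifs
      · rfl
      · exact (map_zero σ).symm)
    fun r => by
      have e : ∀ ρ : G →* ℂˣ, (∀ π ∈ P, (tw r ρ).ρ π = 1) ↔ ∀ π ∈ P, r.ρ π = 1 := fun ρ =>
        forall₂_congr fun π hπ => by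
          have e : ρ π = 1 := Abelianization.commutator_subset_ker ρ (hPG hπ)
          rw [tw_apply, e]
          exact Eq.congr_left (one_smul _ _)
      simp only [e]
      split_ifs
      · exact sv_tw hm hj hL r
      · exact zero_mem _
  have c5 : ∀ g, ∀ π ∈ P, c (g * π) = c g := fun g π hπ => c4 g π fun r hr => by
    by_contra e
    exact hr (if_neg fun H => e (H π hπ))
  refine ⟨∑ q : G ⧸ P, MonoidAlgebra.single q.out (a * c q.out), fun r hr => ?_⟩
  obtain ⟨s, hs⟩ := scalar r (A := ∑ g, (c g : ℂ) • r.ρ g) fun g => by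
    rw [Matrix.mul_sum, Matrix.sum_mul, ← Equiv.sum_comp (MulAut.conj g).toEquiv
      (fun b => ((c b : ℂ) • r.ρ b) * r.ρ g)]
    refine sum_congr rfl fun b _ => ?_
    change _ = ((c (g * b * g⁻¹) : ℂ) • r.ρ (g * b * g⁻¹)) * r.ρ g
    rw [Matrix.smul_mul, Matrix.mul_smul, ← map_mul, ← map_mul, inv_mul_cancel_right, c2]
  have h1 := congrArg trace hs
  have h2 := c3 r
  rw [if_pos hr] at h2
  simp only [trace_sum, trace_smul, smul_eq_mul, trace_one, Fintype.card_fin] at h1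
  have h3 : s = Nat.card (commutator G) * sv S φ T (dt r.ρ) :=
    mul_left_cancel₀ (n_ne r) ((mul_comm _ _).trans (h1.symm.trans h2))
  rw [sum_quot P (fun g => (c g : ℂ) • r.ρ g) fun g π hπ => by
    rw [c5 g π hπ, map_mul, hr π hπ, mul_one]] at hs
  have h4 : (Nat.card P : ℂ) ≠ 0 := Nat.cast_ne_zero.2 Nat.card_pos.ne'
  have h5 : Nat.card (commutator G) = Nat.card P * P.relIndex (commutator G) := by
    rw [Subgroup.relIndex, ← Subgroup.card_mul_index (P.subgroupOf (commutator G)),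
      Nat.card_congr (Subgroup.subgroupOfEquivOfLe hPG).toEquiv]
  rw [← lin_sum, Irr.lin, map_sum]
  refine smul_right_injective _ h4 ?_
  simp only [MonoidAlgebra.lift_single, mul_smul, ← smul_sum]
  rw [← Nat.cast_smul_eq_nsmul ℂ] at hs
  simp only [← Int.cast_smul_eq_zsmul ℂ]
  rw [smul_comm, hs, h3, h5]
  simp only [smul_smul]
  congr 1
  push_cast
  ring

theorem exists_x {p : ℕ} (hp : p.Prime) (hm : IsMonomial G) {j : G} (hj : ∀ g, j * g = g * j)
    (hL : ∀ U, j ∈ U → Lev S φ T U) (Q : Sylow p (commutator G))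
    (hQ : (Q : Subgroup (commutator G)).Normal) : ∃ x : G → ℤ, ∀ r : Irr G,
      Good S φ T (idl_Jp p) x (dt r.ρ) := by
  have := Fact.mk hp
  have := Q.characteristic_of_normal hQ
  let P : Subgroup G := (Q : Subgroup (commutator G)).map (commutator G).subtype
  have hPG : P ≤ commutator G := Subgroup.map_subtype_le _
  have hP : IsPGroup p P := Q.isPGroup'.map _
  have hi : ¬p ∣ P.relIndex (commutator G) := by
    rw [Subgroup.relIndex, Subgroup.subgroupOf, Subgroup.comap_map_eq_self_of_injective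
      (commutator G).subtype_injective]
    exact Q.not_dvd_index
  obtain ⟨b, m, t₀, hb, hm', ht₀⟩ := exists_e (G := G) hp
  obtain ⟨t, w, hw, ht⟩ := exists_tp (G := G) hp
  obtain ⟨c, a, ha⟩ := Nat.isCoprime_iff_coprime.2 (hp.coprime_iff_not_dvd.2 hi)
  obtain ⟨y, hy⟩ := exists_y hm hj hL hPG a
  refine ⟨(1 + (y - 1) * t).coeff, fun r => good_all' hm hj hL (fun U ψ hU => ?_) r.n r.ρ⟩
  obtain ⟨ψ', h1, h2⟩ := ppart' hp hb ht₀ ψ
  refine ⟨ψ', h1, fun hirr => ?_⟩
  obtain ⟨r', hr'⟩ := mk_irr _ hirr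
  exact good_base hp hb hm' ht₀ hPG hi hw ht ⟨-c, by linear_combination ha⟩ hy (hL U hU) h2 r' hr'
    (fix_triv hp hm' h2 hP hirr)

theorem at_prime {p e : ℕ} (hp : p.Prime) (hm : IsMonomial G) {j : G} (hj : ∀ g, j * g = g * j)
    (hL : ∀ U, j ∈ U → Lev S φ T U) (Q : Sylow p (commutator G))
    (hQ : (Q : Subgroup (commutator G)).Normal) (he : Nat.card (commutator G) = e * p)
    {z : MonoidAlgebra ℤ G} (hz : z ∈ Subring.center (MonoidAlgebra ℤ G)) :
    e • (cen z * fun r => sv S φ T (dt r.ρ)) ∈ intRing G := by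
  obtain ⟨x, hx⟩ := exists_x hp hm hj hL Q hQ
  obtain ⟨c, c1, c2, c3⟩ := assemble (idl_Jp p) (fun r => sv S φ T (dt r.ρ) - dt r.ρ (zc x))
    (fun r r' h => by rw [dt_iso r r'.ρ fun g => (congrFun h g).symm])
    (fun r σ => by rw [sv_gal hm hj hL, dt_gal, map_sub]) fun r => by
      have h2 : ∀ ρ, dt (tw r ρ).ρ = fun c => dt r.ρ (cv ρ * c) := fun ρ => funext (dt_tw r ρ)
      simp only [h2]
      exact (hx r).2.2.2
  choose c' hc' using fun g => int_mem hp (c1 g)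
  have p0 : (p : ℂ) ≠ 0 := Nat.cast_ne_zero.2 hp.ne_zero
  obtain ⟨y, hy, hy'⟩ := exists_cen c' fun g h => mul_left_cancel₀
    (Nat.cast_ne_zero.2 hp.ne_zero : (p : ℤ) ≠ 0) (by rw [← hc', ← hc', c2])
  have m1 : ∀ z ∈ Subring.center (MonoidAlgebra ℤ G), ∀ a,
      cen z * nr (Matrix.of fun _ _ : Fin 1 => a) ∈ intRing G := fun z hz a =>
    AddSubgroup.subset_closure ⟨z, hz, _, ⟨1, le_rfl, _, rfl⟩, rfl⟩
  convert add_mem (m1 _ (mul_mem hz hy) 1) (nsmul_mem
    (m1 z hz (MonoidAlgebra.ofCoeff (Finsupp.equivFunOnFinite.symm x))) e) using 1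
  funext r
  have h3 := c3 r
  simp only [hc', Int.cast_mul, Int.cast_natCast, mul_assoc, ← mul_sum, he, Nat.cast_mul] at h3
  have h4 : cen y r = e * (sv S φ T (dt r.ρ) - dt r.ρ (zc x)) := by
    rw [hy', div_eq_iff (n_ne r)]
    exact mul_left_cancel₀ p0 (h3.trans (by ring))
  have h5 : nr (Matrix.of fun _ _ : Fin 1 => (1 : MonoidAlgebra ℤ G)) r = 1 := by
    rw [FinalX.nr_one, Irr.lin, map_one, det_one]
  have h6 : nr (Matrix.of fun _ _ : Fin 1 =>
      MonoidAlgebra.ofCoeff (Finsupp.equivFunOnFinite.symm x)) r = dt r.ρ (zc x) := nr_dt _ r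
  simp only [Pi.add_apply, Pi.mul_apply, Pi.smul_apply, cen_mul hz, h4, h5, h6,
    nsmul_eq_mul, Pi.natCast_apply]
  ring

theorem at_all (hm : IsMonomial G) {j : G} (hj : ∀ g, j * g = g * j)
    (hL : ∀ U, j ∈ U → Lev S φ T U) {z : MonoidAlgebra ℤ G}
    (hz : z ∈ Subring.center (MonoidAlgebra ℤ G)) :
    Nat.card (commutator G) • (cen z * fun r => sv S φ T (dt r.ρ)) ∈ intRing G := by
  obtain ⟨c, -, c2, c3⟩ := assemble idl_OO (fun r => sv S φ T (dt r.ρ))
    (fun r r' h => by rw [dt_iso r r'.ρ fun g => (congrFun h g).symm])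
    (sv_gal hm hj hL) (sv_tw hm hj hL)
  obtain ⟨y, hy, hy'⟩ := exists_cen c c2
  have m1 : cen (z * y) * nr (Matrix.of fun _ _ : Fin 1 => (1 : MonoidAlgebra ℤ G)) ∈ intRing G :=
    AddSubgroup.subset_closure ⟨_, mul_mem hz hy, _, ⟨1, le_rfl, _, rfl⟩, rfl⟩
  convert m1 using 1
  funext r
  have h5 : nr (Matrix.of fun _ _ : Fin 1 => (1 : MonoidAlgebra ℤ G)) r = 1 := by
    rw [FinalX.nr_one, Irr.lin, map_one, det_one]
  simp only [Pi.mul_apply, Pi.smul_apply, cen_mul hz, hy', c3, h5,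
    mul_div_cancel_left₀ _ (n_ne r), nsmul_eq_mul]
  ring

end Good

theorem sqfree {K L : Type} [Field K] [NumberField K] [Field L] [NumberField L] [Algebra K L]
    [IsGalois K L] [IsTotallyReal K] [IsCMField L] {S : Finset (Pr K)} {φ : Pr K → (L ≃ₐ[K] L)}
    (hm : IsMonomial (L ≃ₐ[K] L)) {d s : ℕ} (hs : Squarefree s)
    (hd : Nat.card (commutator (L ≃ₐ[K] L)) = d * s)
    (hP : ∀ p : ℕ, p.Prime → p ∣ s → ∃ Q : Sylow p (commutator (L ≃ₐ[K] L)),
      (Q : Subgroup (commutator (L ≃ₐ[K] L))).Normal)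
    (hS : ∀ w : Pr L, w.under (𝓞 K) ∉ S → Algebra.IsUnramifiedAt (𝓞 K) w.asIdeal)
    (hφ : IsFrob L S φ) : ∃ θ : Irr (L ≃ₐ[K] L) → ℂ, (∀ r c, IsLValue S φ r.ρ c ↔ c = θ r) ∧
      ∀ x ∈ annA S φ, d • (x * θ) ∈ intRing (L ≃ₐ[K] L) := by
  obtain ⟨h1, j, hj, hL⟩ := setup hm hS hφ
  refine ⟨_, h1, fun x hx => ?_⟩
  induction hx using AddSubgroup.closure_induction with
  | mem x hx =>
    obtain ⟨z, hz, _, ⟨T, hT, rfl⟩, rfl⟩ := hx
    have e : cen z * delta φ T * (fun r => val S φ (dt r.ρ)) =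
        cen z * fun r => sv S φ T (dt r.ρ) := by
      funext r
      simp only [Pi.mul_apply, delta_eq, sv, mul_assoc]
    rw [e]
    refine ArithX.loc_glob _ _ fun p hp => ?_
    by_cases hps : p ∣ s
    · obtain ⟨Q, hQ⟩ := hP p hp hps
      obtain ⟨s', rfl⟩ := hps
      refine ⟨s', (Nat.coprime_of_squarefree_mul hs).symm, ?_⟩
      rw [smul_smul]
      exact at_prime hp hm hj (hL T hT) Q hQ (by rw [hd]; ring) hz
    · refine ⟨s, (hp.coprime_iff_not_dvd.2 hps).symm, ?_⟩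
      rw [smul_smul, mul_comm s, ← hd]
      exact at_all hm hj (hL T hT) hz
  | zero => rw [zero_mul, smul_zero]; exact zero_mem _
  | add f g _ _ hf hg => rw [add_mul, smul_add]; exact add_mem hf hg
  | neg f _ hf => rw [neg_mul, smul_neg]; exact neg_mem hf

end Pool.Agent.MP_f3cd89_nt.Tw
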