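import Pool.Agent.MP_f3cd89_nt.Tw.AMw
import Pool.Agent.MP_f3cd89_nt.Tw.Cl

/-! Two factors of `p` from the transfer congruences. -/

set_option autoImplicit false
set_option linter.unusedSectionVars false

open Finset Matrix NumberField IsDedekindDomain

namespace Pool.Agent.MP_f3cd89_nt.Tw

variable {G : Type} [Group G] [Fintype G] {p : ℕ}

/-- `p` times the radical of `p` -/
noncomputable def PJ (p : ℕ) : AddSubgroup ℂ := (Jp p).map (AddMonoidHom.mulLeft (p : ℂ))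

theorem pj_mem {a b : ℂ} (ha : a ∈ Jp p) (hb : IsIntegral ℤ b) : b * a * p ∈ PJ p :=
  ⟨b * a, (idl_Jp p).2 a ha b hb, mul_comm _ _⟩

theorem conj_c {c : G} (hc : c ∈ commutator G) (y : G) : y⁻¹ * c * y ∈ commutator G := by
  simpa using (inferInstance : (commutator G).Normal).conj_mem c hc y⁻¹

theorem sum_lin [Fintype (G →* ℂˣ)] [DecidablePred (· ∈ commutator G)] (h : G) :
    ∑ ρ : G →* ℂˣ, (ρ h : ℂ) = if h ∈ commutator G then (Fintype.card (G →* ℂˣ) : ℂ) else 0 := by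
  split_ifs with hc
  · simp [lin_comm _ hc]
  · obtain ⟨l, hl⟩ := CommGroup.exists_apply_ne_one_of_hasEnoughRootsOfUnity (Abelianization G) ℂ
      (a := Abelianization.of h) fun e => hc (Abelianization.ker_of G ▸ e)
    exact sum_hom_units_eq_zero ((Pi.evalMonoidHom _ h).comp cv)
      fun e => hl (Units.ext (DFunLike.congr_fun e (l.comp Abelianization.of)))

theorem lin_fun {U : Subgroup G} {l : Ch G} (h : Adm (kr l) U) (g : G) :
    ∃ Λ : ((U →* ℂˣ) → ℂ) →ₗ[ℂ] ℂ, (∀ u ∈ U, Λ (fun ψ => ext0 ψ u) = ext0 l (g⁻¹ * u)) ∧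
      ∀ f f', (∀ ψ, (∀ c ∈ commutator G, ext0 ψ c = ext0 l c) → f ψ = f' ψ) → Λ f = Λ f' := by
  classical
  have : Fintype (G →* ℂˣ) := Fintype.ofFinite _
  obtain ⟨ψ₀, h0⟩ := ext_lin (G := U) (l.comp (Subgroup.subgroupOfEquivOfLe h.1).toMonoidHom)
    fun u hu => by
      have h1 : commutator U ≤ (l.ker.map (commutator G).subtype).subgroupOf U :=
        Subgroup.commutator_le.2 fun a _ b _ => by
          have h2 := h.2 _ (inv_mem a.2) _ (inv_mem b.2)
          have h3 := cm_mem (a : G)⁻¹ (b : G)⁻¹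
          refine ⟨⟨_, h3⟩, Units.ext ((ext0_mem l h3).symm.trans h2), ?_⟩
          simp [commutatorElement_def, mul_assoc]
      obtain ⟨c, hc, e⟩ := h1 hu
      exact (congrArg l (Subtype.ext e.symm)).trans hc
  have h1 : ∀ c ∈ commutator G, ext0 ψ₀ c = ext0 l c := fun c hc => by
    rw [ext0_mem _ hc, ext0_mem _ (h.1 hc)]
    exact congrArg _ (DFunLike.congr_fun h0 ⟨⟨c, h.1 hc⟩, hc⟩)
  have hn : (Fintype.card (G →* ℂˣ) : ℂ) ≠ 0 := Nat.cast_ne_zero.2 Fintype.card_ne_zero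
  refine ⟨∑ ρ : G →* ℂˣ, (ext0 (ψ₀ * ρ.comp U.subtype) g⁻¹ / Fintype.card (G →* ℂˣ)) •
    LinearMap.proj (ψ₀ * ρ.comp U.subtype), fun u hu => ?_, fun f f' H => ?_⟩
  · simp only [LinearMap.sum_apply, LinearMap.smul_apply, LinearMap.proj_apply, smul_eq_mul,
      div_mul_eq_mul_div, ← ext0_mul' _ _ hu]
    simp only [ext0_tw, ← sum_div, ← mul_sum, sum_lin]
    split_ifs with hc
    · rw [h1 _ hc, mul_div_cancel_right₀ _ hn]
    · rw [ext0_not _ hc, mul_zero, zero_div]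
  · simp only [LinearMap.sum_apply, LinearMap.smul_apply, LinearMap.proj_apply]
    refine sum_congr rfl fun ρ _ => congrArg _ (H _ fun c hc => ?_)
    rw [ext0_tw, h1 c hc, lin_comm ρ hc, Units.val_one, mul_one]

theorem lin_sum' {U : Subgroup G} (Λ : ((U →* ℂˣ) → ℂ) →ₗ[ℂ] ℂ) (Y : G → ℤ)
    (f : G → (U →* ℂˣ) → ℂ) : Λ (fun ψ => ∑ g, Y g * f g ψ) = ∑ g, Y g * Λ (f g) := by
  simp only [← smul_eq_mul, ← map_smul, ← map_sum]
  congr 1
  funext ψ
  simp

theorem bet_eq {U : Subgroup G} {l : Ch G} {g : G} {Λ : ((U →* ℂˣ) → ℂ) →ₗ[ℂ] ℂ}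
    (h : ∀ u ∈ U, Λ (fun ψ => ext0 ψ u) = ext0 l (g⁻¹ * u)) {Y : G → ℤ} (h0 : ∀ g, g ∉ U → Y g = 0) :
    Λ (fun ψ => ∑ g, Y g * ext0 ψ g) = bet l Y g := by
  rw [lin_sum' Λ Y fun g ψ => ext0 ψ g]
  refine sum_congr rfl fun u _ => ?_
  by_cases hu : u ∈ U
  · rw [h u hu]
  · simp [h0 u hu]

/-- a representative of the coset of the commutator subgroup -/
noncomputable def sec (g : G) : G := (g : G ⧸ commutator G).out

theorem sec_mem (g : G) : (sec g)⁻¹ * g ∈ commutator G :=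
  QuotientGroup.eq.1 (QuotientGroup.out_eq' _)

theorem sec_iff {U : Subgroup G} (h : commutator G ≤ U) {g : G} (hg : g ∈ U) : sec g ∈ U := by
  simpa using mul_mem (h (sec_mem g)) (inv_mem hg)

theorem kill {U : Subgroup G} {Y : G → ℤ} (h0 : ∀ g, g ∉ U → Y g = 0)
    (h : ∀ ρ : G →* ℂˣ, ∑ g, Y g * ext0 (ρ.comp U.subtype) g = 0) (E : G → ℂ) :
    ∑ g, Y g * E (sec g) = 0 := by
  classical
  have : Fintype (G →* ℂˣ) := Fintype.ofFinite _
  have hn : (Fintype.card (G →* ℂˣ) : ℂ) ≠ 0 := Nat.cast_ne_zero.2 Fintype.card_ne_zero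
  have h1 : ∀ ρ : G →* ℂˣ, ∑ g, (Y g : ℂ) * ρ g = 0 := fun ρ => (sum_congr rfl fun g _ => by
    by_cases hg : g ∈ U
    · rw [ext0_mem _ hg]; rfl
    · simp [h0 g hg]).trans (h ρ)
  have h2 : ∀ g : G, Fintype.card (G →* ℂˣ) * E (sec g) =
      ∑ q : G ⧸ commutator G, ∑ ρ : G →* ℂˣ, E q.out * ρ q.out⁻¹ * ρ g := fun g => by
    simp only [mul_assoc, ← Units.val_mul, ← map_mul, ← mul_sum, sum_lin, ← QuotientGroup.eq,
      QuotientGroup.out_eq']
    simp [sec, mul_comm]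
  refine mul_left_cancel₀ hn ?_
  simp only [mul_sum, mul_left_comm (Fintype.card (G →* ℂˣ) : ℂ), h2]
  rw [sum_comm, mul_zero]
  refine sum_eq_zero fun q _ => ?_
  rw [sum_comm]
  refine sum_eq_zero fun ρ _ => ?_
  simp only [mul_left_comm (Y _ : ℂ), ← mul_sum, h1, mul_zero]

theorem l_sub (hp : p.Prime) (hC : IsPGroup p (commutator G)) (l : Ch G) {c : G}
    (hc : c ∈ commutator G) : ext0 l c - 1 ∈ Jp p := by
  obtain ⟨k, hk⟩ := hC ⟨c, hc⟩
  refine root_mem hp (k := k) ?_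
  rw [ext0_mem l hc, ← Units.val_pow_eq_pow_val, ← map_pow, hk, map_one, Units.val_one]

theorem cj_lin {U : Subgroup G} [U.Normal] (ρ : G →* ℂˣ) (y : G) :
    cj (ρ.comp U.subtype) y = ρ.comp U.subtype := by
  ext u
  simp [cj]

theorem k1 (hp : p.Prime) (hC : IsPGroup p (commutator G)) {U V : Subgroup G} [U.Normal]
    (hCU : commutator G ≤ U) (h : U ≤ V) (hΓ : Nat.card (Gm U V) = p) {Y : G → ℤ}
    (h0 : ∀ g, g ∉ U → Y g = 0) {y : (V →* ℂˣ) → ℂ} (hy : y ∈ IntG V)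
    (hU : ∀ ρ : G →* ℂˣ, ∑ g, Y g * ext0 (ρ.comp U.subtype) g = 0)
    (hV : ∀ ρ : G →* ℂˣ, y (ρ.comp V.subtype) = 0)
    (hmw : (fun ψ : U →* ℂˣ => ∑ g, Y g * ext0 ψ g - y (ver V ψ)) ∈ TrI U V) (g : G) :
    ∃ (Z : G → ℤ) (c n : G → G), (∀ v, c v ∈ commutator G) ∧ ∀ l : Ch G, Adm (kr l) U →
      V ≤ Tst l → bet l Y g - ∑ v, Z v * ((ext0 l (c v) ^ p - 1) * ext0 l (n v)) ∈ PJ p := by
  obtain ⟨w, hw, e⟩ := hmw
  obtain ⟨W, W0, hW⟩ := intG_rep hw
  obtain ⟨Z, Z0, hZ⟩ := intG_rep hy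
  have hcard : (Fintype.card (Gm U V) : ℂ) = p := by rw [← Nat.card_eq_fintype_card, hΓ]
  have hv : ∀ (ψ : U →* ℂˣ) {c : G}, c ∈ commutator G → ext0 (ver V ψ) c =
      ∏ γ : Gm U V, ext0 ψ ((γ : G ⧸ U).out⁻¹ * c * (γ : G ⧸ U).out) := fun ψ c hc => by
    rw [ext0_mem _ (h (hCU hc)), ver_mem ψ _ (hCU hc)]
    simp only [ext0_cj]
  have w0 : ∀ ρ : G →* ℂˣ, ∑ g, W g * ext0 (ρ.comp U.subtype) g = 0 := fun ρ => by
    have h1 : ∑ γ : Gm U V, w _ = _ := congrFun e (ρ.comp U.subtype)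
    obtain ⟨σ, hσ⟩ := ext_lin (ver V (ρ.comp U.subtype)) fun u hu => Units.ext (by
      rw [← ext0_coe, hv _ hu]
      refine prod_eq_one fun γ _ => ?_
      rw [ext0_mem _ (hCU (conj_c hu _))]
      exact congrArg _ (lin_comm ρ (conj_c hu _)))
    simp only [cj_lin, hU, ← hσ, hV, sub_self, sum_const, card_univ, nsmul_eq_mul, hcard] at h1
    exact hW _ ▸ (mul_eq_zero.1 h1).resolve_left (Nat.cast_ne_zero.2 hp.ne_zero)
  have hn : ∀ v : G, ∃ m ∈ U, v ∈ V → ∀ ψ : U →* ℂˣ, ext0 (ver V ψ) v = ext0 ψ m := fun v => by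
    by_cases hv : v ∈ V
    · obtain ⟨m, hm⟩ := ver_ev (U := U) ⟨v, hv⟩
      exact ⟨m, m.2, fun _ ψ => by rw [ext0_mem _ hv, hm, ext0_coe]⟩
    · exact ⟨1, one_mem _, fun e => absurd e hv⟩
  choose n n1 n2 using hn
  refine ⟨Z, fun v => (sec v)⁻¹ * v, fun v => g⁻¹ * n (sec v), sec_mem, fun l hl hT => ?_⟩
  obtain ⟨Λ, L1, L2⟩ := lin_fun hl g
  have tst := fun (γ : Gm U V) => tst_ap (hT (out_mem h γ))
  let E : G → ℂ := fun u => ∑ γ : Gm U V, ext0 l (g⁻¹ * ((γ : G ⧸ U).out⁻¹ * u * (γ : G ⧸ U).out))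
  have h1 : bet l Y g = ∑ v, Z v * Λ (fun ψ => ext0 (ver V ψ) v) + ∑ u, W u * E u := by
    have h2 : ∑ u, W u * E u = ∑ u, W u * Λ fun ψ => ∑ γ : Gm U V,
        ext0 ψ ((γ : G ⧸ U).out⁻¹ * u * (γ : G ⧸ U).out) := sum_congr rfl fun u _ => by
      by_cases hu : u ∈ U
      · rw [← Finset.sum_fn, map_sum]
        exact congrArg _ (sum_congr rfl fun γ _ => (L1 _ (by
          simpa using ‹U.Normal›.conj_mem u hu (γ : G ⧸ U).out⁻¹)).symm)
      · simp [W0 u hu]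
    rw [h2, ← bet_eq L1 h0, ← lin_sum', ← lin_sum', ← map_add]
    congr 1
    funext ψ
    have h3 : ∑ γ : Gm U V, w _ = _ := congrFun e ψ
    simp only [hW, hZ, ext0_cj] at h3
    rw [sum_comm] at h3
    simp only [Pi.add_apply, mul_sum, h3, add_sub_cancel]
  have h4 : ∑ v, Z v * Λ (fun ψ => ext0 (ver V ψ) v) = ∑ v, Z v *
      ((ext0 l ((sec v)⁻¹ * v) ^ p - 1) * ext0 l (g⁻¹ * n (sec v))) := by
    rw [← sub_zero (∑ v, _), ← kill Z0 (fun ρ => hZ _ ▸ hV ρ) fun s => ext0 l (g⁻¹ * n s),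
      ← sum_sub_distrib]
    refine sum_congr rfl fun v _ => ?_
    by_cases hvV : v ∈ V
    swap
    · simp [Z0 v hvV]
    rw [L2 _ ((ext0 l ((sec v)⁻¹ * v) ^ p) • fun ψ => ext0 ψ (n (sec v))) fun ψ hψ => ?_, map_smul,
      L1 _ (n1 _), smul_eq_mul]
    · ring
    · have h5 := ext0_mul' (ver V ψ) (sec v) (h (hCU (sec_mem v)))
      rw [mul_inv_cancel_left, hv ψ (sec_mem v), n2 _ (sec_iff (hCU.trans h) hvV),
        prod_congr rfl fun γ _ => (hψ _ (conj_c (sec_mem v) _)).trans (tst γ _), prod_const,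
        card_univ, ← Nat.card_eq_fintype_card, hΓ] at h5
      rw [h5, mul_comm]
      rfl
  rw [h1, h4, add_sub_cancel_left, ← sub_zero (∑ u, _), ← kill W0 w0 E, ← sum_sub_distrib]
  refine sum_mem fun u _ => ?_
  by_cases hu : u ∈ U
  swap
  · simp [W0 u hu]
  have hs := sec_iff hCU hu
  have h6 : E u = ext0 l ((sec u)⁻¹ * u) * E (sec u) := by
    simp only [E, mul_sum]
    refine sum_congr rfl fun γ _ => ?_
    rw [← tst γ ((sec u)⁻¹ * u), mul_comm, ← ext0_mul' l _ (conj_c (sec_mem u) _)]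
    congr 1
    group
  have hc := l_sub hp hC l (sec_mem u)
  generalize sec u = s at hs h6 hc ⊢
  let f : G → ℂ := fun y => ext0 l (s⁻¹ * (y⁻¹ * s * y))
  have f1 : ∀ a b, b ∈ V → f (a * b) = f b * f a := fun a b hb => by
    simp only [f]
    rw [← tst_ap (hT hb) (s⁻¹ * (a⁻¹ * s * a)), ← ext0_mul l (cm_mem s b)]
    congr 1
    group
  have f2 : ∀ a, ∀ x ∈ U, f (a * x) = f a := fun a x hx => by
    rw [f1 a x (h hx), show f x = 1 from hl.2 s hs x hx, one_mul]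
  let χ : Gm U V →* ℂ :=
    { toFun := fun γ => f (γ : G ⧸ U).out
      map_one' := by simpa [f, ext0_one] using f2 1 _ (o_mem (U := U))
      map_mul' := fun a b => by
        obtain ⟨x, hx⟩ := QuotientGroup.mk_out_eq_mul U ((a : G ⧸ U).out * (b : G ⧸ U).out)
        rw [QuotientGroup.mk_mul, QuotientGroup.out_eq', QuotientGroup.out_eq'] at hx
        rw [Subgroup.coe_mul, hx, f2 _ _ x.2, f1 _ _ (out_mem h b), mul_comm] }
  have h7 : E s = ext0 l (g⁻¹ * s) * ∑ γ, χ γ := by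
    simp only [E, mul_sum]
    refine sum_congr rfl fun γ _ => Eq.trans (congrArg _ ?_) (ext0_mul' l _ (cm_mem s _))
    group
  rw [h6, h7]
  rcases sum_cases χ with h8 | h8
  · simp [h8]
  · convert pj_mem hc ((isIntegral_algebraMap (x := W u)).mul (ext0_int l (g⁻¹ * s))) using 1
    rw [h8, hcard, algebraMap_int_eq, eq_intCast]
    ring

theorem ext0_mulc (l l' : Ch G) (x : G) : ext0 (l * l') x = ext0 l x * ext0 l' x := by
  by_cases hx : x ∈ commutator G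
  · simp only [ext0_mem _ hx, MonoidHom.mul_apply, Units.val_mul]
  · simp only [ext0_not _ hx, mul_zero]

theorem kr_mem {l : Ch G} {x : G} (h : x ∈ kr l) : x ∈ commutator G := by
  by_contra e
  exact zero_ne_one ((ext0_not l e).symm.trans h)

/-- evaluation of characters at an element of the commutator subgroup -/
noncomputable def ev0 {x : G} (hx : x ∈ commutator G) : Ch G →* ℂ where
  toFun l := ext0 l x
  map_one' := by simp [ext0_mem _ hx]
  map_mul' l l' := ext0_mulc l l' x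

theorem eta (hp : p.Prime) {Γ : Type} [Group Γ] [Finite Γ] {l : Γ} {k : ℕ} (h : l ^ p ^ k = 1)
    (h1 : l ^ p ≠ 1) : ∃ H : Subgroup Γ, Nat.card H = p ∧ ∀ (M : Type) [Monoid M] (f : Γ →* M)
      (ρ : H), f ρ ^ p = 1 ∧ (f l ^ p = 1 → f ρ = 1) := by
  have := Fact.mk hp
  obtain ⟨a, -, ha⟩ := (Nat.dvd_prime_pow hp).1 (orderOf_dvd_of_pow_eq_one h)
  obtain ⟨b, rfl⟩ : ∃ b, a = b + 2 := by
    rcases a with _ | _ | b
    · exact absurd (by rw [orderOf_eq_one_iff.1 ha, one_pow]) h1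
    · exact absurd (by rw [← pow_orderOf_eq_one l, ha, zero_add, pow_one]) h1
    · exact ⟨b, rfl⟩
  have h3 : (l ^ p ^ (b + 1)) ^ p = 1 := by rw [← pow_mul, ← pow_succ, ← ha, pow_orderOf_eq_one]
  refine ⟨Subgroup.zpowers (l ^ p ^ (b + 1)), ?_, fun M _ f ρ => ?_⟩
  · rw [Nat.card_zpowers]
    exact orderOf_eq_prime h3 (pow_ne_one_of_lt_orderOf (pow_pos hp.pos _).ne'
      (by rw [ha]; exact Nat.pow_lt_pow_right hp.one_lt (by omega)))
  · obtain ⟨n, hn⟩ := (Submonoid.mem_powers_iff _ _).1 (mem_powers_iff_mem_zpowers.2 ρ.2)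
    refine ⟨?_, fun e => ?_⟩
    · rw [← map_pow, ← hn, ← pow_mul, mul_comm, pow_mul, h3, one_pow, map_one]
    · rw [← hn, map_pow, map_pow, pow_succ', pow_mul, e, one_pow, one_pow]

open Classical in
theorem k2 (hp : p.Prime) (hC : IsPGroup p (commutator G)) (l₀ : Ch G) {c : G}
    (hc : c ∈ commutator G) (x : G) :
    ∑ l : Ch G with kr l = kr l₀, (ext0 l c ^ p - 1) * ext0 l x ∈ PJ p := by
  have := Fact.mk hp
  have pw : ∀ (l : Ch G) {y : G}, y ∈ commutator G → ∀ n : ℕ, ext0 (l ^ n) y = ext0 l y ^ n :=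
    fun l y hy n => map_pow (ev0 hy) l n
  by_cases h1 : l₀ ^ p = 1
  · rw [sum_eq_zero fun l hl => ?_]
    · exact zero_mem _
    have h2 : c ^ p ∈ kr l₀ := by
      change ext0 l₀ _ = 1
      rw [ext0_pow hc, ← pw _ hc, h1]
      exact map_one (ev0 hc)
    rw [← (mem_filter.1 hl).2] at h2
    rw [← ext0_pow hc, show ext0 l (c ^ p) = 1 from h2, sub_self, zero_mul]
  by_cases hx : x ∈ commutator G
  swap
  · simp [ext0_not _ hx]
  obtain ⟨k, hk⟩ := IsPGroup.iff_card.1 hC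
  obtain ⟨H, h4, h3⟩ := eta hp (l := l₀) (k := k) (MonoidHom.ext fun y => by
      rw [MonoidHom.pow_apply, ← map_pow, ← hk, pow_card_eq_one', map_one, MonoidHom.one_apply]) h1
  have h5 : ∀ ρ : H, ∀ y ∈ commutator G,
      ext0 (ρ : Ch G) y ^ p = 1 ∧ (ext0 l₀ y ^ p = 1 → ext0 (ρ : Ch G) y = 1) := fun ρ y hy =>
    h3 _ (ev0 hy) ρ
  have : Fintype H := Fintype.ofFinite _
  refine sum_orbits (Γ := H) _ _ _ (fun l hl ρ => ?_)
    fun l hl => ?_
  · have h6 := (mem_filter.1 hl).2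
    refine mem_filter.2 ⟨mem_univ _, Set.ext fun y => ⟨fun hy => ?_, fun hy => ?_⟩⟩
    · have hc := kr_mem hy
      have h7 : ext0 (ρ : Ch G) y * ext0 l y = 1 := (ext0_mulc _ _ y).symm.trans hy
      have h8 : y ^ p ∈ kr l := by
        change ext0 l _ = 1
        rw [ext0_pow hc, ← one_mul (_ ^ p), ← (h5 ρ y hc).1, ← mul_pow, h7, (h5 ρ y hc).1, one_pow]
      rw [h6] at h8
      rw [(h5 ρ y hc).2 ((ext0_pow hc p).symm.trans h8), one_mul] at h7
      exact h6 ▸ h7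
    · refine (ext0_mulc _ _ y).trans ?_
      rw [(h5 ρ y (kr_mem hy)).2 (by rw [show ext0 l₀ y = 1 from hy, one_pow]),
        show ext0 l y = 1 from (h6 ▸ hy : y ∈ kr l), one_mul]
  · rw [sum_image (g := fun ρ : H => ρ • l) fun ρ _ σ _ e =>
      Subtype.ext (mul_right_cancel (b := l) e)]
    have h6 : ∀ ρ : H, (ext0 (ρ • l) c ^ p - 1) * ext0 (ρ • l) x =
        (ext0 l c ^ p - 1) * ext0 l x * ((ev0 hx).comp (Subgroup.subtype _)) ρ := fun ρ => by
      change (ext0 (ρ * l : Ch G) c ^ p - 1) * ext0 (ρ * l : Ch G) x = _ * ext0 (ρ : Ch G) x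
      rw [ext0_mulc, ext0_mulc, mul_pow, (h5 ρ c hc).1]
      ring
    simp only [h6, ← mul_sum]
    rcases sum_cases ((ev0 hx).comp H.subtype) with h7 | h7
    · rw [h7, mul_zero]
      exact zero_mem _
    · rw [h7, ← Nat.card_eq_fintype_card, h4, mul_comm (_ - 1), ← ext0_pow hc]
      exact pj_mem (l_sub hp hC l (pow_mem hc p)) (ext0_int l x)

theorem exists_step (hp : p.Prime) {U T : Subgroup G} [U.Normal] (hU : IsPGroup p (G ⧸ U))
    (h : U ≤ T) (h' : ¬T ≤ U) : ∃ V, U ≤ V ∧ V ≤ T ∧ Nat.card (Gm U V) = p := by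
  have := Fact.mk hp
  obtain ⟨y, hy, hy'⟩ := SetLike.not_le_iff_exists.1 h'
  have h1 : Nontrivial (Gm U T) :=
    ⟨kap ⟨y, hy⟩, 1, fun e => hy' (kap_one.1 e)⟩
  obtain ⟨δ, hδ⟩ := exists_prime_orderOf_dvd_card' (G := Gm U T) p
    ((hU.to_subgroup _).card_eq_or_dvd.resolve_left Finite.one_lt_card.ne')
  refine ⟨(Subgroup.zpowers (δ : G ⧸ U)).comap (QuotientGroup.mk' U), fun u hu => ?_,
    fun v hv => ?_, ?_⟩
  · rw [Subgroup.mem_comap, QuotientGroup.mk'_apply, (QuotientGroup.eq_one_iff _).2 hu]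
    exact one_mem _
  · obtain ⟨t, ht, e⟩ := Subgroup.zpowers_le.2 δ.2 hv
    simpa using mul_mem ht (h (QuotientGroup.eq.1 e))
  · rw [Gm, Subgroup.map_comap_eq_self_of_surjective (QuotientGroup.mk'_surjective U),
      Nat.card_zpowers, Subgroup.orderOf_coe, hδ]

open Classical in
theorem sum_kr (J : AddSubgroup ℂ) (f : Ch G → ℂ) (P : Set G → Prop)
    (h : ∀ l₀, P (kr l₀) → ∑ l : Ch G with kr l = kr l₀, f l ∈ J) :
    ∑ l : Ch G with P (kr l), f l ∈ J := by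
  rw [← sum_fiberwise_of_maps_to (g := kr) (t := (univ.filter fun l => P (kr l)).image kr)
    fun l hl => mem_image_of_mem _ hl]
  refine sum_mem fun X hX => ?_
  obtain ⟨l₀, h0, rfl⟩ := mem_image.1 hX
  rw [filter_filter, filter_congr (q := fun l => kr l = kr l₀) fun l _ =>
    and_iff_right_of_imp fun e => e ▸ (mem_filter.1 h0).2]
  exact h l₀ (mem_filter.1 h0).2

/-- the stabiliser only depends on the kernel -/
def TS (X : Set G) : Set G := {h | ∀ c ∈ commutator G, c⁻¹ * (h⁻¹ * c * h) ∈ X}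

theorem ts_eq (l : Ch G) : TS (kr l) = Tst l := Set.ext fun _ => mem_tst.symm

open Classical in
theorem k3 (hp : p.Prime) (hC : IsPGroup p (commutator G)) {U : Subgroup G} [U.Normal]
    (hU : IsPGroup p (G ⧸ U)) (ht : U ≠ ⊤) {l₀ : Ch G} (h0 : Adm (kr l₀) U) (h1 : Tst l₀ ≤ U)
    (Y : G → ℤ) (g : G) : ∑ l : Ch G with Adm (kr l) U, bet l Y g ∈ PJ p := by
  have := Fact.mk hp
  let A : Subgroup (Ch G) :=
    { carrier := {l | Adm (kr l) U}
      one_mem' := ⟨h0.1, fun a _ b _ => map_one (ev0 (cm_mem a b))⟩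
      mul_mem' := fun {l l'} h h' => ⟨h0.1, fun a ha b hb => (ext0_mulc _ _ _).trans (by
        rw [show ext0 l _ = 1 from h.2 a ha b hb, show ext0 l' _ = 1 from h'.2 a ha b hb, one_mul])⟩
      inv_mem' := fun {l} h => ⟨h0.1, fun a ha b hb => by
        have h2 := map_inv (ev0 (cm_mem a b)) l
        rwa [show ev0 (cm_mem a b) l = 1 from h.2 a ha b hb, inv_one] at h2⟩ }
  have h2 : ∀ y, cj l₀ y ∈ A := fun y => ⟨h0.1, fun a ha b hb => by
    change ext0 _ _ = 1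
    rw [ext0_cj, ← show ext0 l₀ _ = 1 from h0.2 _ (‹U.Normal›.conj_mem a ha y⁻¹) _
      (‹U.Normal›.conj_mem b hb y⁻¹)]
    congr 1
    group⟩
  have h3 : ∀ a b, cj l₀ a = cj l₀ b → a⁻¹ * b ∈ U := fun a b e => h1 (MonoidHom.ext fun u =>
    Units.ext (by
      rw [← ext0_coe, ← ext0_coe, ext0_cj, show (a⁻¹ * b)⁻¹ * u * (a⁻¹ * b) =
        b⁻¹ * (a * u * a⁻¹) * b by group, ← ext0_cj, ← e, ext0_cj]
      congr 1
      group))
  have h4 : ∀ y, cj l₀ y ≠ 1 := fun y e => ht ((Subgroup.eq_top_iff' U).2 fun z => by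
    simpa using h3 y (y * z) (MonoidHom.ext fun u => Units.ext (by
      rw [← ext0_coe, ← ext0_coe, ext0_cj _ (y * z), show (y * z)⁻¹ * u * (y * z) =
        y⁻¹ * (y * z⁻¹ * y⁻¹ * u * (y * z⁻¹ * y⁻¹)⁻¹) * y by group, ← ext0_cj, e]
      exact (map_one (ev0 u.2)).trans (map_one (ev0
        ((inferInstance : (commutator G).Normal).conj_mem _ u.2 _))).symm)))
  have h5 : Nat.card (Option (G ⧸ U)) ≤ Nat.card A := Nat.card_le_card_of_injective
    (fun o => o.elim 1 fun b => ⟨_, h2 b.out⟩) fun o o' e => by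
      rcases o with _ | a <;> rcases o' with _ | b
      · rfl
      · exact absurd (congrArg Subtype.val e).symm (h4 _)
      · exact absurd (congrArg Subtype.val e) (h4 _)
      · rw [← QuotientGroup.out_eq' a, ← QuotientGroup.out_eq' b,
          QuotientGroup.eq.2 (h3 _ _ (congrArg Subtype.val e))]
  have h6 : p ≤ Nat.card (G ⧸ U) := Nat.le_of_dvd Nat.card_pos
    (hU.card_eq_or_dvd.resolve_left fun e => ht (Subgroup.index_eq_one.1 e))
  obtain ⟨k, hk⟩ := IsPGroup.iff_card.1 hC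
  obtain ⟨b, hb⟩ := IsPGroup.iff_card.1 (IsPGroup.to_subgroup (p := p) (G := Ch G) (fun l => ⟨k,
    MonoidHom.ext fun y => by rw [MonoidHom.pow_apply, ← map_pow, ← hk, pow_card_eq_one', map_one,
      MonoidHom.one_apply]⟩) A)
  rw [Finite.card_option, hb] at h5
  obtain ⟨c, rfl⟩ : ∃ c, b = c + 2 := by
    have := hp.one_lt
    rcases b with _ | _ | c
    · rw [pow_zero] at h5
      omega
    · rw [zero_add, pow_one] at h5
      omega
    · exact ⟨c, rfl⟩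
  have : Fintype A := Fintype.ofFinite _
  rw [sum_subtype (p := (· ∈ A)) _ (fun l => by rw [mem_filter]; exact and_iff_right (mem_univ _))
    fun l => bet l Y g]
  simp only [bet]
  rw [sum_comm]
  refine sum_mem fun u _ => ?_
  rw [← mul_sum]
  by_cases hx : g⁻¹ * u ∈ commutator G
  swap
  · simp [ext0_not _ hx]
  rcases sum_cases ((ev0 hx).comp A.subtype) with h7 | h7
  · rw [show ∑ l : A, ext0 (l : Ch G) (g⁻¹ * u) = _ from h7, mul_zero]
    exact zero_mem _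
  · have h8 : (p : ℂ) ∈ Jp p := ⟨p, Ideal.le_radical (Ideal.mem_span_singleton_self _), rfl⟩
    rw [show ∑ l : A, ext0 (l : Ch G) (g⁻¹ * u) = _ from h7, ← Nat.card_eq_fintype_card, hb]
    convert pj_mem h8 (isIntegral_algebraMap (x := Y u * p ^ c)) using 1
    simp only [algebraMap_int_eq, eq_intCast]
    push_cast
    ring

theorem alg (hp : p.Prime) (hG : IsPGroup p (G ⧸ Subgroup.center G))
    (hA : ∀ a ∈ commutator G, ∀ b ∈ commutator G, a * b = b * a) {k : ℕ}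
    (hk : Nat.card (commutator G) = p ^ (k + 2)) (F : ((G → ℂ) → ℂ) → ℂ)
    (hi : ∀ U, Subgroup.center G ≤ U → (fun ψ : U →* ℂˣ => F (dt (Mat ψ))) ∈ IntG U)
    (hv : ∀ U, commutator G ≤ U → ∀ ρ : G →* ℂˣ, F (dt (Mat (ρ.comp U.subtype))) = 0)
    (ht : ∀ ψ : (⊤ : Subgroup G) →* ℂˣ, F (dt (Mat ψ)) = 0)
    (hw : ∀ (U V : Subgroup G) [U.Normal], Subgroup.center G ≤ U → U ≤ V →
      Nat.card (Gm U V) = p → (fun ψ : U →* ℂˣ => F (dt (Mat ψ)) - F (dt (Mat (ver V ψ)))) ∈ TrI U V) :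
    ∃ c : G → ℤ, (∀ g h, c (h * g * h⁻¹) = c g) ∧
      ∀ r, ∑ g, (c g : ℂ) * chr r g = r.n * (p ^ k * F (dt r.ρ)) := by
  classical
  have := Fact.mk hp
  have hC : IsPGroup p (commutator G) := IsPGroup.of_card hk
  have hZ : ∀ l : Ch G, Subgroup.center G ≤ Um (kr l) := fun l z hz => adm_ext (um_max hA l)
    fun u _ => by
      rw [mul_assoc, Subgroup.mem_center_iff.1 hz, inv_mul_cancel_left, inv_mul_cancel]
      exact ext0_one l
  have hY : ∀ U : Subgroup G, ∃ Y : G → ℤ, (∀ g, g ∉ U → Y g = 0) ∧ (Subgroup.center G ≤ U →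
      ∀ ψ : U →* ℂˣ, F (dt (Mat ψ)) = ∑ g, Y g * ext0 ψ g) := fun U => by
    by_cases h : Subgroup.center G ≤ U
    · exact (intG_rep (hi U h)).imp fun Y hY => ⟨hY.1, fun _ => hY.2⟩
    · exact ⟨0, fun _ _ => rfl, fun e => absurd e h⟩
  choose Y Y0 hY using hY
  let h : G → ℂ := fun g => ∑ l : Ch G, bet l (Y (Um (kr l))) g
  have h1 : ∀ r : Irr G, ∑ g, h g • r.ρ g = (p ^ (k + 2) * F (dt r.ρ)) • 1 := fun r => by
    simp only [h, sum_smul]
    rw [sum_comm, sum_congr rfl fun l _ => act_bet (um_max hA l) F (Y0 _) (hY _ (hZ l)) r,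
      ← smul_sum, sum_EE hA, hk, smul_smul, mul_comm, Nat.cast_pow]
  have h2 : ∀ g, h g ∈ PJ p := fun g => by
    simp only [h]
    rw [← sum_fiberwise_of_maps_to (g := fun l => Um (kr l))
      (t := univ.image fun l : Ch G => Um (kr l)) fun l hl => mem_image_of_mem _ hl]
    refine sum_mem fun U hU => ?_
    obtain ⟨l₁, -, e⟩ := mem_image.1 hU
    have a1 : Adm (kr l₁) U := e ▸ (um_max hA l₁).1
    have a2 : Subgroup.center G ≤ U := e ▸ hZ l₁
    have := a1.normal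
    rw [sum_congr rfl (g := fun l => bet l (Y U) g) fun l hl => by rw [(mem_filter.1 hl).2]]
    have a3 : ∀ l ∈ univ.filter fun l : Ch G => Um (kr l) = U, Adm (kr l) U := fun l hl =>
      (mem_filter.1 hl).2 ▸ (um_max hA l).1
    by_cases a4 : U = ⊤
    · subst a4
      refine sum_mem fun l hl => ?_
      obtain ⟨Λ, L1, -⟩ := lin_fun (a3 l hl) g
      rw [← bet_eq L1 (Y0 _), show (fun ψ : (⊤ : Subgroup G) →* ℂˣ => ∑ g, Y ⊤ g * ext0 ψ g) = 0 from
        funext fun ψ => (hY _ a2 ψ).symm.trans (ht ψ), map_zero]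
      exact zero_mem _
    have a5 : IsPGroup p (G ⧸ U) := hG.of_surjective (QuotientGroup.map _ _ (MonoidHom.id G) a2)
      fun q => by
        obtain ⟨x, rfl⟩ := QuotientGroup.mk_surjective q
        exact ⟨x, rfl⟩
    have a6 : ∀ P : Set G → Prop, (∀ l, P (kr l) → Adm (kr l) U) →
        ∑ l : Ch G with P (kr l) ∧ ¬TS (kr l) ⊆ U, bet l (Y U) g ∈ PJ p := fun P hP => by
      have := sum_kr (PJ p) (fun l => bet l (Y U) g) (fun X => P X ∧ ¬TS X ⊆ U) fun l₀ h0 => by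
        obtain ⟨V, v1, v2, v3⟩ := exists_step hp a5 (hP _ h0.1).le fun e => h0.2 (ts_eq l₀ ▸ e)
        obtain ⟨Z, c, n, hc, H⟩ := k1 hp hC a1.1 v1 v3 (Y0 U) (hi V (a2.trans v1))
          (fun ρ => (hY _ a2 _).symm.trans (hv U a1.1 ρ)) (hv V (a1.1.trans v1))
          (by simpa only [hY _ a2] using hw U V a2 v1 v3) g
        have b1 := sum_mem fun l (hl : l ∈ univ.filter fun l : Ch G => kr l = kr l₀) =>
          H l ((mem_filter.1 hl).2 ▸ hP _ h0.1) fun y hy => by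
            rw [← SetLike.mem_coe, ← ts_eq, (mem_filter.1 hl).2, ts_eq]
            exact v2 hy
        have b2 := sum_mem fun v (_ : v ∈ univ) => zsmul_mem (k2 hp hC l₀ (hc v) (n v)) (Z v)
        simp only [zsmul_eq_mul, mul_sum] at b2
        rw [sum_comm] at b2
        simpa only [sum_sub_distrib, sub_add_cancel] using add_mem b1 b2
      rwa [filter_congr_decidable] at this
    rw [← sum_filter_add_sum_filter_not _ fun l => TS (kr l) ⊆ U, filter_filter, filter_filter]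
    refine add_mem ?_ (a6 (fun X => Um X = U) fun l e => e ▸ (um_max hA l).1)
    rcases (univ.filter fun l : Ch G => Um (kr l) = U ∧ TS (kr l) ⊆ U).eq_empty_or_nonempty with
      a7 | ⟨l₀, a7⟩
    · rw [a7]
      exact zero_mem _
    obtain ⟨-, b1, b2⟩ := mem_filter.1 a7
    have b3 := k3 hp hC a5 a4 (b1 ▸ (um_max hA l₀).1) (fun y hy => b2 (ts_eq l₀ ▸ hy)) (Y U) g
    rw [← sum_filter_add_sum_filter_not _ fun l => TS (kr l) ⊆ U, filter_filter, filter_filter] at b3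
    have b4 := sub_mem b3 (a6 (fun X => Adm X U) fun _ e => e)
    rw [add_sub_cancel_right] at b4
    refine (congrArg (· ∈ PJ p) (sum_congr (filter_congr fun l _ => and_congr_left fun e =>
      ⟨fun e' : Um (kr l) = U => e' ▸ (um_max hA l).1, fun e' => ?_⟩) fun _ _ => rfl)).mpr b4
    have b5 : Um (kr l) ≤ U := fun y hy => e (ts_eq l ▸ (um_max hA l).1.le hy)
    exact le_antisymm b5 ((um_max hA l).2 e' b5)
  have h3 : ∀ g (σ : ℂ ≃+* ℂ), σ (h g) = h g := fun g σ => by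
    have hb : Function.Bijective fun l : Ch G => galc l σ :=
      Finite.injective_iff_bijective.1 fun l l' e => MonoidHom.ext fun u => Units.ext
        (σ.injective (congrArg Units.val (DFunLike.congr_fun e u)))
    simp only [h]
    rw [map_sum, ← hb.sum_comp fun l => bet l (Y (Um (kr l))) g]
    refine sum_congr rfl fun l _ => ?_
    rw [show kr (galc l σ) = kr l from Set.ext fun x => by
      change ext0 _ _ = 1 ↔ ext0 _ _ = 1
      rw [ext0_gal, map_eq_one_iff σ σ.injective]]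
    simp only [bet, map_sum, map_mul, map_intCast, ext0_gal]
  have p0 : (p : ℂ) ≠ 0 := Nat.cast_ne_zero.2 hp.ne_zero
  have h4 : ∀ g, ∃ c : ℤ, h g = p ^ 2 * c := fun g => by
    obtain ⟨a, ha, e⟩ := h2 g
    have e' : p * a = h g := e
    obtain ⟨m, hm⟩ := int_of_fixed ((idl_Jp p).1 ha) fun σ => mul_left_cancel₀ p0 (by
      rw [e', ← h3 g σ, ← e', map_mul, map_natCast])
    obtain ⟨c, rfl⟩ := int_mem hp (hm ▸ ha)
    exact ⟨c, by rw [← e', hm]; push_cast; ring⟩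
  choose c hc using h4
  refine ⟨c, fun g y => ?_, fun r => mul_left_cancel₀ (pow_ne_zero 2 p0) ?_⟩
  · have h5 := faith (a := fun g => h (y * g * y⁻¹) - h g) (fun r => by
      have h6 : ∑ g, h (y * g * y⁻¹) • r.ρ g = r.ρ y⁻¹ * (∑ g, h g • r.ρ g) * r.ρ y := by
        rw [Matrix.mul_sum, Matrix.sum_mul, ← Equiv.sum_comp (MulAut.conj y).toEquiv
          fun g => r.ρ y⁻¹ * (h g • r.ρ g) * r.ρ y]
        simp [← map_mul, mul_assoc]
      simp only [sub_smul, sum_sub_distrib]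
      rw [h6, h1]
      simp [← map_mul]) g
    rw [sub_eq_zero, hc, hc] at h5
    exact_mod_cast mul_left_cancel₀ (pow_ne_zero 2 p0) h5
  · have h5 := congrArg trace (h1 r)
    simp only [trace_sum, trace_smul, smul_eq_mul, hc, trace_one, Fintype.card_fin] at h5
    simp only [mul_sum, chr, ← mul_assoc, h5]
    ring

theorem psq {K L : Type} [Field K] [NumberField K] [Field L] [NumberField L] [Algebra K L]
    [IsGalois K L] [IsTotallyReal K] [IsCMField L] {S : Finset (Pr K)} {φ : Pr K → (L ≃ₐ[K] L)}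
    {k : ℕ} (hp : p.Prime) (hG : IsPGroup p ((L ≃ₐ[K] L) ⧸ Subgroup.center (L ≃ₐ[K] L)))
    (hA : ∀ a ∈ commutator (L ≃ₐ[K] L), ∀ b ∈ commutator (L ≃ₐ[K] L), a * b = b * a)
    (hk : Nat.card (commutator (L ≃ₐ[K] L)) = p ^ (k + 2))
    (hS : ∀ w : Pr L, w.under (𝓞 K) ∉ S → Algebra.IsUnramifiedAt (𝓞 K) w.asIdeal)
    (hφ : IsFrob L S φ) : ∃ θ : Irr (L ≃ₐ[K] L) → ℂ, (∀ r c, IsLValue S φ r.ρ c ↔ c = θ r) ∧
      ∀ x ∈ annA S φ, p ^ k • (x * θ) ∈ intRing (L ≃ₐ[K] L) := by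
  have hm := mono_of hA
  obtain ⟨j, hj, hjc⟩ := FinalX.exists_cc K L
  have hu : Unr L (L ≃ₐ[K] L) S := fun w hw => (fb K L _).2.2.2.2.2.2.1 w (hS w hw)
  have hz : j ∈ Subgroup.center (L ≃ₐ[K] L) := Subgroup.mem_center_iff.2 fun g => (hjc g).symm
  refine ⟨_, (setup hm hS hφ).1, fun x hx => ?_⟩
  induction hx using AddSubgroup.closure_induction with
  | mem x hx =>
    obtain ⟨z, hz', _, ⟨T, hT, rfl⟩, rfl⟩ := hx
    have hL : ∀ U, j ∈ U → Lev S φ T U := fun U hU =>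
      ⟨(level hj hU hu hφ).1, (level hj hU hu hφ).2 T hT.1 (FinalX.root hT)⟩
    obtain ⟨x, hx⟩ := intG_top (hL ⊤ (Subgroup.mem_top j)).2
    obtain ⟨c, c2, c3⟩ := alg hp hG hA hk (fun D => sv S φ T D - D (zc x))
      (fun U hU => (IntG U).sub_mem (hL U (hU hz)).2 (dt_intG x))
      (fun U hU ρ => sub_eq_zero.2 (van hm (hL ⊤ (Subgroup.mem_top j)) hx hU ρ))
      (fun ψ => sub_eq_zero.2 (hx ψ)) fun U V _ hU h hΓ => by
        convert sub_mem (amw hp h hΓ hj (hU hz) hu hφ hT.1 (FinalX.root hT)) (det_mw hp h hΓ x)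
          using 1
        funext ψ
        simp only [Pi.sub_apply]
        ring
    obtain ⟨y, hy, hy'⟩ := exists_cen c c2
    have m1 : ∀ z ∈ Subring.center (MonoidAlgebra ℤ (L ≃ₐ[K] L)), ∀ a,
        cen z * nr (Matrix.of fun _ _ : Fin 1 => a) ∈ intRing (L ≃ₐ[K] L) := fun z hz a =>
      AddSubgroup.subset_closure ⟨z, hz, _, ⟨1, le_rfl, _, rfl⟩, rfl⟩
    convert add_mem (m1 _ (mul_mem hz' hy) 1) (nsmul_mem
      (m1 z hz' (MonoidAlgebra.ofCoeff (Finsupp.equivFunOnFinite.symm x))) (p ^ k)) using 1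
    funext r
    have h4 : cen y r = p ^ k * (sv S φ T (dt r.ρ) - dt r.ρ (zc x)) := by
      rw [hy', c3, mul_div_cancel_left₀ _ (n_ne r)]
    have h5 : nr (Matrix.of fun _ _ : Fin 1 => (1 : MonoidAlgebra ℤ (L ≃ₐ[K] L))) r = 1 := by
      rw [FinalX.nr_one, Irr.lin, map_one, det_one]
    have h6 : nr (Matrix.of fun _ _ : Fin 1 =>
        MonoidAlgebra.ofCoeff (Finsupp.equivFunOnFinite.symm x)) r = dt r.ρ (zc x) := nr_dt _ r
    simp only [Pi.add_apply, Pi.mul_apply, Pi.smul_apply, cen_mul hz', h4, h5, h6, delta_eq, sv,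
      nsmul_eq_mul, Pi.natCast_apply, Nat.cast_pow, Pi.pow_apply]
    ring
  | zero => rw [zero_mul, smul_zero]; exact zero_mem _
  | add f g _ _ hf hg => rw [add_mul, smul_add]; exact add_mem hf hg
  | neg f _ hf => rw [neg_mul, smul_neg]; exact neg_mem hf

end Pool.Agent.MP_f3cd89_nt.Tw
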