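import Pool.Agent.MP_f3cd89_nt.Tw.Abs

/-! The transfer and the congruence between group determinants. -/

set_option autoImplicit false
set_option linter.unusedSectionVars false

open Finset Matrix

namespace Pool.Agent.MP_f3cd89_nt.Tw

section Zo

variable {ι κ : Type} [Fintype ι] [DecidableEq ι] [Fintype κ] [DecidableEq κ]

/-- the zero-one matrix of a map -/
def zo (f : ι → ι) : Matrix ι ι ℤ := of fun a b => if a = f b then 1 else 0

theorem zo_comp (f g : ι → ι) : (zo (f ∘ g)).det = (zo f).det * (zo g).det := by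
  rw [← det_mul]
  congr 1
  ext a b
  simp [zo, Matrix.mul_apply]

theorem zo_iter (f : ι → ι) (n : ℕ) : (zo f^[n]).det = (zo f).det ^ n := by
  induction n with
  | zero =>
    rw [pow_zero, ← det_one (n := ι)]
    congr 1
  | succ n ih => rw [Function.iterate_succ, zo_comp, ih, pow_succ]

theorem zo_map (f : ι → ι) :
    (zo (Prod.map (id : κ → κ) f)).det = (zo f).det ^ Fintype.card κ := by
  have : zo (Prod.map (id : κ → κ) f) = kroneckerMap (· * ·) (1 : Matrix κ κ ℤ) (zo f) := by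
    ext ⟨a, b⟩ ⟨c, d⟩
    by_cases h : a = c <;> simp [zo, one_apply, h]
  rw [this, det_kronecker, det_one, one_pow, one_mul]

end Zo

theorem sum_orb {Γ α M : Type} [Group Γ] [Fintype Γ] [MulAction Γ α] [Fintype α] [AddCommGroup M]
    {p : ℕ} (hp : p.Prime) (hΓ : Nat.card Γ = p) (J : AddSubgroup M) (h : α → M)
    [DecidablePred fun a : α => ∀ ρ : Γ, ρ • a = a] (H : ∀ a, ∑ ρ : Γ, h (ρ • a) ∈ J) :
    ∑ a, h a - ∑ a with ∀ ρ : Γ, ρ • a = a, h a ∈ J := by
  classical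
  have := Fact.mk (hΓ ▸ hp)
  rw [← sum_filter_add_sum_filter_not univ fun a : α => ∀ ρ : Γ, ρ • a = a, add_sub_cancel_left]
  suffices key : ∀ Y : Finset α, (∀ a ∈ Y, ¬∀ ρ : Γ, ρ • a = a) → (∀ a ∈ Y, ∀ ρ : Γ, ρ • a ∈ Y) →
      ∑ a ∈ Y, h a ∈ J from key _ (fun a ha => (mem_filter.1 ha).2) fun a ha ρ =>
        mem_filter.2 ⟨mem_univ _, fun e => (mem_filter.1 ha).2 fun σ => by
          have := e (ρ * σ * ρ⁻¹)
          rwa [mul_smul, inv_smul_smul, mul_smul, smul_left_cancel_iff] at this⟩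
  intro Y
  induction Y using Finset.strongInduction with
  | H Y ih =>
    intro h0 hY
    rcases Y.eq_empty_or_nonempty with rfl | ⟨a, ha⟩
    · exact zero_mem _
    have hs : univ.image (fun ρ : Γ => ρ • a) ⊆ Y := fun b hb => by
      obtain ⟨ρ, -, rfl⟩ := mem_image.1 hb
      exact hY a ha ρ
    rw [← sum_sdiff hs]
    refine add_mem (ih _ (sdiff_ssubset hs ⟨a, mem_image.2 ⟨1, mem_univ _, one_smul _ _⟩⟩)
      (fun b hb => h0 b (mem_sdiff.1 hb).1) fun b hb ρ => ?_) ?_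
    · obtain ⟨h1, h2⟩ := mem_sdiff.1 hb
      refine mem_sdiff.2 ⟨hY b h1 ρ, fun h3 => h2 ?_⟩
      obtain ⟨σ, -, hσ⟩ := mem_image.1 h3
      exact mem_image.2 ⟨ρ⁻¹ * σ, mem_univ _, by rw [mul_smul, hσ, inv_smul_smul]⟩
    · rw [sum_image fun ρ _ σ _ e => ?_]
      · exact H a
      rcases (MulAction.stabilizer Γ a).eq_bot_or_eq_top_of_prime_card with h1 | h1
      · have h2 : σ⁻¹ * ρ ∈ MulAction.stabilizer Γ a := by
          rw [MulAction.mem_stabilizer_iff, mul_smul, inv_smul_eq_iff]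
          exact e
        rw [h1, Subgroup.mem_bot, inv_mul_eq_one] at h2
        exact h2.symm
      · exact absurd (fun ρ => (h1 ▸ Subgroup.mem_top ρ : ρ ∈ MulAction.stabilizer Γ a)) (h0 a ha)

variable {G : Type} [Group G] [Fintype G] {U V : Subgroup G}

section TT

variable {ι : Type} [Fintype ι] [DecidableEq ι]

/-- a term of the expansion of a group determinant -/
noncomputable def TT (ψ : U →* ℂˣ) (r f : ι → G) : ℂ :=
  (of fun a b => ext0 ψ ((r a)⁻¹ * f b * r b)).det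

theorem tt_reps (ψ : U →* ℂˣ) (r r' f : ι → G) (h : ∀ a, ∃ u : U, r' a = r a * u) :
    TT ψ r' f = TT ψ r f := by
  choose u hu using h
  have : ∀ a b, ext0 ψ ((r' a)⁻¹ * f b * r' b) =
      ((ψ (u a)⁻¹ : ℂˣ) : ℂ) * (ψ (u b) * ext0 ψ ((r a)⁻¹ * f b * r b)) := fun a b => by
    rw [hu, hu, ← ext0_coe, ← ext0_coe, mul_comm (ext0 ψ (u b)), ← ext0_mul' ψ _ (u b).2,
      ← ext0_mul ψ (u a)⁻¹.2]
    congr 1
    simp [mul_assoc]
  simp only [TT, this]
  refine (det_mul_column _ (of fun a b => (ψ (u b) : ℂ) * ext0 ψ ((r a)⁻¹ * f b * r b))).trans ?_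
  refine (congrArg _ (det_mul_row _ (of fun a b => ext0 ψ ((r a)⁻¹ * f b * r b)))).trans ?_
  rw [← mul_assoc, ← prod_mul_distrib]
  simp

theorem tt_eq (ψ : U →* ℂˣ) (r f : ι → G) (σ : ι → ι)
    (h : ∀ a b, (r a)⁻¹ * f b * r b ∈ U → a = σ b) :
    TT ψ r f = (∏ b, ext0 ψ ((r (σ b))⁻¹ * f b * r b)) * (zo σ).det := by
  rw [show (((zo σ).det : ℤ) : ℂ) = _ from (Int.castRingHom ℂ).map_det _, ← det_mul_row, TT]
  congr 1
  ext a b
  by_cases e : a = σ b
  · simp [zo, e]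
  · simp [zo, e, ext0_not ψ fun e' => e (h a b e')]

theorem tt_comp (ψ : U →* ℂˣ) (r f : ι → G) (e : ι ≃ ι) : TT ψ (r ∘ e) (f ∘ e) = TT ψ r f :=
  det_submatrix_equiv_self e (of fun a b => ext0 ψ ((r a)⁻¹ * f b * r b))

theorem dt_exp (ψ : U →* ℂˣ) (r : ι → G) (hr : Function.Bijective fun a => (r a : G ⧸ U))
    (c : G → ℂ) : dt (Mat ψ) c = ∑ f : ι → G, (∏ b, c (f b)) * TT ψ r f := by
  classical
  rw [dt, ← det_submatrix_equiv_self (Equiv.ofBijective _ hr), ← det_transpose]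
  have h1 : ((∑ g, c g • Mat ψ g).submatrix (Equiv.ofBijective _ hr) (Equiv.ofBijective _ hr))ᵀ =
      fun b => ∑ g, c g • fun a => Mat ψ g (r a) (r b) := by
    ext b a
    simp [Matrix.sum_apply]
  rw [h1]
  refine ((detRowAlternating : (ι → ℂ) [⋀^ι]→ₗ[ℂ] ℂ).toMultilinearMap.map_sum _).trans
    (sum_congr rfl fun f _ => ?_)
  rw [MultilinearMap.map_smul_univ, smul_eq_mul,
    ← tt_reps ψ r _ f fun a => QuotientGroup.mk_out_eq_mul U (r a), TT, ← det_transpose]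
  rfl

theorem prod_ev (u : ι → G) (hu : ∀ b, u b ∈ U) :
    ∃ n : U, ∀ ψ : U →* ℂˣ, ∏ b, ext0 ψ (u b) = ψ n := by
  suffices ∀ s : Finset ι, ∃ n : U, ∀ ψ : U →* ℂˣ, ∏ b ∈ s, ext0 ψ (u b) = ψ n from this _
  intro s
  induction s using Finset.induction_on with
  | empty => exact ⟨1, by simp⟩
  | insert a s ha ih =>
    obtain ⟨n, hn⟩ := ih
    exact ⟨⟨_, hu a⟩ * n, fun ψ => by
      rw [prod_insert ha, hn, ext0_mem ψ (hu a), map_mul, Units.val_mul]⟩

theorem ext0_intG (g : G) : (fun ψ : U →* ℂˣ => ext0 ψ g) ∈ IntG U := by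
  by_cases hg : g ∈ U
  · simpa only [ext0_mem _ hg] using ev_mem (⟨g, hg⟩ : U)
  · simp only [ext0_not _ hg]
    exact zero_mem (IntG U)

theorem tt_intG (r f : ι → G) : (fun ψ : U →* ℂˣ => TT ψ r f) ∈ IntG U := by
  have := (IntG U).sum_mem fun (σ : Equiv.Perm ι) (_ : σ ∈ univ) => (IntG U).mul_mem
    (intCast_mem _ (Equiv.Perm.sign σ : ℤ)) ((IntG U).prod_mem fun i (_ : i ∈ univ) =>
      ext0_intG ((r (σ i))⁻¹ * f i * r i))
  convert this using 1
  funext ψ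
  simp [TT, det_apply']

theorem out_bij : Function.Bijective fun a : G ⧸ U => (a.out : G ⧸ U) := by
  simp

theorem dt_intG (x : G → ℤ) : (fun ψ : U →* ℂˣ => dt (Mat ψ) (zc x)) ∈ IntG U := by
  classical
  have := (IntG U).sum_mem fun (f : G ⧸ U → G) (_ : f ∈ univ) => (IntG U).mul_mem
    (intCast_mem _ (∏ b, x (f b))) (tt_intG (fun a : G ⧸ U => a.out) f)
  convert this using 1
  funext ψ
  simp [dt_exp ψ (fun a : G ⧸ U => a.out) out_bij, zc]

end TT

variable [U.Normal]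

/-- the conjugate character -/
def cj (ψ : U →* ℂˣ) (y : G) : U →* ℂˣ := ψ.comp (MulAut.conjNormal y⁻¹).toMonoidHom

theorem ext0_cj (ψ : U →* ℂˣ) (y g : G) : ext0 (cj ψ y) g = ext0 ψ (y⁻¹ * g * y) := by
  by_cases hg : g ∈ U
  · rw [ext0_mem _ hg, cj, MonoidHom.comp_apply, ← ext0_coe]
    simp
  · rw [ext0_not _ hg, ext0_not _ fun e => hg (by simpa [mul_assoc] using ‹U.Normal›.conj_mem _ e y)]

theorem tt_cj {ι : Type} [Fintype ι] [DecidableEq ι] (ψ : U →* ℂˣ) (y : G) (r f : ι → G) (e : ι ≃ ι)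
    (h : ∀ a, ((r a * y : G) : G ⧸ U) = r (e a)) : TT (cj ψ y) r (f ∘ e) = TT ψ r f := by
  rw [← tt_comp ψ r f e, ← tt_reps ψ (r ∘ e) (fun a => r a * y) _ fun a =>
    ⟨⟨_, QuotientGroup.eq.1 (h a).symm⟩, by simp⟩]
  simp only [TT, ext0_cj, _root_.mul_inv_rev, mul_assoc]

theorem dt_cj (ψ : U →* ℂˣ) (y : G) : dt (Mat (cj ψ y)) = dt (Mat ψ) := by
  classical
  funext c
  let e : G ⧸ U ≃ G ⧸ U := Equiv.mulRight (y : G ⧸ U)
  rw [dt_exp _ (fun a : G ⧸ U => a.out) out_bij, dt_exp _ (fun a : G ⧸ U => a.out) out_bij,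
    ← Equiv.sum_comp (e.symm.arrowCongr (Equiv.refl G))]
  refine sum_congr rfl fun f _ => ?_
  change (∏ b, c (f (e b))) * TT _ _ (f ∘ e) = _
  rw [tt_cj ψ y _ f e fun a => by simp [e], Equiv.prod_comp e fun b => c (f b)]

variable (U V) in
/-- the image of `V` in the quotient by `U` -/
abbrev Gm : Subgroup (G ⧸ U) := V.map (QuotientGroup.mk' U)

noncomputable instance finG : Fintype (Gm U V) := Fintype.ofFinite _

/-- the class of an element of `V` -/
def kap (v : V) : Gm U V := ⟨(v : G), v, v.2, rfl⟩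

theorem out_mem (h : U ≤ V) (γ : Gm U V) : (γ : G ⧸ U).out ∈ V := by
  obtain ⟨_, v, hv, rfl⟩ := γ
  obtain ⟨u, hu⟩ := QuotientGroup.mk_out_eq_mul U v
  exact hu ▸ mul_mem hv (h u.2)

theorem smul_q (g : G) (a : G ⧸ U) : g • a = (g : G ⧸ U) * a := by
  induction a using QuotientGroup.induction_on
  rfl

theorem mat_step (ψ : U →* ℂˣ) (g h : G) (a c : G ⧸ U) :
    Mat ψ (g * h) a c = Mat ψ g a (h * c) * Mat ψ h (h * c) c := by
  rw [mat_apply, mat_apply, mat_apply, ← ext0_mul' ψ _ ((mem_iff h _ c).2 (smul_q h c).symm)]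
  congr 1
  group

variable (V) in
/-- the character composed with the transfer from `V` to `U` -/
noncomputable def ver (ψ : U →* ℂˣ) : V →* ℂˣ := MonoidHom.toHomUnits
  { toFun := fun v => ∏ γ : Gm U V, Mat ψ v ((v : G) * γ) γ
    map_one' := by simp
    map_mul' := fun v w => by
      rw [← Equiv.prod_comp (Equiv.mulLeft (kap w)) fun γ : Gm U V => Mat ψ v ((v : G) * γ) γ,
        ← prod_mul_distrib]
      refine prod_congr rfl fun γ _ => ?_
      rw [Subgroup.coe_mul, mat_step, QuotientGroup.mk_mul, mul_assoc]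
      rfl }

theorem ver_apply (ψ : U →* ℂˣ) (v : V) :
    (ver V ψ v : ℂ) = ∏ γ : Gm U V, Mat ψ v ((v : G) * γ) γ := rfl

theorem ver_ev (v : V) : ∃ n : U, ∀ ψ : U →* ℂˣ, (ver V ψ v : ℂ) = ψ n :=
  prod_ev (ι := Gm U V) _ fun _ => (mem_iff _ _ _).2 (smul_q _ _).symm

theorem ver_mem (ψ : U →* ℂˣ) (v : V) (hv : (v : G) ∈ U) :
    (ver V ψ v : ℂ) = ∏ γ : Gm U V, ext0 (cj ψ (γ : G ⧸ U).out) v := by
  simp only [ver_apply, (QuotientGroup.eq_one_iff _).2 hv, one_mul, mat_apply, ext0_cj]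

theorem gen_bij {p : ℕ} (hp : p.Prime) (hΓ : Nat.card (Gm U V) = p) {δ : Gm U V} (h : δ ≠ 1) :
    Set.BijOn (fun t : ℕ => δ ^ t) (range p : Finset ℕ) (univ : Finset (Gm U V)) := by
  have := Fact.mk hp
  have ho : orderOf δ = p := orderOf_eq_prime (hΓ ▸ pow_card_eq_one') h
  refine ⟨fun _ _ => by simp, by simpa [ho] using pow_injOn_Iio_orderOf (x := δ), fun γ _ => ?_⟩
  have h1 : γ ∈ Subgroup.zpowers δ := mem_zpowers_of_prime_card hΓ h
  obtain ⟨t, ht, e⟩ := mem_image.1 (mem_zpowers_iff_mem_range_orderOf.1 h1)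
  exact ⟨t, by simpa [ho] using ht, e⟩

theorem ver_not {p : ℕ} (hp : p.Prime) (hΓ : Nat.card (Gm U V) = p) (ψ : U →* ℂˣ) (v : V)
    (hv : (v : G) ∉ U) : (ver V ψ v : ℂ) = ext0 ψ ((v : G) ^ p) := by
  have h : kap (U := U) v ≠ 1 := fun e => hv ((QuotientGroup.eq_one_iff _).1 (congrArg Subtype.val e))
  have hb := gen_bij hp hΓ h
  have tel : ∀ n : ℕ, ∏ t ∈ range n, Mat ψ v ((v : G) * ((v : G) : G ⧸ U) ^ t) (((v : G) : G ⧸ U) ^ t) =
      Mat ψ ((v : G) ^ n) (((v : G) : G ⧸ U) ^ n) 1 := fun n => by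
    induction n with
    | zero => simp
    | succ n ih =>
      rw [prod_range_succ, ih, pow_succ', mat_step, QuotientGroup.mk_pow, mul_one, pow_succ', mul_comm]
  have h1 : ((v : G) : G ⧸ U) ^ p = 1 :=
    congrArg Subtype.val (hΓ ▸ pow_card_eq_one' (x := kap (U := U) v))
  rw [ver_apply, ← prod_nbij _ hb.mapsTo hb.injOn hb.surjOn fun t _ => rfl]
  exact (tel p).trans (by rw [h1]; exact mat_oo _)

theorem ver_cj (ψ : U →* ℂˣ) (y : V) : ver V (cj ψ y) = ver V ψ := by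
  ext v
  have h : ∀ ψ : U →* ℂˣ, TT ψ (fun γ : Gm U V => (γ : G ⧸ U).out) (fun _ => v) =
      ver V ψ v * (zo (kap v * ·)).det := fun ψ => tt_eq ψ _ _ (kap v * ·) fun a b e =>
    Subtype.ext (((mem_iff _ _ _).1 e).trans (smul_q _ _))
  have h1 := tt_cj ψ y (fun γ : Gm U V => (γ : G ⧸ U).out) (fun _ => v) (Equiv.mulRight (kap y))
    fun a => by simp [kap]
  have h2 := zo_iter (kap (U := U) v * ·) (Nat.card (Gm U V))
  rw [mul_left_iterate, pow_card_eq_one'] at h2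
  have h3 := zo_iter (kap (U := U) v * ·) 0
  refine mul_right_cancel₀ (Int.cast_ne_zero.2 fun e => ?_) ((h _).symm.trans (h1.trans (h _)))
  rw [e, zero_pow Nat.card_pos.ne', show (fun x : Gm U V => 1 * x) = id from funext one_mul] at h2
  exact one_ne_zero ((pow_zero _).symm.trans (h3.symm.trans h2))

variable (U V) in
/-- the trace -/
noncomputable def Tr : ((U →* ℂˣ) → ℂ) →+ ((U →* ℂˣ) → ℂ) where
  toFun f ψ := ∑ γ : Gm U V, f (cj ψ (γ : G ⧸ U).out)
  map_zero' := funext fun ψ => by simp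
  map_add' f g := funext fun ψ => by simp [sum_add_distrib]

variable (U V) in
/-- the trace ideal -/
noncomputable def TrI : AddSubgroup ((U →* ℂˣ) → ℂ) := (IntG U).toAddSubgroup.map (Tr U V)

theorem tr_mul {f g : (U →* ℂˣ) → ℂ} (h : U ≤ V) (hf : f ∈ IntG U)
    (hi : ∀ ψ (y : V), f (cj ψ y) = f ψ) (hg : g ∈ TrI U V) : f * g ∈ TrI U V := by
  obtain ⟨w, hw, rfl⟩ := hg
  refine ⟨f * w, (IntG U).mul_mem hf hw, funext fun ψ => ?_⟩
  change ∑ γ : Gm U V, f _ * w _ = f ψ * ∑ γ : Gm U V, w _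
  rw [mul_sum]
  exact sum_congr rfl fun γ _ => by rw [hi ψ ⟨_, out_mem h γ⟩]

theorem tr_const {p : ℕ} (hΓ : Nat.card (Gm U V) = p) {z : ℤ} (hz : (p : ℤ) ∣ z) :
    (z : (U →* ℂˣ) → ℂ) ∈ TrI U V := by
  obtain ⟨m, rfl⟩ := hz
  refine ⟨m, intCast_mem (IntG U) m, funext fun ψ => ?_⟩
  change ∑ γ : Gm U V, (m : ℂ) = _
  rw [sum_const, card_univ, ← Nat.card_eq_fintype_card, hΓ]
  simp

theorem intG_ver {g : (V →* ℂˣ) → ℂ} (hg : g ∈ IntG V) : (fun ψ : U →* ℂˣ => g (ver V ψ)) ∈ IntG U :=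
  IntG.ind (p := fun g => (fun ψ : U →* ℂˣ => g (ver V ψ)) ∈ IntG U) (zero_mem (IntG U))
    (fun _ _ h h' => add_mem h h') (fun v z => by
      obtain ⟨n, hn⟩ := ver_ev (U := U) v
      simp only [hn]
      exact mul_mem (intCast_mem (IntG U) z) (ev_mem n)) hg

theorem rep_bij (h : U ≤ V) : Function.Bijective fun x : Gm U V × (G ⧸ V) =>
    ((x.2.out * (x.1 : G ⧸ U).out : G) : G ⧸ U) := by
  refine ⟨fun x y e => ?_, fun q => ?_⟩
  · have h1 : x.2 = y.2 := by
      have h2 := h (QuotientGroup.eq.1 e)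
      rw [← QuotientGroup.eq, QuotientGroup.mk_mul_of_mem _ (out_mem h _),
        QuotientGroup.mk_mul_of_mem _ (out_mem h _)] at h2
      simpa using h2
    refine Prod.ext (Subtype.ext ?_) h1
    simpa [h1] using e
  · obtain ⟨g, rfl⟩ := QuotientGroup.mk_surjective q
    refine ⟨(kap ⟨(g : G ⧸ V).out⁻¹ * g, ?_⟩, g), by simp [kap]⟩
    rw [← QuotientGroup.eq, QuotientGroup.out_eq']

theorem det_mw {p : ℕ} (hp : p.Prime) (h : U ≤ V) (hΓ : Nat.card (Gm U V) = p) (x : G → ℤ) :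
    (fun ψ : U →* ℂˣ => dt (Mat ψ) (zc x) - dt (Mat (ver V ψ)) (zc x)) ∈ TrI U V := by
  classical
  have := Fact.mk hp
  let r : Gm U V × (G ⧸ V) → G := fun x => x.2.out * (x.1 : G ⧸ U).out
  let W : (Gm U V × (G ⧸ V) → G) → (U →* ℂˣ) → ℂ := fun f ψ => (∏ b, zc x (f b)) * TT ψ r f
  let : MulAction (Gm U V) (Gm U V × (G ⧸ V) → G) :=
    { smul := fun δ f x => f (x.1 * δ, x.2)
      one_smul := fun f => funext fun x => congrArg f (Prod.ext (mul_one _) rfl)
      mul_smul := fun δ ε f => funext fun x => congrArg f (Prod.ext (mul_assoc _ _ _).symm rfl) }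
  have h1 := sum_orb hp hΓ (TrI U V) W fun f => by
    refine ⟨W f, ?_, funext fun ψ => ?_⟩
    · have := (IntG U).mul_mem (intCast_mem _ (∏ b, x (f b))) (tt_intG r f)
      change W f ∈ IntG U
      convert this using 1
      funext ψ
      simp [W, zc]
    · rw [Finset.sum_apply, ← Equiv.sum_comp (Equiv.inv (Gm U V))]
      refine sum_congr rfl fun δ _ => ?_
      let e : Gm U V × (G ⧸ V) ≃ Gm U V × (G ⧸ V) := (Equiv.mulRight δ).prodCongr (Equiv.refl _)
      have h2 := tt_cj ψ (δ : G ⧸ U).out r (f ∘ e.symm) e fun a => by simp [r, e, mul_assoc]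
      rw [Function.comp_assoc, e.symm_comp_self, Function.comp_id] at h2
      change (∏ b, zc x (f b)) * TT _ r f = (∏ b, zc x (f (e.symm b))) * TT ψ r (f ∘ e.symm)
      rw [h2, Equiv.prod_comp e.symm fun b => zc x (f b)]
  have h3 : ∑ f with ∀ ρ : Gm U V, ρ • f = f, W f = ∑ f' : G ⧸ V → G, W (f' ∘ Prod.snd) := by
    refine sum_nbij' (fun f b => f (1, b)) (fun f' => f' ∘ Prod.snd) (by simp)
      (fun f' _ => mem_filter.2 ⟨mem_univ _, fun _ => rfl⟩) (fun f hf => ?_) (fun _ _ => rfl)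
      fun f hf => congrArg W ?_
    all_goals
      funext y
      have := congrFun ((mem_filter.1 hf).2 y.1) (1, y.2)
      change f (1 * y.1, y.2) = _ at this
      rw [one_mul] at this
      first | exact this | exact this.symm
  have h4 : ∀ f' : G ⧸ V → G, (W (f' ∘ Prod.snd) - fun ψ : U →* ℂˣ =>
      (∏ b, zc x (f' b)) * TT (ver V ψ) (fun a : G ⧸ V => a.out) f') ∈ TrI U V := fun f' => by
    let v : G ⧸ V → V := fun b => ⟨_, (mem_iff (f' b) _ b).2 rfl⟩
    let s : Gm U V × (G ⧸ V) → Gm U V × (G ⧸ V) := fun y => (kap (v y.2) * y.1, y.2)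
    have hs : ∀ n y, s^[n] y = (kap (v y.2) ^ n * y.1, y.2) := fun n y => by
      induction n with
      | zero => simp
      | succ n ih => rw [Function.iterate_succ_apply', ih, pow_succ', mul_assoc]
    have h5 : (((zo s).det : ℤ) : ZMod p) = 1 := by
      have h6 : s^[p] = s^[0] := funext fun y => by
        rw [hs, hs, ← hΓ, pow_card_eq_one', pow_zero]
      rw [← ZMod.pow_card ((zo s).det : ZMod p), ← Int.cast_pow, ← zo_iter, h6, zo_iter]
      simp
    obtain ⟨n, hn⟩ := prod_ev (U := V) (fun b => (v b : G)) fun b => (v b).2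
    have h7 := tr_mul h (intG_ver (ev_mem n)) (fun ψ y => by rw [ver_cj]) (tr_const hΓ
      (z := (∏ b, x (f' b)) ^ p * ((zo fun b => f' b • b).det ^ p * (zo s).det) -
        (∏ b, x (f' b)) * (zo fun b => f' b • b).det) (by
          rw [← ZMod.intCast_zmod_eq_zero_iff_dvd]
          simp only [Int.cast_sub, Int.cast_mul, Int.cast_pow, ZMod.pow_card, h5, mul_one, sub_self]))
    convert h7 using 1
    funext ψ
    have h8 := tt_eq ψ r (f' ∘ Prod.snd) (Prod.map id (fun b => f' b • b) ∘ s) fun a b e => by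
      have e1 : a.2 = f' b.2 • b.2 := (mem_iff _ _ _).1 (by
        have := mul_mem (mul_mem (out_mem h a.1) (h e)) (inv_mem (out_mem h b.1))
        simpa [r, mul_assoc] using this)
      refine Prod.ext (Subtype.ext (((mem_iff (v b.2 : G) _ _).1 ?_).trans (smul_q _ _))) e1
      simpa [r, v, e1, mul_assoc] using e
    rw [zo_comp, zo_map, ← Nat.card_eq_fintype_card, hΓ, Fintype.prod_prod_type_right] at h8
    have h9 : ∀ b, ∏ γ : Gm U V, ext0 ψ ((r ((Prod.map id (fun b => f' b • b) ∘ s) (γ, b)))⁻¹ *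
        (f' ∘ Prod.snd) (γ, b) * r (γ, b)) = ext0 (ver V ψ) (v b) := fun b => by
      rw [ext0_coe, ver_apply]
      refine prod_congr rfl fun γ _ => congrArg (ext0 ψ) ?_
      simp [r, v, s, kap, mul_assoc]
    have h10 : ∏ b : Gm U V × (G ⧸ V), zc x ((f' ∘ Prod.snd) b) = (∏ b, zc x (f' b)) ^ p := by
      simp [Fintype.prod_prod_type, ← hΓ]
    simp only [h9, hn] at h8
    simp only [W, Pi.sub_apply, Pi.mul_apply, h8, h10, Pi.intCast_apply,
      tt_eq (ver V ψ) (fun a : G ⧸ V => a.out) f' (fun b => f' b • b)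
        fun a b e => (mem_iff _ _ _).1 e]
    rw [show ∏ b, ext0 (ver V ψ) ((f' b • b).out⁻¹ * f' b * b.out) = _ from hn _]
    simp only [zc, Int.cast_sub, Int.cast_mul, Int.cast_pow, Int.cast_prod]
    ring
  rw [h3] at h1
  convert add_mem h1 (sum_mem fun f' (_ : f' ∈ univ) => h4 f') using 1
  funext ψ
  simp only [Pi.add_apply, Pi.sub_apply, Finset.sum_apply, sum_sub_distrib,
    dt_exp ψ r (rep_bij h), dt_exp (ver V ψ) (fun a : G ⧸ V => a.out) out_bij, W]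
  ring

end Pool.Agent.MP_f3cd89_nt.Tw
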